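import Mathlib

set_option autoImplicit false

namespace Pool.Agent.Helper468.Apery

open Finset

instance fact5 : Fact (Nat.Prime 5) := ⟨by norm_num⟩

/-- Apery numbers -/
def aper (n : ℕ) : ℕ := ∑ k ∈ Finset.range (n + 1), (n.choose k) ^ 2 * ((n + k).choose k) ^ 2

/-- index reflection: x for x nonnegative, -1-x for x negative -/
def idx (x : ℤ) : ℕ := if 0 ≤ x then x.toNat else (-1 - x).toNat

/-- Apery numbers extended to the integers by u(-1-x) = u(x) -/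
def uz (x : ℤ) : ℤ := (aper (idx x) : ℤ)

/-- dual numbers over the rationals -/
abbrev K := DualNumber ℚ

/-- j + eps -/
noncomputable def jh (j : ℕ) : K := (j : K) + DualNumber.eps

/-- harmonic numbers extended to the integers -/
noncomputable def Hz (x : ℤ) : ℚ := harmonic (idx x)

/-- inverse of jh j + 1 -/
noncomputable def ji (j : ℕ) : K :=
  TrivSqZeroExt.inl (1 / ((j : ℚ) + 1)) + TrivSqZeroExt.inr (-(1 / ((j : ℚ) + 1) ^ 2))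

/-- the summand (C(x,j) C(x+j,j))^2 at j + eps -/
noncomputable def T (x : ℤ) : ℕ → K
  | 0 => 1 + TrivSqZeroExt.inr (4 * Hz x)
  | j + 1 => T x j * (((x : K) - jh j) * ((x : K) + jh j + 1)) ^ 2 * (ji j) ^ 4

/-- the summation functional -/
noncomputable def L (N : ℕ) (x : ℤ) (f : ℕ → K) : K := ∑ j ∈ range N, T x j * f j

theorem ji_mul (j : ℕ) : (jh j + 1) * ji j = 1 := by
  have h : (j : ℚ) + 1 ≠ 0 := by positivity
  unfold jh ji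
  ext
  · simp; field_simp
  · simp; field_simp; ring

theorem T_succ (x : ℤ) (j : ℕ) :
    (jh j + 1) ^ 4 * T x (j + 1) = (((x : K) - jh j) * ((x : K) + jh j + 1)) ^ 2 * T x j := by
  rw [T]
  have h := ji_mul j
  have : (jh j + 1) ^ 4 * ji j ^ 4 = 1 := by rw [← mul_pow, h, one_pow]
  linear_combination (T x j * (((x : K) - jh j) * ((x : K) + jh j + 1)) ^ 2) * this


def q {R : Type*} [CommRing R] (z : R) : R := (z + 1) * (z + 2) * (z + 3) * (z + 4)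

def nn {R : Type*} [CommRing R] (m : ℕ) (z : R) : R := ∏ a ∈ range m, q (5 * (a : R) + z)

def dd {R : Type*} [CommRing R] (m : ℕ) (z : R) : R := ∏ a ∈ range m, q (5 * (a : R) - z)

def Gnum {R : Type*} [CommRing R] (z s : R) : R :=
  ((z + 1) * (z + 2) * (z + 3) * (z + 4)) ^ 4 +
  (s - z) ^ 2 * ((s + z + 1) ^ 2 * ((z + 2) * (z + 3) * (z + 4)) ^ 4
    + (s + z + 2) ^ 2 * (s ^ 2 - (z + 1) ^ 2) ^ 2 * ((z + 3) * (z + 4)) ^ 4
    + (s + z + 3) ^ 2 * (s ^ 2 - (z + 1) ^ 2) ^ 2 * (s ^ 2 - (z + 2) ^ 2) ^ 2 * (z + 4) ^ 4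
    + (s + z + 4) ^ 2 * (s ^ 2 - (z + 1) ^ 2) ^ 2 * (s ^ 2 - (z + 2) ^ 2) ^ 2 * (s ^ 2 - (z + 3) ^ 2) ^ 2)

/-- the ring endomorphism a + b eps ↦ a + 5 b eps of the dual numbers -/
noncomputable def sig : K →+* K where
  toFun a := TrivSqZeroExt.inl a.fst + TrivSqZeroExt.inr (5 * a.snd)
  map_one' := by ext <;> simp
  map_zero' := by ext <;> simp
  map_add' a b := by ext <;> simp [mul_add]
  map_mul' a b := by ext <;> simp; ring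

open Polynomial in
noncomputable def Nx (x : ℤ) : Polynomial ℤ_[5] :=
  nn x.natAbs (X : Polynomial ℤ_[5]) ^ 2 * Gnum (X : Polynomial ℤ_[5]) (C (5 * (x : ℤ_[5])))

open Polynomial in
noncomputable def Dx (x : ℤ) : Polynomial ℤ_[5] :=
  dd x.natAbs (X : Polynomial ℤ_[5]) ^ 2 * q (X : Polynomial ℤ_[5]) ^ 4

/-- Bundle: u = Apery numbers, w n = n^3 u(n-1), Frobenius coefficients A, B at n and Am, Bm at -n -/
structure Frob (u w A Am B Bm : ℕ → ℤ_[5]) : Prop where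
  w0 : w 0 = 0
  wsucc : ∀ n : ℕ, w (n + 1) = ((n : ℤ_[5]) + 1) ^ 3 * u n
  hrec : ∀ n : ℕ, ((n : ℤ_[5]) + 1) ^ 3 * u (n + 1)
    = (2 * (n : ℤ_[5]) + 1) * (17 * (n : ℤ_[5]) ^ 2 + 17 * (n : ℤ_[5]) + 5) * u n - w n
  une : ∀ n, u n ≠ 0
  F1 : ∀ n : ℕ, u (5 * n) = A n * u n + 125 * B n * w n
  F2 : ∀ n : ℕ, w (5 * n) = 125 * (Am n * w n - 125 * (n : ℤ_[5]) ^ 6 * Bm n * u n)
  A1 : ∀ n, (5 : ℤ_[5]) ∣ A n - 1
  Am1 : ∀ n, (5 : ℤ_[5]) ∣ Am n - 1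
  A2 : ∀ e m n : ℕ, m ≡ n [MOD 5 ^ e] → (5 : ℤ_[5]) ^ (e + 1) ∣ A m - A n
  Am2 : ∀ e m n : ℕ, m ≡ n [MOD 5 ^ e] → (5 : ℤ_[5]) ^ (e + 1) ∣ Am m - Am n
  B2 : ∀ e m n : ℕ, m ≡ n [MOD 5 ^ e] → (5 : ℤ_[5]) ^ (e + 1) ∣ 125 * (B m - B n)
  Bm2 : ∀ e m n : ℕ, m ≡ n [MOD 5 ^ e] → (5 : ℤ_[5]) ^ (e + 1) ∣ 125 * (Bm m - Bm n)

/-- t = 5y+2 where no base 5 digit of y is 2 -/
def Tgood (t : ℕ) : Prop := t % 5 = 2 ∧ ∀ i, 1 ≤ i → t / 5 ^ i % 5 ≠ 2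

/-- v(w n) ≥ v(u n) - 1 -/
def IsR (u w : ℕ → ℤ_[5]) (n : ℕ) : Prop := ∃ c : ℤ_[5], 5 * w n = c * u n

end Pool.Agent.Helper468.Apery
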