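import Pool.Agent.Helper468.Apery.Base

set_option autoImplicit false

namespace Pool.Agent.Helper468.Apery

namespace J1

open Finset



theorem idx_symm (x : ℤ) : idx (-1 - x) = idx x := by
  unfold idx
  split_ifs with h1 h2 h2
  · omega
  · rfl
  · congr 1; ring
  · omega

theorem Hz_symm (x : ℤ) : Hz (-1 - x) = Hz x := by
  unfold Hz
  rw [idx_symm]

theorem Hz_succ (x : ℤ) : Hz (x + 1) = Hz x + 1 / ((x : ℚ) + 1) := by
  unfold Hz
  rcases le_or_gt 0 x with h | h
  · obtain ⟨n, rfl⟩ := Int.eq_ofNat_of_zero_le h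
    have e1 : idx ((n : ℤ) + 1) = n + 1 := by
      unfold idx; rw [if_pos (by positivity)]; omega
    have e2 : idx (n : ℤ) = n := by
      unfold idx; rw [if_pos (by positivity)]; omega
    rw [e1, e2, harmonic_succ]
    push_cast
    rw [one_div]
  · rcases eq_or_lt_of_le (show x ≤ -1 by omega) with h1 | h1
    · subst h1
      have e1 : idx ((-1 : ℤ) + 1) = 0 := by
        unfold idx; norm_num
      have e2 : idx (-1 : ℤ) = 0 := by
        unfold idx; norm_num
      rw [e1, e2]
      norm_num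
    · obtain ⟨n, hn⟩ := Int.eq_ofNat_of_zero_le (show 0 ≤ -2 - x by omega)
      obtain rfl : x = -2 - (n : ℤ) := by omega
      have e1 : idx (-2 - (n : ℤ) + 1) = n := by
        unfold idx; rw [if_neg (by omega)]; omega
      have e2 : idx (-2 - (n : ℤ)) = n + 1 := by
        unfold idx; rw [if_neg (by omega)]; omega
      rw [e1, e2, harmonic_succ]
      push_cast
      have h3 : ((n : ℚ) + 1) ≠ 0 := by positivity
      have h4 : (-2 - (n : ℚ) + 1) = -((n : ℚ) + 1) := by ring
      rw [h4, one_div, inv_neg]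
      ring

theorem jh_succ (j : ℕ) : jh (j + 1) = jh j + 1 := by
  unfold jh
  push_cast
  ring

theorem T_symm (x : ℤ) (j : ℕ) : T (-1 - x) j = T x j := by
  induction j with
  | zero => simp only [T, Hz_symm]
  | succ j ih =>
    simp only [T, ih]
    push_cast
    ring

theorem T_eq_zero_aux (n : ℕ) (k : ℕ) : T (n : ℤ) (n + 1 + k) = 0 := by
  induction k with
  | zero =>
    rw [add_zero, T]
    have h1 : (((n : ℤ) : K) - jh n) = -DualNumber.eps := by
      unfold jh
      push_cast
      ring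
    have h2 : (DualNumber.eps : K) ^ 2 = 0 := by
      rw [sq, DualNumber.eps_mul_eps]
    rw [h1, mul_pow, neg_sq, h2]
    ring
  | succ k ih =>
    rw [← add_assoc, T, ih]
    ring

theorem T_eq_zero (x : ℤ) (j : ℕ) (h : x.natAbs < j) : T x j = 0 := by
  rcases le_or_gt 0 x with hx | hx
  · obtain ⟨n, rfl⟩ := Int.eq_ofNat_of_zero_le hx
    obtain ⟨k, rfl⟩ := Nat.exists_eq_add_of_le (show n + 1 ≤ j by omega)
    exact T_eq_zero_aux n k
  · rw [← T_symm]
    obtain ⟨n, hn⟩ := Int.eq_ofNat_of_zero_le (show 0 ≤ -1 - x by omega)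
    obtain ⟨k, rfl⟩ := Nat.exists_eq_add_of_le (show n + 1 ≤ j by omega)
    rw [hn]
    exact T_eq_zero_aux n k

theorem T_contig (x : ℤ) (j : ℕ) :
    ((x : K) + 1 + jh j) ^ 2 * T x j = ((x : K) + 1 - jh j) ^ 2 * T (x + 1) j := by
  induction j with
  | zero =>
    simp only [T, Hz_succ]
    unfold jh
    by_cases hx : (x : ℚ) + 1 = 0
    · have hx' : (x : K) + 1 = 0 := by
        have : ((x : K) + 1) = TrivSqZeroExt.inl ((x : ℚ) + 1) := by
          ext <;> simp
        rw [this, hx]; simp
      rw [hx', hx]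
      have h2 : (DualNumber.eps : K) ^ 2 = 0 := by
        rw [sq, DualNumber.eps_mul_eps]
      simp
    · ext
      · simp
      · simp [pow_two]
        field_simp
        ring
  | succ j ih =>
    rw [T, T, jh_succ]
    push_cast
    linear_combination (((x : K) + jh j + 2) * ((x : K) - jh j)) ^ 2 * (ji j) ^ 4 * ih

theorem L_ext (M N : ℕ) (x : ℤ) (hM : x.natAbs < M) (hN : x.natAbs < N) (f : ℕ → K) :
    L M x f = L N x f := by
  have key : ∀ M : ℕ, x.natAbs < M → L M x f = L (x.natAbs + 1) x f := by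
    intro M hM
    unfold L
    symm
    apply Finset.sum_subset
    · intro j hj
      rw [Finset.mem_range] at hj ⊢
      omega
    · intro j _ hj
      rw [Finset.mem_range] at hj
      rw [T_eq_zero x j (by omega), zero_mul]
  rw [key M hM, key N hN]

theorem L_telescope (N : ℕ) (x : ℤ) (hN : x.natAbs < N) (s : ℕ → K) :
    L N x (fun j => (((x : K) - jh j) * ((x : K) + jh j + 1)) ^ 2 * s (j + 1) - (jh j) ^ 4 * s j) = 0 := by
  unfold L
  have h1 : ∀ j, T x j * ((((x : K) - jh j) * ((x : K) + jh j + 1)) ^ 2 * s (j + 1) -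
      (jh j) ^ 4 * s j) = (jh (j + 1)) ^ 4 * T x (j + 1) * s (j + 1) - (jh j) ^ 4 * T x j * s j := by
    intro j
    have := T_succ x j
    rw [jh_succ]
    linear_combination (-s (j + 1)) * this
  simp only [h1]
  rw [Finset.sum_range_sub (fun j => (jh j) ^ 4 * T x j * s j)]
  rw [T_eq_zero x N hN]
  have h2 : (jh 0) ^ 4 = 0 := by
    unfold jh
    have h3 : (DualNumber.eps : K) ^ 2 = 0 := by
      rw [sq, DualNumber.eps_mul_eps]
    have : (((0 : ℕ) : K) + DualNumber.eps) ^ 4 = (DualNumber.eps ^ 2) ^ 2 := by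
      push_cast; ring
    rw [this, h3]; ring
  rw [h2]
  ring


end J1

end Pool.Agent.Helper468.Apery
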