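import Pool.Agent.Helper468.Apery.Base

set_option autoImplicit false

namespace Pool.Agent.Helper468.Apery

namespace J10

open Finset


/-! ### units -/

theorem unit_iff (x : ℤ_[5]) : IsUnit x ↔ ¬ (5 : ℤ_[5]) ∣ x := by
  have h := PadicInt.norm_lt_one_iff_dvd (p := 5) x
  push_cast at h
  rw [← h, PadicInt.isUnit_iff, not_lt]
  constructor
  · intro h; rw [h]
  · intro h2
    exact le_antisymm (PadicInt.norm_le_one x) h2

theorem dvd_iff (x : ℤ_[5]) : (5 : ℤ_[5]) ∣ x ↔ PadicInt.toZMod x = 0 := by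
  have h1 : x ∈ RingHom.ker (PadicInt.toZMod (p := 5)) ↔ (5 : ℤ_[5]) ∣ x := by
    rw [PadicInt.ker_toZMod, PadicInt.maximalIdeal_eq_span_p, Ideal.mem_span_singleton]
    push_cast
    rfl
  rw [← h1, RingHom.mem_ker]

theorem unit_iff' (x : ℤ_[5]) : IsUnit x ↔ PadicInt.toZMod x ≠ 0 := by
  rw [unit_iff, dvd_iff]

theorem cancel_congr {D c c' y y' z z' : ℤ_[5]} (h : c * y = z) (h' : c' * y' = z')
    (hc : IsUnit c) (h1 : D ∣ (c - c') * y') (h2 : D ∣ z - z') : D ∣ y - y' := by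
  have h3 : D ∣ c * (y - y') := by
    have : c * (y - y') = (z - z') - (c - c') * y' := by rw [← h, ← h']; ring
    rw [this]
    exact dvd_sub h2 h1
  exact (hc.dvd_mul_left).mp h3

/-! ### the orbit of a digit -/

/-- the polynomial of the recurrence -/
noncomputable def PP (n : ℤ_[5]) : ℤ_[5] := (2 * n + 1) * (17 * n ^ 2 + 17 * n + 5)

/-- the ratios `u(5y+r)/u(5y)` and `w(5y+r)/u(5y)` -/
noncomputable def sa (x s : ℤ_[5]) : ℕ → ℤ_[5] × ℤ_[5]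
  | 0 => (1, s)
  | r + 1 => ((PP (x + r) * (sa x s r).1 - (sa x s r).2) * Ring.inverse ((x + r + 1) ^ 3),
      (x + r + 1) ^ 3 * (sa x s r).1)

theorem unit_add {x : ℤ_[5]} (hx : (5 : ℤ_[5]) ∣ x) (r : ℕ) (hr : r < 4) :
    IsUnit ((x + r + 1) ^ 3) := by
  apply IsUnit.pow
  rw [unit_iff']
  rw [dvd_iff] at hx
  rw [map_add, map_add, hx, map_natCast, map_one]
  interval_cases r <;> decide

theorem sa_spec {u w A Am B Bm : ℕ → ℤ_[5]} (F : Frob u w A Am B Bm) {y : ℕ} {s : ℤ_[5]}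
    (hs : w (5 * y) = s * u (5 * y)) (r : ℕ) (hr : r ≤ 4) :
    u (5 * y + r) = (sa (5 * y) s r).1 * u (5 * y) ∧
      w (5 * y + r) = (sa (5 * y) s r).2 * u (5 * y) := by
  induction r with
  | zero => simp [sa, hs]
  | succ r ih =>
    obtain ⟨h1, h2⟩ := ih (by omega)
    have hu := unit_add (x := 5 * (y : ℤ_[5])) (dvd_mul_right _ _) r (by omega)
    have hcast : ((5 * y + r : ℕ) : ℤ_[5]) = 5 * y + r := by push_cast; ring
    constructor
    · have h3 := F.hrec (5 * y + r)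
      rw [hcast, h1, h2] at h3
      have h4 := Ring.mul_inverse_cancel _ hu
      have h5 : u (5 * y + (r + 1)) = u (5 * y + r + 1) := by rw [add_assoc]
      rw [h5]
      simp only [sa, PP]
      linear_combination (Ring.inverse ((5 * (y : ℤ_[5]) + r + 1) ^ 3)) * h3
        - (u (5 * y + r + 1)) * h4
    · have h3 := F.wsucc (5 * y + r)
      rw [hcast, h1] at h3
      rw [← add_assoc, h3]
      simp only [sa]
      ring

theorem sa_congr {R : Type*} [CommRing R] (f : ℤ_[5] →+* R) {x x' s s' : ℤ_[5]}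
    (hx5 : (5 : ℤ_[5]) ∣ x) (hx5' : (5 : ℤ_[5]) ∣ x') (hx : f x = f x') (hs : f s = f s')
    (r : ℕ) (hr : r ≤ 4) :
    f (sa x s r).1 = f (sa x' s' r).1 ∧ f (sa x s r).2 = f (sa x' s' r).2 := by
  induction r with
  | zero => exact ⟨rfl, hs⟩
  | succ r ih =>
    obtain ⟨h1, h2⟩ := ih (by omega)
    have hc : f ((x + r + 1) ^ 3) = f ((x' + r + 1) ^ 3) := by
      simp only [map_pow, map_add, map_natCast, map_one, hx]
    have hi : f (Ring.inverse ((x + r + 1) ^ 3)) = f (Ring.inverse ((x' + r + 1) ^ 3)) := by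
      have e1 := congrArg f (Ring.mul_inverse_cancel _ (unit_add hx5 r (by omega)))
      have e2 := congrArg f (Ring.mul_inverse_cancel _ (unit_add hx5' r (by omega)))
      rw [map_mul, map_one] at e1 e2
      rw [hc] at e1
      linear_combination (f (Ring.inverse ((x' + r + 1) ^ 3))) * e1
        - (f (Ring.inverse ((x + r + 1) ^ 3))) * e2
    constructor
    · simp only [sa, PP, map_mul, map_sub, map_add, map_pow, map_natCast, map_one, map_ofNat, h1,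
        h2, hx] at hi ⊢
      rw [hi]
    · simp only [sa, map_mul, map_add, map_pow, map_natCast, map_one, h1, hx]

theorem sa_congr_dvd {D x x' s s' : ℤ_[5]}
    (hx5 : (5 : ℤ_[5]) ∣ x) (hx5' : (5 : ℤ_[5]) ∣ x') (hx : D ∣ x - x') (hs : D ∣ s - s')
    (r : ℕ) (hr : r ≤ 4) :
    D ∣ (sa x s r).1 - (sa x' s' r).1 ∧ D ∣ (sa x s r).2 - (sa x' s' r).2 := by
  have key : ∀ a b : ℤ_[5], D ∣ a - b ↔
      Ideal.Quotient.mk (Ideal.span {D}) a = Ideal.Quotient.mk (Ideal.span {D}) b := by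
    intro a b
    rw [Ideal.Quotient.eq, Ideal.mem_span_singleton]
  rw [key, key]
  rw [key] at hx hs
  exact sa_congr _ hx5 hx5' hx hs r hr

theorem inv_zmod {x : ℤ_[5]} (hx : (5 : ℤ_[5]) ∣ x) (r : ℕ) (hr : r < 4) :
    PadicInt.toZMod (Ring.inverse ((x + (r : ℤ_[5]) + 1) ^ 3)) * ((r : ZMod 5) + 1) ^ 3 = 1 := by
  have e1 := congrArg PadicInt.toZMod (Ring.mul_inverse_cancel _ (unit_add hx r hr))
  rw [dvd_iff] at hx
  simp only [map_mul, map_pow, map_add, map_natCast, map_one, hx] at e1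
  linear_combination e1

/-- values modulo five -/
theorem sa_mod {x s : ℤ_[5]} (hx : (5 : ℤ_[5]) ∣ x) (hs : (5 : ℤ_[5]) ∣ s) :
    PadicInt.toZMod (sa x s 1).1 = 0 ∧ PadicInt.toZMod (sa x s 1).2 = 1 ∧
    PadicInt.toZMod (sa x s 2).1 = 3 ∧ PadicInt.toZMod (sa x s 2).2 = 0 ∧
    PadicInt.toZMod (sa x s 3).1 = 0 ∧ PadicInt.toZMod (sa x s 3).2 = 1 ∧
    PadicInt.toZMod (sa x s 4).1 = 1 := by
  have i1 := inv_zmod hx 0 (by norm_num)
  have i2 := inv_zmod hx 1 (by norm_num)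
  have i3 := inv_zmod hx 2 (by norm_num)
  have i4 := inv_zmod hx 3 (by norm_num)
  have h5 : (5 : ZMod 5) = 0 := by decide
  rw [dvd_iff] at hx hs
  have a1 : PadicInt.toZMod (sa x s 1).1 = 0 := by
    simp only [sa, PP, map_mul, map_sub, map_add, map_pow, map_natCast, map_one, map_ofNat, hx, hs]
    linear_combination (PadicInt.toZMod (Ring.inverse ((x + ((0 : ℕ) : ℤ_[5]) + 1) ^ 3))) * h5
  have b1 : PadicInt.toZMod (sa x s 1).2 = 1 := by
    simp only [sa, map_mul, map_add, map_pow, map_natCast, map_one, hx]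
    norm_num
  have a2 : PadicInt.toZMod (sa x s 2).1 = 3 := by
    have : (sa x s 2).1 = (PP (x + (1 : ℕ)) * (sa x s 1).1 - (sa x s 1).2) *
        Ring.inverse ((x + (1 : ℕ) + 1) ^ 3) := rfl
    rw [this, map_mul, map_sub, map_mul, a1, b1]
    linear_combination (-2 : ZMod 5) * i2 + (3 * (PadicInt.toZMod (Ring.inverse ((x + ((1 : ℕ) : ℤ_[5]) + 1) ^ 3))) - 1) * h5
  have b2 : PadicInt.toZMod (sa x s 2).2 = 0 := by
    have : (sa x s 2).2 = (x + (1 : ℕ) + 1) ^ 3 * (sa x s 1).1 := rfl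
    rw [this, map_mul, a1, mul_zero]
  have a3 : PadicInt.toZMod (sa x s 3).1 = 0 := by
    have : (sa x s 3).1 = (PP (x + (2 : ℕ)) * (sa x s 2).1 - (sa x s 2).2) *
        Ring.inverse ((x + (2 : ℕ) + 1) ^ 3) := rfl
    have hP : PadicInt.toZMod (PP (x + (2 : ℕ))) = 0 := by
      simp only [PP, map_mul, map_add, map_pow, map_natCast, map_one, map_ofNat, hx]
      decide
    rw [this, map_mul, map_sub, map_mul, b2, hP]
    ring
  have b3 : PadicInt.toZMod (sa x s 3).2 = 1 := by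
    have : (sa x s 3).2 = (x + (2 : ℕ) + 1) ^ 3 * (sa x s 2).1 := rfl
    rw [this, map_mul, a2]
    simp only [map_add, map_pow, map_natCast, map_one, hx]
    decide
  have a4 : PadicInt.toZMod (sa x s 4).1 = 1 := by
    have : (sa x s 4).1 = (PP (x + (3 : ℕ)) * (sa x s 3).1 - (sa x s 3).2) *
        Ring.inverse ((x + (3 : ℕ) + 1) ^ 3) := rfl
    rw [this, map_mul, map_sub, map_mul, a3, b3]
    push_cast at i4 ⊢
    linear_combination i4 - 13 * (PadicInt.toZMod (Ring.inverse ((x + 3 + 1) ^ 3))) * h5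
  exact ⟨a1, b1, a2, b2, a3, b3, a4⟩


/-! ### digits -/

theorem d5_25 : (5 : ℤ_[5]) ∣ 25 := ⟨5, by norm_num⟩

theorem modeq_dvd {E n n' : ℕ} (hn : n ≡ n' [MOD 5 ^ E]) :
    (5 : ℤ_[5]) ^ E ∣ (n : ℤ_[5]) - (n' : ℤ_[5]) := by
  have h1 : ((5 ^ E : ℕ) : ℤ) ∣ (n' : ℤ) - n := hn.dvd
  have h2 : ((5 ^ E : ℕ) : ℤ) ∣ (n : ℤ) - n' := by
    rw [← dvd_neg, neg_sub]; exact h1
  have h3 := (Int.castRingHom ℤ_[5]).map_dvd h2
  simpa using h3

/-- no digit equals two -/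
def Good (y : ℕ) : Prop := ∀ i, y / 5 ^ i % 5 ≠ 2

theorem Good.div {y : ℕ} (h : Good y) : Good (y / 5) := by
  intro i
  have := h (i + 1)
  rwa [pow_succ', ← Nat.div_div_eq_div_mul] at this

theorem Good.mod {y : ℕ} (h : Good y) : y % 5 ≠ 2 := by
  have := h 0
  simpa using this

theorem good_ne {y : ℕ} (h : y % 5 ≠ 2) : (1 + 2 * (y : ZMod 5)) ≠ 0 := by
  have h1 : (y : ZMod 5) = ((y % 5 : ℕ) : ZMod 5) := by simp
  rw [h1]
  have h2 : y % 5 < 5 := Nat.mod_lt _ (by norm_num)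
  interval_cases (y % 5)
  · decide
  · decide
  · exact absurd rfl h
  · decide
  · decide

theorem sa_five {y : ℕ} {s : ℤ_[5]} (hs : (25 : ℤ_[5]) ∣ s) (hy : y % 5 ≠ 2) :
    (∃ α, (sa (5 * y) s 1).1 = 5 * α ∧ IsUnit α) ∧ (∃ α, (sa (5 * y) s 3).1 = 5 * α ∧ IsUnit α) := by
  obtain ⟨s', rfl⟩ := hs
  have hx : (5 : ℤ_[5]) ∣ 5 * (y : ℤ_[5]) := dvd_mul_right _ _
  have i1 := inv_zmod hx 0 (by norm_num)
  have i3 := inv_zmod hx 2 (by norm_num)
  have h5 : (5 : ZMod 5) = 0 := by decide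
  have hg := good_ne hy
  set α1 : ℤ_[5] := ((1 + 27 * y + 255 * (y : ℤ_[5]) ^ 2 + 850 * (y : ℤ_[5]) ^ 3) - 5 * s') *
    Ring.inverse ((5 * (y : ℤ_[5]) + ((0 : ℕ) : ℤ_[5]) + 1) ^ 3) with hα1
  have e1 : (sa (5 * y) (25 * s') 1).1 = 5 * α1 := by
    simp only [sa, PP, hα1]
    push_cast
    ring
  have m1 : PadicInt.toZMod α1 = 1 + 2 * (y : ZMod 5) := by
    rw [hα1]
    simp only [map_mul, map_sub, map_add, map_pow, map_natCast, map_one, map_ofNat] at i1 ⊢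
    linear_combination (1 + 2 * (y : ZMod 5)) * i1 + ((5 * (y : ZMod 5) + 51 * (y : ZMod 5) ^ 2
      + 170 * (y : ZMod 5) ^ 3 - (PadicInt.toZMod s')) *
      (PadicInt.toZMod (Ring.inverse ((5 * (y : ℤ_[5]) + ((0 : ℕ) : ℤ_[5]) + 1) ^ 3)))) * h5
  have e2 : (sa (5 * y) (25 * s') 2).2 = (5 * (y : ℤ_[5]) + ((1 : ℕ) : ℤ_[5]) + 1) ^ 3 * (5 * α1) := by
    rw [← e1]
    rfl
  obtain ⟨-, -, m2, -⟩ := sa_mod hx (dvd_mul_of_dvd_left d5_25 s')
  set α3 : ℤ_[5] := ((2 * y + 1) * (425 * (y : ℤ_[5]) ^ 2 + 425 * y + 107) *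
      (sa (5 * y) (25 * s') 2).1 - (5 * (y : ℤ_[5]) + ((1 : ℕ) : ℤ_[5]) + 1) ^ 3 * α1) *
    Ring.inverse ((5 * (y : ℤ_[5]) + ((2 : ℕ) : ℤ_[5]) + 1) ^ 3) with hα3
  have e3 : (sa (5 * y) (25 * s') 3).1 = 5 * α3 := by
    have : (sa (5 * y) (25 * s') 3).1 = (PP (5 * y + (2 : ℕ)) * (sa (5 * y) (25 * s') 2).1
        - (sa (5 * y) (25 * s') 2).2) *
        Ring.inverse ((5 * (y : ℤ_[5]) + (2 : ℕ) + 1) ^ 3) := rfl
    rw [this, e2, hα3]
    simp only [PP]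
    push_cast
    ring
  have m3 : PadicInt.toZMod α3 = (-1) * (1 + 2 * (y : ZMod 5)) := by
    rw [hα3]
    simp only [map_mul, map_sub, map_add, map_pow, map_natCast, map_one, map_ofNat, m1, m2] at i3 ⊢
    push_cast at i3 ⊢
    set I := PadicInt.toZMod (Ring.inverse ((5 * (y : ℤ_[5]) + 2 + 1) ^ 3)) with hI
    have h5y : (5 : ZMod 5) * y = 0 := by rw [h5]; ring
    have h107 : (107 : ZMod 5) = 2 := by decide
    have h425 : (425 : ZMod 5) = 0 := by decide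
    rw [h5y, h107, h425]
    linear_combination (-(1 + 2 * (y : ZMod 5))) * i3 + (5 * I * (1 + 2 * (y : ZMod 5))) * h5
  refine ⟨⟨α1, e1, ?_⟩, ⟨α3, e3, ?_⟩⟩
  · rw [unit_iff', m1]
    exact hg
  · rw [unit_iff', m3]
    exact mul_ne_zero (by decide) hg

/-! ### relations -/

section rel
variable {u w A Am B Bm : ℕ → ℤ_[5]} (F : Frob u w A Am B Bm)
include F

theorem uform {n : ℕ} {κ a b : ℤ_[5]} (hu : u n = a * κ) (hw : w n = b * κ) :
    u (5 * n) = (A n * a + 125 * B n * b) * κ := by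
  rw [F.F1, hu, hw]; ring

theorem wform {n : ℕ} {κ a b : ℤ_[5]} (hu : u n = a * κ) (hw : w n = b * κ) :
    w (5 * n) = (125 * (Am n * b - 125 * (n : ℤ_[5]) ^ 6 * Bm n * a)) * κ := by
  rw [F.F2, hu, hw]; ring

theorem relU {n : ℕ} {κ a b s : ℤ_[5]} (hκ : κ ≠ 0) (hu : u n = a * κ) (hw : w n = b * κ)
    (hs : w (5 * n) = s * u (5 * n)) :
    (A n * a + 125 * B n * b) * s = 125 * (Am n * b - 125 * (n : ℤ_[5]) ^ 6 * Bm n * a) := by
  rw [uform F hu hw, wform F hu hw] at hs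
  apply mul_right_cancel₀ hκ
  linear_combination -hs

theorem relN {n : ℕ} {κ α b s : ℤ_[5]} (hκ : κ ≠ 0) (hu : u n = 5 * α * κ) (hw : w n = b * κ)
    (hs : w (5 * n) = s * u (5 * n)) :
    (A n * α + 25 * B n * b) * s = 25 * Am n * b - 125 * (n : ℤ_[5]) ^ 6 * (125 * Bm n) * α := by
  have h := relU F hκ hu hw hs
  have h5 : (5 : ℤ_[5]) ≠ 0 := by norm_num
  apply mul_left_cancel₀ h5
  linear_combination h

theorem unitA {n : ℕ} {a b : ℤ_[5]} (ha : IsUnit a) : IsUnit (A n * a + 125 * B n * b) := by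
  rw [unit_iff'] at ha ⊢
  have h1 := F.A1 n
  rw [dvd_iff, map_sub, map_one, sub_eq_zero] at h1
  have h125 : (125 : ZMod 5) = 0 := by decide
  simp only [map_add, map_mul, map_ofNat, h1, h125]
  simpa using ha

theorem unitA' {n : ℕ} {a b : ℤ_[5]} (ha : IsUnit a) : IsUnit (A n * a + 25 * B n * b) := by
  rw [unit_iff'] at ha ⊢
  have h1 := F.A1 n
  rw [dvd_iff, map_sub, map_one, sub_eq_zero] at h1
  have h25 : (25 : ZMod 5) = 0 := by decide
  simp only [map_add, map_mul, map_ofNat, h1, h25]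
  simpa using ha

theorem exU {n : ℕ} {κ a b : ℤ_[5]} (ha : IsUnit a) (hu : u n = a * κ) (hw : w n = b * κ) :
    ∃ s, w (5 * n) = s * u (5 * n) ∧ (125 : ℤ_[5]) ∣ s := by
  have hd := unitA F (n := n) (b := b) ha
  refine ⟨125 * (Am n * b - 125 * (n : ℤ_[5]) ^ 6 * Bm n * a) *
    Ring.inverse (A n * a + 125 * B n * b), ?_, ?_⟩
  · rw [uform F hu hw, wform F hu hw]
    have := Ring.mul_inverse_cancel _ hd
    linear_combination (-(125 * (Am n * b - 125 * (n : ℤ_[5]) ^ 6 * Bm n * a)) * κ) * this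
  · rw [mul_assoc]
    exact dvd_mul_right _ _

theorem exN {n : ℕ} {κ α b : ℤ_[5]} (ha : IsUnit α) (hu : u n = 5 * α * κ) (hw : w n = b * κ) :
    ∃ s, w (5 * n) = s * u (5 * n) ∧ (25 : ℤ_[5]) ∣ s := by
  have hd := unitA' F (n := n) (b := b) ha
  refine ⟨25 * (Am n * b - 625 * (n : ℤ_[5]) ^ 6 * Bm n * α) *
    Ring.inverse (A n * α + 25 * B n * b), ?_, ?_⟩
  · rw [uform F hu hw, wform F hu hw]
    have := Ring.mul_inverse_cancel _ hd
    linear_combination (-(125 * (Am n * b - 625 * (n : ℤ_[5]) ^ 6 * Bm n * α)) * κ) * this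
  · rw [mul_assoc]
    exact dvd_mul_right _ _

theorem ex_s (y : ℕ) (hy : Good y) : ∃ s, w (5 * y) = s * u (5 * y) ∧ (25 : ℤ_[5]) ∣ s := by
  induction y using Nat.strong_induction_on with
  | _ y ih =>
    by_cases h0 : y = 0
    · subst h0
      exact ⟨0, by simp [F.w0], dvd_zero _⟩
    · obtain ⟨s, hs, hs25⟩ := ih (y / 5) (by omega) hy.div
      have hr : y % 5 < 5 := Nat.mod_lt _ (by norm_num)
      obtain ⟨hu, hw⟩ := sa_spec F hs (y % 5) (by omega)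
      have hyy : 5 * (y / 5) + y % 5 = y := Nat.div_add_mod y 5
      rw [hyy] at hu hw
      have hs5 : (5 : ℤ_[5]) ∣ s := dvd_trans d5_25 hs25
      have hx : (5 : ℤ_[5]) ∣ 5 * ((y / 5 : ℕ) : ℤ_[5]) := dvd_mul_right _ _
      obtain ⟨-, -, -, -, -, -, m4⟩ := sa_mod hx hs5
      obtain ⟨⟨α1, e1, u1⟩, ⟨α3, e3, u3⟩⟩ := sa_five hs25 hy.div.mod
      have hcases : y % 5 = 0 ∨ y % 5 = 1 ∨ y % 5 = 3 ∨ y % 5 = 4 := by
        have := hy.mod
        omega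
      have h25 : (25 : ℤ_[5]) ∣ 125 := ⟨5, by norm_num⟩
      rcases hcases with h | h | h | h
      · rw [h] at hu hw
        obtain ⟨t, ht, hd⟩ := exU F (a := 1) isUnit_one hu hw
        exact ⟨t, ht, dvd_trans h25 hd⟩
      · rw [h] at hu hw
        rw [e1] at hu
        exact exN F u1 hu hw
      · rw [h] at hu hw
        rw [e3] at hu
        exact exN F u3 hu hw
      · rw [h] at hu hw
        obtain ⟨t, ht, hd⟩ := exU F (by rw [unit_iff', m4]; decide) hu hw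
        exact ⟨t, ht, dvd_trans h25 hd⟩

theorem lipU {E k n n' : ℕ} (hk : k ≤ 3) {a a' b b' s s' : ℤ_[5]} (hn : n ≡ n' [MOD 5 ^ E])
    (ha : (5 : ℤ_[5]) ^ E ∣ a - a') (hb : (5 : ℤ_[5]) ^ E ∣ b - b') (hu : IsUnit a)
    (h : (A n * a + 125 * B n * b) * s = 125 * (Am n * b - 125 * (n : ℤ_[5]) ^ 6 * Bm n * a))
    (h' : (A n' * a' + 125 * B n' * b') * s'
      = 125 * (Am n' * b' - 125 * (n' : ℤ_[5]) ^ 6 * Bm n' * a'))
    (hs' : (5 : ℤ_[5]) ^ k ∣ s') : (5 : ℤ_[5]) ^ (E + k) ∣ s - s' := by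
  have hnn : (5 : ℤ_[5]) ^ E ∣ (n : ℤ_[5]) ^ 6 - (n' : ℤ_[5]) ^ 6 := by
    refine dvd_trans ?_ (sub_dvd_pow_sub_pow _ _ _)
    have h1 : ((5 ^ E : ℕ) : ℤ) ∣ (n' : ℤ) - n := hn.dvd
    have h2 : ((5 ^ E : ℕ) : ℤ) ∣ (n : ℤ) - n' := by
      rw [← dvd_neg, neg_sub]; exact h1
    have h3 := (Int.castRingHom ℤ_[5]).map_dvd h2
    simpa using h3
  have hA := F.A2 E n n' hn
  have hAm := F.Am2 E n n' hn
  have hB := F.B2 E n n' hn
  have hBm := F.Bm2 E n n' hn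
  obtain ⟨a1, ha1⟩ := ha
  obtain ⟨b1, hb1⟩ := hb
  obtain ⟨n1, hn1⟩ := hnn
  obtain ⟨A1, hA1⟩ := hA
  obtain ⟨Am1, hAm1⟩ := hAm
  obtain ⟨B1, hB1⟩ := hB
  obtain ⟨Bm1, hBm1⟩ := hBm
  obtain ⟨s1, hs1⟩ := hs'
  have hunit := unitA F (n := n) (b := b) hu
  refine cancel_congr h h' hunit ?_ ?_
  · refine ⟨(5 * A1 * a + A n' * a1 + 5 * B1 * b + 125 * B n' * b1) * s1, ?_⟩
    rw [hs1, pow_add]
    have e : A n * a + 125 * B n * b - (A n' * a' + 125 * B n' * b')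
        = 5 ^ E * (5 * A1 * a + A n' * a1 + 5 * B1 * b + 125 * B n' * b1) := by
      linear_combination a * hA1 + (A n') * ha1 + b * hB1 + (125 * B n') * hb1
    rw [e]
    ring
  · have e : 125 * (Am n * b - 125 * (n : ℤ_[5]) ^ 6 * Bm n * a)
        - 125 * (Am n' * b' - 125 * (n' : ℤ_[5]) ^ 6 * Bm n' * a')
        = 5 ^ (E + 3) * (5 * Am1 * b + Am n' * b1 - (5 * Bm1 * (n : ℤ_[5]) ^ 6 * a
          + 125 * Bm n' * n1 * a + 125 * Bm n' * (n' : ℤ_[5]) ^ 6 * a1)) := by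
      rw [pow_add]
      linear_combination (125 * b) * hAm1 + (125 * Am n') * hb1
        - (125 * (n : ℤ_[5]) ^ 6 * a) * hBm1 - (125 * 125 * Bm n' * a) * hn1
        - (125 * 125 * Bm n' * (n' : ℤ_[5]) ^ 6) * ha1
    rw [e]
    exact dvd_mul_of_dvd_left (pow_dvd_pow _ (by omega)) _

theorem lipN {e n n' : ℕ} {α α' b b' s s' : ℤ_[5]} (hn : n ≡ n' [MOD 5 ^ (e + 1)])
    (ha : (5 : ℤ_[5]) ^ (e + 1) ∣ 5 * α - 5 * α') (hb : (5 : ℤ_[5]) ^ (e + 1) ∣ b - b')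
    (hu : IsUnit α)
    (h : (A n * α + 25 * B n * b) * s
      = 25 * Am n * b - 125 * (n : ℤ_[5]) ^ 6 * (125 * Bm n) * α)
    (h' : (A n' * α' + 25 * B n' * b') * s'
      = 25 * Am n' * b' - 125 * (n' : ℤ_[5]) ^ 6 * (125 * Bm n') * α')
    (hs' : (25 : ℤ_[5]) ∣ s') : (5 : ℤ_[5]) ^ (e + 2) ∣ s - s' := by
  have hnn : (5 : ℤ_[5]) ^ (e + 1) ∣ (n : ℤ_[5]) ^ 6 - (n' : ℤ_[5]) ^ 6 := by
    refine dvd_trans ?_ (sub_dvd_pow_sub_pow _ _ _)
    have h1 : ((5 ^ (e + 1) : ℕ) : ℤ) ∣ (n' : ℤ) - n := hn.dvd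
    have h2 : ((5 ^ (e + 1) : ℕ) : ℤ) ∣ (n : ℤ) - n' := by
      rw [← dvd_neg, neg_sub]; exact h1
    have h3 := (Int.castRingHom ℤ_[5]).map_dvd h2
    simpa using h3
  have h5 : (5 : ℤ_[5]) ≠ 0 := by norm_num
  have hA := F.A2 (e + 1) n n' hn
  have hAm := F.Am2 (e + 1) n n' hn
  have hB := F.B2 (e + 1) n n' hn
  have hBm := F.Bm2 (e + 1) n n' hn
  obtain ⟨a1, ha1⟩ := ha
  have ha1' : α - α' = 5 ^ e * a1 := by
    apply mul_left_cancel₀ h5
    linear_combination ha1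
  obtain ⟨b1, hb1⟩ := hb
  obtain ⟨n1, hn1⟩ := hnn
  obtain ⟨A1, hA1⟩ := hA
  obtain ⟨Am1, hAm1⟩ := hAm
  obtain ⟨B1, hB1⟩ := hB
  have hB1' : 25 * (B n - B n') = 5 ^ (e + 1) * B1 := by
    apply mul_left_cancel₀ h5
    linear_combination hB1
  obtain ⟨Bm1, hBm1⟩ := hBm
  obtain ⟨s1, hs1⟩ := hs'
  have hunit := unitA' F (n := n) (b := b) hu
  refine cancel_congr h h' hunit ?_ ?_
  · refine ⟨(25 * A1 * α + A n' * a1 + 5 * B1 * b + 125 * B n' * b1) * s1, ?_⟩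
    rw [hs1]
    have e1 : A n * α + 25 * B n * b - (A n' * α' + 25 * B n' * b')
        = 5 ^ e * (25 * A1 * α + A n' * a1 + 5 * B1 * b + 125 * B n' * b1) := by
      linear_combination α * hA1 + (A n') * ha1' + b * hB1' + (25 * B n') * hb1
    rw [e1]
    ring
  · have e1 : 25 * Am n * b - 125 * (n : ℤ_[5]) ^ 6 * (125 * Bm n) * α
        - (25 * Am n' * b' - 125 * (n' : ℤ_[5]) ^ 6 * (125 * Bm n') * α')
        = 5 ^ (e + 2) * (25 * Am1 * b + 5 * Am n' * b1 - (125 * 5 ^ 0 * Bm1 * (n : ℤ_[5]) ^ 6 * α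
          + 25 * 125 * Bm n' * n1 * α + 5 * 125 * Bm n' * (n' : ℤ_[5]) ^ 6 * a1)) := by
      linear_combination (25 * b) * hAm1 + (25 * Am n') * hb1
        - (125 * (n : ℤ_[5]) ^ 6 * α) * hBm1 - (125 * 125 * Bm n' * α) * hn1
        - (125 * 125 * Bm n' * (n' : ℤ_[5]) ^ 6) * ha1'
    rw [e1]
    exact dvd_mul_right _ _

end rel


section fin
variable {u w A Am B Bm : ℕ → ℤ_[5]} (F : Frob u w A Am B Bm)
include F

theorem lip (s : ℕ → ℤ_[5]) (hs : ∀ y, Good y → w (5 * y) = s y * u (5 * y) ∧ (25 : ℤ_[5]) ∣ s y)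
    (e : ℕ) : ∀ y y' : ℕ, Good y → Good y' → y ≡ y' [MOD 5 ^ e] →
      (5 : ℤ_[5]) ^ (e + 1) ∣ s y - s y' := by
  induction e with
  | zero =>
    intro y y' hy hy' _
    have h1 := dvd_trans d5_25 (hs y hy).2
    have h2 := dvd_trans d5_25 (hs y' hy').2
    simpa using dvd_sub h1 h2
  | succ e ih =>
    intro y y' hy hy' hyy
    have hr : y % 5 = y' % 5 := by
      have : y ≡ y' [MOD 5] := hyy.of_dvd (dvd_pow_self 5 (by omega))
      exact this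
    have hz : y / 5 ≡ y' / 5 [MOD 5 ^ e] := by
      have h1 : 5 * (y / 5) + y % 5 ≡ 5 * (y' / 5) + y' % 5 [MOD 5 ^ (e + 1)] := by
        rw [Nat.div_add_mod, Nat.div_add_mod]; exact hyy
      rw [hr] at h1
      have h2 := Nat.ModEq.add_right_cancel' _ h1
      rw [pow_succ'] at h2
      exact Nat.ModEq.mul_left_cancel' (by norm_num) h2
    have hS := ih _ _ hy.div hy'.div hz
    have hX : (5 : ℤ_[5]) ^ (e + 1) ∣ 5 * ((y / 5 : ℕ) : ℤ_[5]) - 5 * ((y' / 5 : ℕ) : ℤ_[5]) := by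
      rw [← mul_sub, pow_succ']
      exact mul_dvd_mul_left _ (modeq_dvd hz)
    obtain ⟨hs1, hs1'⟩ := hs _ hy.div
    obtain ⟨hs2, hs2'⟩ := hs _ hy'.div
    have hx : (5 : ℤ_[5]) ∣ 5 * ((y / 5 : ℕ) : ℤ_[5]) := dvd_mul_right _ _
    have hx' : (5 : ℤ_[5]) ∣ 5 * ((y' / 5 : ℕ) : ℤ_[5]) := dvd_mul_right _ _
    obtain ⟨hu, hw⟩ := sa_spec F hs1 (y % 5) (by omega)
    obtain ⟨hu', hw'⟩ := sa_spec F hs2 (y' % 5) (by omega)
    rw [Nat.div_add_mod] at hu hw hu' hw'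
    rw [← hr] at hu' hw'
    obtain ⟨ca, cb⟩ := sa_congr_dvd hx hx' hX hS (y % 5) (by omega)
    have hκ := F.une (5 * (y / 5))
    have hκ' := F.une (5 * (y' / 5))
    obtain ⟨hy1, hy2⟩ := hs y hy
    obtain ⟨hy1', hy2'⟩ := hs y' hy'
    have hs5 : (5 : ℤ_[5]) ∣ s (y / 5) := dvd_trans d5_25 hs1'
    obtain ⟨-, -, -, -, -, -, m4⟩ := sa_mod hx hs5
    obtain ⟨⟨α1, e1, u1⟩, ⟨α3, e3, u3⟩⟩ := sa_five hs1' hy.div.mod
    obtain ⟨⟨α1', e1', -⟩, ⟨α3', e3', -⟩⟩ := sa_five hs2' hy'.div.mod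
    have hk25 : (5 : ℤ_[5]) ^ 2 ∣ s y' := by
      have : (5 : ℤ_[5]) ^ 2 = 25 := by norm_num
      rw [this]; exact hy2'
    have hcases : y % 5 = 0 ∨ y % 5 = 1 ∨ y % 5 = 3 ∨ y % 5 = 4 := by
      have := hy.mod
      omega
    rcases hcases with h | h | h | h
    · rw [h] at hu hw hu' hw' ca cb
      have := lipU F (by norm_num : 2 ≤ 3) hyy ca cb isUnit_one (relU F hκ hu hw hy1)
        (relU F hκ' hu' hw' hy1') hk25
      exact dvd_trans (pow_dvd_pow _ (by omega)) this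
    · rw [h] at hu hw hu' hw' ca cb
      rw [e1] at hu ca
      rw [e1'] at hu' ca
      exact lipN F hyy ca cb u1 (relN F hκ hu hw hy1) (relN F hκ' hu' hw' hy1') hy2'
    · rw [h] at hu hw hu' hw' ca cb
      rw [e3] at hu ca
      rw [e3'] at hu' ca
      exact lipN F hyy ca cb u3 (relN F hκ hu hw hy1) (relN F hκ' hu' hw' hy1') hy2'
    · rw [h] at hu hw hu' hw' ca cb
      have hun : IsUnit (sa (5 * ((y / 5 : ℕ) : ℤ_[5])) (s (y / 5)) 4).1 := by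
        rw [unit_iff', m4]; decide
      have := lipU F (by norm_num : 2 ≤ 3) hyy ca cb hun (relU F hκ hu hw hy1)
        (relU F hκ' hu' hw' hy1') hk25
      exact dvd_trans (pow_dvd_pow _ (by omega)) this

end fin

theorem Tgood.good {t : ℕ} (h : Tgood t) : Good (t / 5) := by
  intro i
  have := h.2 (i + 1) (by omega)
  rwa [pow_succ', ← Nat.div_div_eq_div_mul] at this

/-- the cubic -/
noncomputable def gg (n : ℤ_[5]) : ℤ_[5] := 1 + 27 * n + 255 * n ^ 2 + 850 * n ^ 3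

theorem h_unit (t : ℕ) : IsUnit ((5 * (t : ℤ_[5]) + 1) ^ 6) := by
  apply IsUnit.pow
  rw [unit_iff']
  have h5 : (5 : ZMod 5) = 0 := by decide
  simp only [map_add, map_mul, map_ofNat, map_natCast, map_one, h5]
  simp


theorem top {u w A Am B Bm : ℕ → ℤ_[5]} (F : Frob u w A Am B Bm) :
    ∃ φ ω : ℕ → ℤ_[5],
      (∀ t, Tgood t → u (5 * t + 1) = 25 * φ t * w (5 * t + 1) ∧ IsUnit (ω t) ∧
        w (5 * t + 1) = ω t * u t) ∧
      (∀ t t' : ℕ, Tgood t → Tgood t' → ∀ e, 1 ≤ e → t ≡ t' [MOD 5 ^ e] →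
        ∃ ε c : ℤ_[5], IsUnit ε ∧
          5 * (φ t - φ t') = ε * ((t : ℤ_[5]) - (t' : ℤ_[5])) + 5 ^ (e + 1) * c) := by
  classical
  have h5ne : (5 : ℤ_[5]) ≠ 0 := by norm_num
  have hz5 : (5 : ZMod 5) = 0 := by decide
  have hexs : ∀ y, ∃ s : ℤ_[5], Good y → w (5 * y) = s * u (5 * y) ∧ (25 : ℤ_[5]) ∣ s := by
    intro y
    by_cases hy : Good y
    · obtain ⟨s, hs⟩ := ex_s F y hy
      exact ⟨s, fun _ => hs⟩
    · exact ⟨0, fun h => absurd h hy⟩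
  choose s hs using hexs
  have hlip := lip F s hs
  -- data at `t = 5 y + 2`
  let a : ℕ → ℤ_[5] := fun t => (sa (5 * ((t / 5 : ℕ) : ℤ_[5])) (s (t / 5)) 2).1
  let b : ℕ → ℤ_[5] := fun t => (sa (5 * ((t / 5 : ℕ) : ℤ_[5])) (s (t / 5)) 2).2
  have hdat : ∀ t, Tgood t → IsUnit (a t) ∧ u t = a t * u (5 * (t / 5)) ∧
      w t = b t * u (5 * (t / 5)) := by
    intro t ht
    obtain ⟨h1, h2⟩ := hs (t / 5) (Tgood.good ht)
    obtain ⟨hu, hw⟩ := sa_spec F h1 2 (by norm_num)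
    have htt : 5 * (t / 5) + 2 = t := by
      have := Nat.div_add_mod t 5
      rw [ht.1] at this
      exact this
    rw [htt] at hu hw
    obtain ⟨-, -, m2, -⟩ := sa_mod (x := 5 * ((t / 5 : ℕ) : ℤ_[5])) (dvd_mul_right _ _)
      (dvd_trans d5_25 h2)
    refine ⟨?_, hu, hw⟩
    show IsUnit (sa (5 * ((t / 5 : ℕ) : ℤ_[5])) (s (t / 5)) 2).1
    rw [unit_iff', m2]; decide
  have hexS : ∀ t, ∃ S : ℤ_[5], Tgood t → w (5 * t) = S * u (5 * t) ∧ (125 : ℤ_[5]) ∣ S := by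
    intro t
    by_cases ht : Tgood t
    · obtain ⟨h1, h2, h3⟩ := hdat t ht
      obtain ⟨S, hS⟩ := exU F h1 h2 h3
      exact ⟨S, fun _ => hS⟩
    · exact ⟨0, fun h => absurd h ht⟩
  choose S hS using hexS
  have hLS : ∀ t t' : ℕ, Tgood t → Tgood t' → ∀ e, 1 ≤ e → t ≡ t' [MOD 5 ^ e] →
      (5 : ℤ_[5]) ^ (e + 3) ∣ S t - S t' := by
    intro t t' ht ht' e he htt
    obtain ⟨e, rfl⟩ : ∃ e', e = e' + 1 := ⟨e - 1, by omega⟩
    have hz : t / 5 ≡ t' / 5 [MOD 5 ^ e] := by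
      have h1 : 5 * (t / 5) + t % 5 ≡ 5 * (t' / 5) + t' % 5 [MOD 5 ^ (e + 1)] := by
        rw [Nat.div_add_mod, Nat.div_add_mod]; exact htt
      rw [ht.1, ht'.1] at h1
      have h2 := Nat.ModEq.add_right_cancel' _ h1
      rw [pow_succ'] at h2
      exact Nat.ModEq.mul_left_cancel' (by norm_num) h2
    have hS1 := hlip e _ _ (Tgood.good ht) (Tgood.good ht') hz
    have hX : (5 : ℤ_[5]) ^ (e + 1) ∣ 5 * ((t / 5 : ℕ) : ℤ_[5]) - 5 * ((t' / 5 : ℕ) : ℤ_[5]) := by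
      rw [← mul_sub, pow_succ']
      exact mul_dvd_mul_left _ (modeq_dvd hz)
    obtain ⟨ca, cb⟩ := sa_congr_dvd (dvd_mul_right _ _) (dvd_mul_right _ _) hX hS1 2 (by norm_num)
    obtain ⟨h1, h2, h3⟩ := hdat t ht
    obtain ⟨h1', h2', h3'⟩ := hdat t' ht'
    obtain ⟨p1, p2⟩ := hS t ht
    obtain ⟨p1', p2'⟩ := hS t' ht'
    have hk : (5 : ℤ_[5]) ^ 3 ∣ S t' := by
      have : (5 : ℤ_[5]) ^ 3 = 125 := by norm_num
      rw [this]; exact p2'
    exact lipU F (le_refl 3) htt ca cb h1 (relU F (F.une _) h2 h3 p1)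
      (relU F (F.une _) h2' h3' p1') hk
  -- the quotient by five
  have hexσ : ∀ t, ∃ σ : ℤ_[5], Tgood t → S t = 5 * σ ∧ (25 : ℤ_[5]) ∣ σ := by
    intro t
    by_cases ht : Tgood t
    · obtain ⟨q, hq⟩ := (hS t ht).2
      exact ⟨25 * q, fun _ => ⟨by rw [hq]; ring, dvd_mul_right _ _⟩⟩
    · exact ⟨0, fun h => absurd h ht⟩
  choose σ hσ using hexσ
  have hexτ : ∀ t, ∃ τ : ℤ_[5], Tgood t → gg t - σ t = 5 * τ := by
    intro t
    by_cases ht : Tgood t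
    · have h1 : (5 : ℤ_[5]) ∣ gg t - σ t := by
        apply dvd_sub
        · rw [dvd_iff, gg]
          have ht2 : (t : ZMod 5) = 2 := by
            have h2 := ht.1
            have h3 : (t : ZMod 5) = ((t % 5 : ℕ) : ZMod 5) := by simp
            rw [h3, h2]; rfl
          simp only [map_add, map_mul, map_pow, map_ofNat, map_natCast, map_one, ht2]
          decide
        · exact dvd_trans d5_25 (hσ t ht).2
      obtain ⟨τ, hτ⟩ := h1
      exact ⟨τ, fun _ => hτ⟩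
    · exact ⟨0, fun h => absurd h ht⟩
  choose τ hτ using hexτ
  refine ⟨fun t => τ t * Ring.inverse ((5 * (t : ℤ_[5]) + 1) ^ 6),
    fun t => (5 * (t : ℤ_[5]) + 1) ^ 3 * (A t + 125 * B t * (b t * Ring.inverse (a t))), ?_, ?_⟩
  · intro t ht
    obtain ⟨h1, h2, h3⟩ := hdat t ht
    obtain ⟨p1, p2⟩ := hS t ht
    obtain ⟨q1, q2⟩ := hσ t ht
    have r1 := hτ t ht
    have hinv := Ring.mul_inverse_cancel _ (h_unit t)
    have hainv := Ring.mul_inverse_cancel _ h1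
    have hcast : ((5 * t : ℕ) : ℤ_[5]) = 5 * t := by push_cast; ring
    have hw1 := F.wsucc (5 * t)
    rw [hcast] at hw1
    have hu1 := F.hrec (5 * t)
    rw [hcast, p1, q1] at hu1
    have hc3 : IsUnit ((5 * (t : ℤ_[5]) + 1) ^ 3) := by
      have := h_unit t
      have e6 : (5 * (t : ℤ_[5]) + 1) ^ 6 = (5 * (t : ℤ_[5]) + 1) ^ 3 * (5 * (t : ℤ_[5]) + 1) ^ 3 := by
        ring
      rw [e6] at this
      exact isUnit_of_mul_isUnit_left this
    refine ⟨?_, ?_, ?_⟩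
    · apply hc3.mul_left_cancel
      rw [hu1, hw1]
      have e1 : (2 * (5 * (t : ℤ_[5])) + 1) * (17 * (5 * (t : ℤ_[5])) ^ 2 + 17 * (5 * (t : ℤ_[5])) + 5)
          = 5 * gg t := by rw [gg]; ring
      rw [e1]
      linear_combination (5 * u (5 * t)) * r1 - (25 * τ t * u (5 * t)) * hinv
    · refine IsUnit.mul hc3 ?_
      rw [unit_iff']
      have hA1 := F.A1 t
      rw [dvd_iff, map_sub, map_one, sub_eq_zero] at hA1
      have h125 : (125 : ZMod 5) = 0 := by decide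
      simp only [map_add, map_mul, map_ofNat, hA1, h125]
      simp
    · rw [hw1, uform F h2 h3, h2]
      linear_combination (-(5 * (t : ℤ_[5]) + 1) ^ 3 * 125 * B t * b t * u (5 * (t / 5))) * hainv
  · intro t t' ht ht' e he htt
    have hinv := Ring.mul_inverse_cancel _ (h_unit t)
    have hinv' := Ring.mul_inverse_cancel _ (h_unit t')
    set H := Ring.inverse ((5 * (t : ℤ_[5]) + 1) ^ 6) with hH
    set H' := Ring.inverse ((5 * (t' : ℤ_[5]) + 1) ^ 6) with hH'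
    have r1 := hτ t ht
    have r1' := hτ t' ht'
    obtain ⟨q1, q2⟩ := hσ t ht
    obtain ⟨q1', q2'⟩ := hσ t' ht'
    obtain ⟨c1, hc1⟩ := hLS t t' ht ht' e he htt
    have hσσ : σ t - σ t' = 5 ^ (e + 2) * c1 := by
      apply mul_left_cancel₀ h5ne
      rw [q1, q1'] at hc1
      linear_combination hc1
    have htd : (5 : ℤ_[5]) ^ e ∣ (t : ℤ_[5]) - t' := by
      have h1 : ((5 ^ e : ℕ) : ℤ) ∣ (t' : ℤ) - t := htt.dvd
      have h2 : ((5 ^ e : ℕ) : ℤ) ∣ (t : ℤ) - t' := by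
        rw [← dvd_neg, neg_sub]; exact h1
      have h3 := (Int.castRingHom ℤ_[5]).map_dvd h2
      simpa using h3
    have hHH : (5 : ℤ_[5]) ^ (e + 1) ∣ H - H' := by
      refine cancel_congr hinv hinv' (h_unit t) ?_ (by simp)
      apply dvd_mul_of_dvd_left
      refine dvd_trans ?_ (sub_dvd_pow_sub_pow _ _ _)
      have e1 : 5 * (t : ℤ_[5]) + 1 - (5 * (t' : ℤ_[5]) + 1) = 5 * ((t : ℤ_[5]) - t') := by ring
      rw [e1, pow_succ']
      exact mul_dvd_mul_left _ htd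
    obtain ⟨c2, hc2⟩ := hHH
    refine ⟨(27 + 255 * ((t : ℤ_[5]) + t') + 850 * ((t : ℤ_[5]) ^ 2 + t * t' + (t' : ℤ_[5]) ^ 2)) * H,
      - 5 * c1 * H + (gg t' - σ t') * c2, ?_, ?_⟩
    · refine IsUnit.mul ?_ ?_
      · rw [unit_iff']
        have h27 : (27 : ZMod 5) = 2 := by decide
        have h255 : (255 : ZMod 5) = 0 := by decide
        have h850 : (850 : ZMod 5) = 0 := by decide
        simp only [map_add, map_mul, map_ofNat, h27, h255, h850]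
        simp only [zero_mul, add_zero]
        decide
      · exact isUnit_of_mul_isUnit_right (by rw [hinv]; exact isUnit_one)
    · have e1 : gg t - gg t' = (27 + 255 * ((t : ℤ_[5]) + t') +
          850 * ((t : ℤ_[5]) ^ 2 + t * t' + (t' : ℤ_[5]) ^ 2)) * ((t : ℤ_[5]) - t') := by
        rw [gg, gg]; ring
      show 5 * (τ t * H - τ t' * H') = _
      linear_combination (-H) * r1 + H' * r1' + H * e1 - H * hσσ + (gg t' - σ t') * hc2


end J10

end Pool.Agent.Helper468.Apery
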