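import Pool.Agent.Helper468.Apery.Base

set_option autoImplicit false

namespace Pool.Agent.Helper468.Apery

namespace J11

open Finset


section helpers

lemma prime5 : Prime (5 : ℤ_[5]) := by
  have := PadicInt.prime_p (p := 5)
  exact_mod_cast this

lemma unit_of_sub {x y : ℤ_[5]} (hx : IsUnit x) (h : (5 : ℤ_[5]) ∣ y - x) : IsUnit y := by
  have h1 : IsUnit (y + (x - y)) := by rw [add_sub_cancel]; exact hx
  rcases IsLocalRing.isUnit_or_isUnit_of_isUnit_add h1 with h2 | h2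
  · exact h2
  · exfalso
    have h3 : (5 : ℤ_[5]) ∣ x - y := by rw [← neg_sub]; exact (dvd_neg).2 h
    exact prime5.not_isUnit (isUnit_of_dvd_unit h3 h2)

lemma not_dvd_of_unit {x : ℤ_[5]} (hx : IsUnit x) : ¬ (5 : ℤ_[5]) ∣ x :=
  fun h => prime5.not_isUnit (isUnit_of_dvd_unit h hx)

lemma dvd_of_mul_unit {a x : ℤ_[5]} (ha : IsUnit a) (h : (5 : ℤ_[5]) ∣ x * a) :
    (5 : ℤ_[5]) ∣ x := by
  rcases prime5.dvd_or_dvd h with h | h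
  · exact h
  · exact absurd h (not_dvd_of_unit ha)

/-- `z = ε X + M c` with a unit `ε` -/
def UU (X M z : ℤ_[5]) : Prop := ∃ ε c : ℤ_[5], IsUnit ε ∧ z = ε * X + M * c

/-- `z = 5 t X + M c` -/
def VV (X M z : ℤ_[5]) : Prop := ∃ t c : ℤ_[5], z = 5 * t * X + M * c

lemma VV.of_dvd {X M z : ℤ_[5]} (h : M ∣ z) : VV X M z := by
  obtain ⟨c, rfl⟩ := h
  exact ⟨0, c, by ring⟩

lemma VV.add {X M z z' : ℤ_[5]} (h : VV X M z) (h' : VV X M z') : VV X M (z + z') := by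
  obtain ⟨t, c, rfl⟩ := h
  obtain ⟨t', c', rfl⟩ := h'
  exact ⟨t + t', c + c', by ring⟩

lemma VV.mul {X M z : ℤ_[5]} (a : ℤ_[5]) (h : VV X M z) : VV X M (a * z) := by
  obtain ⟨t, c, rfl⟩ := h
  exact ⟨a * t, a * c, by ring⟩

lemma VV.cancel {X M z a : ℤ_[5]} (ha : IsUnit a) (h : VV X M (a * z)) : VV X M z := by
  obtain ⟨b, hb⟩ := ha.exists_left_inv
  have := h.mul b
  rwa [← mul_assoc, hb, one_mul] at this

lemma UU.add_VV {X M z z' : ℤ_[5]} (h : UU X M z) (h' : VV X M z') : UU X M (z + z') := by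
  obtain ⟨ε, c, hε, rfl⟩ := h
  obtain ⟨t', c', rfl⟩ := h'
  exact ⟨ε + 5 * t', c + c', unit_of_sub hε ⟨t', by ring⟩, by ring⟩

lemma UU.mul {X M z a : ℤ_[5]} (ha : IsUnit a) (h : UU X M z) : UU X M (a * z) := by
  obtain ⟨ε, c, hε, rfl⟩ := h
  exact ⟨a * ε, a * c, ha.mul hε, by ring⟩

lemma UU.cancel {X M z a : ℤ_[5]} (ha : IsUnit a) (h : UU X M (a * z)) : UU X M z := by
  obtain ⟨b, hb⟩ := ha.exists_left_inv
  have hbu : IsUnit b := IsUnit.of_mul_eq_one a hb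
  have := h.mul hbu
  rwa [← mul_assoc, hb, one_mul] at this

lemma UU.self (X M : ℤ_[5]) : UU X M X := ⟨1, 0, isUnit_one, by ring⟩

lemma UU.trans {X M Y z : ℤ_[5]} (h : UU X M Y) (h' : UU Y M z) : UU X M z := by
  obtain ⟨ε, c, hε, rfl⟩ := h
  obtain ⟨ε', c', hε', rfl⟩ := h'
  exact ⟨ε' * ε, ε' * c + c', hε'.mul hε, by ring⟩

/-- difference of powers -/
lemma dvd_pow_sub {M x y : ℤ_[5]} (h : M ∣ x - y) (k : ℕ) : M ∣ x ^ k - y ^ k :=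
  h.trans (sub_dvd_pow_sub_pow x y k)

/-! ### the functions -/

/-- `P(5x) = 5 g(x)` -/
noncomputable def gg (x : ℤ_[5]) : ℤ_[5] := 1 + 27 * x + 255 * x ^ 2 + 850 * x ^ 3
/-- the polynomial `P` -/
noncomputable def PP (x : ℤ_[5]) : ℤ_[5] := (2 * x + 1) * (17 * x ^ 2 + 17 * x + 5)
/-- `P(5x+2) = 5 p2(x)` -/
noncomputable def p2 (x : ℤ_[5]) : ℤ_[5] := (2 * x + 1) * (425 * x ^ 2 + 425 * x + 107)
/-- the cubes -/
noncomputable def cc (i x : ℤ_[5]) : ℤ_[5] := (5 * x + i) ^ 3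

lemma six_unit : IsUnit ((2 : ℤ_[5]) * 3) :=
  unit_of_sub isUnit_one ⟨1, by norm_num⟩

lemma two_unit : IsUnit (2 : ℤ_[5]) := isUnit_of_mul_isUnit_left six_unit

lemma three_unit : IsUnit (3 : ℤ_[5]) := isUnit_of_mul_isUnit_right six_unit

lemma cc_unit {i : ℤ_[5]} (hi : IsUnit i) (x : ℤ_[5]) : IsUnit (cc i x) :=
  (unit_of_sub hi ⟨x, by ring⟩ : IsUnit (5 * x + i)).pow 3

/-- `κ` -/
noncomputable def kap (A B : ℕ → ℤ_[5]) (n : ℕ) (φ : ℤ_[5]) : ℤ_[5] := A n * φ + 5 * B n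

/-- numerator of `ψ` -/
noncomputable def num (Am Bm : ℕ → ℤ_[5]) (n : ℕ) (φ : ℤ_[5]) : ℤ_[5] := Am n - 3125 * (n : ℤ_[5]) ^ 6 * Bm n * φ

/-- `ψ` -/
noncomputable def psi (A Am B Bm : ℕ → ℤ_[5]) (n : ℕ) (φ : ℤ_[5]) : ℤ_[5] :=
  num Am Bm n φ * Ring.inverse (kap A B n φ)

/-- `g - ψ` -/
noncomputable def hh (A Am B Bm : ℕ → ℤ_[5]) (n : ℕ) (φ : ℤ_[5]) : ℤ_[5] :=
  gg n - psi A Am B Bm n φ

/-- `u(5n+2)/u(5n)` -/
noncomputable def u2 (A Am B Bm : ℕ → ℤ_[5]) (n : ℕ) (φ : ℤ_[5]) : ℤ_[5] :=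
  (5 * PP (5 * n + 1) * hh A Am B Bm n φ - cc 1 n ^ 2) * Ring.inverse (cc 1 n * cc 2 n)

/-- first function -/
noncomputable def LL1 (A Am B Bm : ℕ → ℤ_[5]) (n : ℕ) (φ : ℤ_[5]) : ℤ_[5] :=
  hh A Am B Bm n φ * Ring.inverse (cc 1 n ^ 2)

/-- auxiliary quotient -/
noncomputable def qq (A Am B Bm : ℕ → ℤ_[5]) (n : ℕ) (φ : ℤ_[5]) : ℤ_[5] :=
  cc 2 n * hh A Am B Bm n φ * Ring.inverse (cc 1 n)

/-- third function -/
noncomputable def LL3 (A Am B Bm : ℕ → ℤ_[5]) (n : ℕ) (φ : ℤ_[5]) : ℤ_[5] :=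
  (p2 n * u2 A Am B Bm n φ - qq A Am B Bm n φ) *
    Ring.inverse (cc 3 n ^ 2 * u2 A Am B Bm n φ)

lemma div_spec {a b : ℤ_[5]} (hb : IsUnit b) : (a * Ring.inverse b) * b = a := by
  rw [mul_assoc, Ring.inverse_mul_cancel b hb, mul_one]

/-- all the relations between the functions -/
structure Rel (A Am B Bm : ℕ → ℤ_[5]) (n : ℕ) (φ κ ψ h u2 q L1 L3 : ℤ_[5]) : Prop where
  eκ : κ = A n * φ + 5 * B n
  hκ : IsUnit κ
  eψ : ψ * κ = Am n - 3125 * (n : ℤ_[5]) ^ 6 * Bm n * φ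
  hψ : IsUnit ψ
  eh : h = gg n - ψ
  eu : u2 * (cc 1 n * cc 2 n) = 5 * PP (5 * n + 1) * h - cc 1 n ^ 2
  hu : IsUnit u2
  e1 : L1 * cc 1 n ^ 2 = h
  eq : q * cc 1 n = cc 2 n * h
  e3 : L3 * (cc 3 n ^ 2 * u2) = p2 n * u2 - q

variable {u w A Am B Bm : ℕ → ℤ_[5]}

lemma A_unit (F : Frob u w A Am B Bm) (n : ℕ) : IsUnit (A n) := unit_of_sub isUnit_one (F.A1 n)
lemma Am_unit (F : Frob u w A Am B Bm) (n : ℕ) : IsUnit (Am n) := unit_of_sub isUnit_one (F.Am1 n)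

lemma rel (F : Frob u w A Am B Bm) (n : ℕ) {φ : ℤ_[5]} (hφ : IsUnit φ) :
    Rel A Am B Bm n φ (kap A B n φ) (psi A Am B Bm n φ) (hh A Am B Bm n φ) (u2 A Am B Bm n φ)
      (qq A Am B Bm n φ) (LL1 A Am B Bm n φ) (LL3 A Am B Bm n φ) := by
  have c1 := cc_unit isUnit_one (n : ℤ_[5])
  have c2 := cc_unit two_unit (n : ℤ_[5])
  have c3 := cc_unit three_unit (n : ℤ_[5])
  have hκ : IsUnit (kap A B n φ) :=
    unit_of_sub ((A_unit F n).mul hφ) ⟨B n, by rw [kap]; ring⟩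
  have hnum : IsUnit (num Am Bm n φ) :=
    unit_of_sub (Am_unit F n) ⟨-(625 * (n : ℤ_[5]) ^ 6 * Bm n * φ), by rw [num]; ring⟩
  have hψe : psi A Am B Bm n φ * kap A B n φ = num Am Bm n φ := div_spec hκ
  have hψ : IsUnit (psi A Am B Bm n φ) := by
    rw [← hψe] at hnum
    exact isUnit_of_mul_isUnit_left hnum
  have heu : u2 A Am B Bm n φ * (cc 1 n * cc 2 n) =
      5 * PP (5 * n + 1) * hh A Am B Bm n φ - cc 1 n ^ 2 := div_spec (c1.mul c2)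
  have hu : IsUnit (u2 A Am B Bm n φ) := by
    have h1 : IsUnit (u2 A Am B Bm n φ * (cc 1 n * cc 2 n)) := by
      rw [heu]
      exact unit_of_sub (c1.pow 2).neg ⟨PP (5 * n + 1) * hh A Am B Bm n φ, by ring⟩
    exact isUnit_of_mul_isUnit_left h1
  exact ⟨rfl, hκ, hψe, hψ, rfl, heu, hu, div_spec (c1.pow 2), div_spec c1,
    div_spec ((c3.pow 2).mul hu)⟩

lemma part1 (F : Frob u w A Am B Bm) {n : ℕ} {φ κ ψ h u2 q L1 L3 : ℤ_[5]}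
    (R : Rel A Am B Bm n φ κ ψ h u2 q L1 L3) (hu : u n = 25 * φ * w n) :
    (u (5 * n + 1) = 5 * L1 * w (5 * n + 1) ∧ w (5 * n + 1) = 25 * (cc 1 n * κ) * w n) ∧
    (u (5 * n + 3) = 5 * L3 * w (5 * n + 3) ∧ w (5 * n + 3) = 25 * (cc 3 n * κ * u2) * w n) := by
  have c1 := (cc_unit isUnit_one (n : ℤ_[5])).ne_zero
  have c2 := (cc_unit two_unit (n : ℤ_[5])).ne_zero
  have c3 := (cc_unit three_unit (n : ℤ_[5])).ne_zero
  have h1 : u (5 * n) = 25 * w n * κ := by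
    rw [F.F1, hu, R.eκ]; ring
  have h2 : w (5 * n) = 25 * w n * κ * (5 * ψ) := by
    rw [F.F2, hu]
    linear_combination (-(125 * w n)) * R.eψ
  have h3 : w (5 * n + 1) = cc 1 n * (25 * w n * κ) := by
    rw [F.wsucc, h1, cc]; push_cast; ring
  have h4 : cc 1 n * u (5 * n + 1) = 25 * w n * κ * (5 * h) := by
    have := F.hrec (5 * n)
    rw [h1, h2] at this
    push_cast at this
    rw [cc, R.eh, gg]
    linear_combination this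
  have h5 : cc 2 n * u (5 * n + 2) = PP (5 * n + 1) * u (5 * n + 1) - w (5 * n + 1) := by
    have := F.hrec (5 * n + 1)
    push_cast at this
    rw [cc, PP]
    linear_combination this
  have h6 : u (5 * n + 2) = 25 * w n * κ * u2 := by
    refine mul_left_cancel₀ (mul_ne_zero c1 c2) ?_
    rw [h3] at h5
    linear_combination (cc 1 (n : ℤ_[5])) * h5 + PP (5 * n + 1) * h4 - 25 * w n * κ * R.eu
  have h7 : w (5 * n + 2) = 25 * w n * κ * (5 * q) := by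
    refine mul_left_cancel₀ c1 ?_
    have : w (5 * n + 2) = cc 2 n * u (5 * n + 1) := by
      rw [F.wsucc (5 * n + 1), cc]; push_cast; ring
    rw [this]
    linear_combination (cc 2 (n : ℤ_[5])) * h4 - 125 * w n * κ * R.eq
  have h8 : cc 3 n * u (5 * n + 3) = 25 * w n * κ * (5 * (p2 n * u2 - q)) := by
    have := F.hrec (5 * n + 2)
    rw [h6, h7] at this
    push_cast at this
    rw [cc, p2]
    linear_combination this
  have h9 : w (5 * n + 3) = cc 3 n * (25 * w n * κ * u2) := by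
    rw [F.wsucc (5 * n + 2), h6, cc]; push_cast; ring
  refine ⟨⟨?_, ?_⟩, ?_, ?_⟩
  · refine mul_left_cancel₀ c1 ?_
    rw [h4, h3]
    linear_combination (-(125 * w n * κ)) * R.e1
  · rw [h3]; ring
  · refine mul_left_cancel₀ c3 ?_
    rw [h8, h9]
    linear_combination (-(125 * w n * κ)) * R.e3
  · rw [h9]; ring

lemma part2 (F : Frob u w A Am B Bm) {n n' a : ℕ} (ha : 1 ≤ a) (hn : n ≡ n' [MOD 5 ^ a])
    {φ κ ψ h u2 q L1 L3 φ' κ' ψ' h' u2' q' L1' L3' : ℤ_[5]}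
    (R : Rel A Am B Bm n φ κ ψ h u2 q L1 L3) (R' : Rel A Am B Bm n' φ' κ' ψ' h' u2' q' L1' L3') :
    UU (φ - φ') (5 ^ (a - 1)) (L1 - L1') ∧ UU (φ - φ') (5 ^ (a - 1)) (L3 - L3') := by
  set M : ℤ_[5] := 5 ^ (a - 1) with hM
  obtain ⟨b, rfl⟩ : ∃ b, a = b + 1 := ⟨a - 1, by omega⟩
  rw [Nat.add_sub_cancel] at hM
  have hx : M ∣ (n : ℤ_[5]) - n' := by
    have h1 : ((5 ^ (b + 1) : ℕ) : ℤ) ∣ (n : ℤ) - n' := by
      exact (Nat.modEq_iff_dvd.1 hn.symm)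
    have h2 : ((5 : ℤ_[5]) ^ (b + 1)) ∣ (n : ℤ_[5]) - n' := by
      obtain ⟨c, hc⟩ := h1
      refine ⟨(c : ℤ_[5]), ?_⟩
      have := congrArg (fun z : ℤ => (z : ℤ_[5])) hc
      push_cast at this
      exact this
    exact (pow_dvd_pow 5 (Nat.le_succ b)).trans h2
  have hA : M ∣ A n - A n' := (pow_dvd_pow 5 (by omega)).trans (F.A2 (b + 1) n n' hn)
  have hAm : M ∣ Am n - Am n' := (pow_dvd_pow 5 (by omega)).trans (F.Am2 (b + 1) n n' hn)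
  have hB : M ∣ 5 * (B n - B n') := by
    obtain ⟨c, hc⟩ := F.B2 (b + 1) n n' hn
    refine ⟨c, ?_⟩
    have h25 : (25 : ℤ_[5]) ≠ 0 := by norm_num
    refine mul_left_cancel₀ h25 ?_
    rw [hM]
    have e : (5 : ℤ_[5]) ^ (b + 1 + 1) = 25 * 5 ^ b := by ring
    rw [e] at hc
    linear_combination hc
  have hBm : M ∣ 3125 * (Bm n - Bm n') := by
    obtain ⟨c, hc⟩ := F.Bm2 (b + 1) n n' hn
    refine ⟨5 ^ 2 * (25 * c), ?_⟩
    have e : (5 : ℤ_[5]) ^ (b + 1 + 1) = 25 * 5 ^ b := by ring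
    rw [e] at hc
    rw [hM]
    linear_combination 25 * hc
  -- differences of the elementary functions
  have hg : M ∣ gg n - gg n' := by
    have e : gg (n : ℤ_[5]) - gg n' = ((n : ℤ_[5]) - n') * (27 + 255 * ((n : ℤ_[5]) + n') +
        850 * ((n : ℤ_[5]) ^ 2 + n * n' + n' ^ 2)) := by
      rw [gg, gg]; ring
    rw [e]; exact hx.mul_right _
  have hc : ∀ i : ℤ_[5], M ∣ cc i n - cc i n' := by
    intro i
    have e : cc i (n : ℤ_[5]) - cc i n' = ((n : ℤ_[5]) - n') * (5 * ((5 * (n : ℤ_[5]) + i) ^ 2 +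
        (5 * (n : ℤ_[5]) + i) * (5 * n' + i) + (5 * (n' : ℤ_[5]) + i) ^ 2)) := by
      rw [cc, cc]; ring
    rw [e]; exact hx.mul_right _
  have hp : M ∣ p2 n - p2 n' := by
    have e : p2 (n : ℤ_[5]) - p2 n' = ((n : ℤ_[5]) - n') * (850 * ((n : ℤ_[5]) ^ 2 + n * n' + n' ^ 2)
        + 1275 * ((n : ℤ_[5]) + n') + 639) := by
      rw [p2, p2]; ring
    rw [e]; exact hx.mul_right _
  have hP : M ∣ PP (5 * n + 1) - PP (5 * n' + 1) := by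
    have e : PP (5 * (n : ℤ_[5]) + 1) - PP (5 * n' + 1) = ((n : ℤ_[5]) - n') *
        (5 * (34 * ((5 * (n : ℤ_[5]) + 1) ^ 2 + (5 * (n : ℤ_[5]) + 1) * (5 * n' + 1) +
          (5 * (n' : ℤ_[5]) + 1) ^ 2) + 51 * ((5 * (n : ℤ_[5]) + 1) + (5 * n' + 1)) + 27)) := by
      rw [PP, PP]; ring
    rw [e]; exact hx.mul_right _
  have c1 := cc_unit isUnit_one (n : ℤ_[5])
  have c2 := cc_unit two_unit (n : ℤ_[5])
  have c3 := cc_unit three_unit (n : ℤ_[5])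
  -- difference of `ψ`
  have hψ : UU (φ - φ') M (ψ - ψ') := by
    obtain ⟨a1, ha1⟩ := hA
    obtain ⟨a2, ha2⟩ := hAm
    obtain ⟨a3, ha3⟩ := hB
    obtain ⟨a4, ha4⟩ := hBm
    obtain ⟨a5, ha5⟩ := dvd_pow_sub hx 6
    refine UU.cancel R.hκ ⟨-(ψ' * A n + 3125 * (n : ℤ_[5]) ^ 6 * Bm n),
      a2 - (n : ℤ_[5]) ^ 6 * φ' * a4 - 3125 * Bm n' * φ' * a5 - ψ' * φ' * a1 - ψ' * a3, ?_, ?_⟩
    · refine (unit_of_sub (R'.hψ.mul (A_unit F n)) ⟨625 * (n : ℤ_[5]) ^ 6 * Bm n, by ring⟩).neg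
    · have e1 := R.eψ
      have e2 := R'.eψ
      rw [R.eκ] at e1 ⊢
      rw [R'.eκ] at e2
      linear_combination e1 - e2 + ha2 - (n : ℤ_[5]) ^ 6 * φ' * ha4 - 3125 * Bm n' * φ' * ha5
        - ψ' * φ' * ha1 - ψ' * ha3
  set Y := ψ - ψ' with hY
  -- difference of `h`
  have hhd : h - h' = -Y + (gg n - gg n') := by rw [R.eh, R'.eh, hY]; ring
  have hh5 : VV Y M (5 * (h - h')) := by
    rw [hhd]
    obtain ⟨c, hc⟩ := hg
    exact ⟨-1, 5 * c, by rw [hc]; ring⟩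
  constructor
  · refine hψ.trans (UU.cancel (c1.pow 2) ?_)
    have e : cc 1 (n : ℤ_[5]) ^ 2 * (L1 - L1') = (-1) * Y +
        ((gg n - gg n') + (-(L1' * (cc 1 (n : ℤ_[5]) ^ 2 - cc 1 (n' : ℤ_[5]) ^ 2)))) := by
      have e1 := R.e1
      have e2 := R'.e1
      linear_combination e1 - e2 + hhd
    rw [e]
    refine ((UU.self Y M).mul isUnit_one.neg).add_VV (VV.of_dvd ?_)
    exact dvd_add hg ((dvd_neg).2 ((dvd_pow_sub (hc 1) 2).mul_left _))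
  · -- difference of `u2`
    have hu2 : VV Y M (u2 - u2') := by
      refine VV.cancel (c1.mul c2) ?_
      have e : cc 1 (n : ℤ_[5]) * cc 2 n * (u2 - u2') = PP (5 * n + 1) * (5 * (h - h')) +
          (5 * h' * (PP (5 * n + 1) - PP (5 * n' + 1)) +
          (-(cc 1 (n : ℤ_[5]) ^ 2 - cc 1 (n' : ℤ_[5]) ^ 2) +
          (-(u2' * (cc 1 (n : ℤ_[5]) * (cc 2 n - cc 2 n') + cc 2 n' * (cc 1 n - cc 1 n')))))) := by
        have e1 := R.eu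
        have e2 := R'.eu
        linear_combination e1 - e2
      rw [e]
      refine (hh5.mul _).add (VV.of_dvd ?_)
      refine dvd_add (hP.mul_left _) (dvd_add ((dvd_neg).2 (dvd_pow_sub (hc 1) 2)) ((dvd_neg).2 ?_))
      exact (dvd_add ((hc 2).mul_left _) ((hc 1).mul_left _)).mul_left _
    -- difference of `q`
    have hq : UU Y M (-(q - q')) := by
      refine UU.cancel c1 ?_
      have e : cc 1 (n : ℤ_[5]) * (-(q - q')) = cc 2 n * Y + (-(cc 2 (n : ℤ_[5]) * (gg n - gg n')) +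
          (-(h' * (cc 2 n - cc 2 n')) + q' * (cc 1 n - cc 1 n'))) := by
        have e1 := R.eq
        have e2 := R'.eq
        linear_combination -e1 + e2 - cc 2 (n : ℤ_[5]) * hhd
      rw [e]
      refine ((UU.self Y M).mul c2).add_VV (VV.of_dvd ?_)
      refine dvd_add ((dvd_neg).2 (hg.mul_left _)) (dvd_add ((dvd_neg).2 ((hc 2).mul_left _))
        ((hc 1).mul_left _))
    refine hψ.trans (UU.cancel ((c3.pow 2).mul R.hu) ?_)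
    have e : cc 3 (n : ℤ_[5]) ^ 2 * u2 * (L3 - L3') = -(q - q') + (p2 n * (u2 - u2') +
        ((u2' * (p2 n - p2 n') + (-(L3' * u2' * (cc 3 (n : ℤ_[5]) ^ 2 - cc 3 (n' : ℤ_[5]) ^ 2)))) +
        (-(L3' * cc 3 (n : ℤ_[5]) ^ 2)) * (u2 - u2'))) := by
      have e1 := R.e3
      have e2 := R'.e3
      linear_combination e1 - e2
    rw [e]
    refine hq.add_VV ((hu2.mul _).add ((VV.of_dvd ?_).add (hu2.mul _)))
    exact dvd_add (hp.mul_left _) ((dvd_neg).2 ((dvd_pow_sub (hc 3) 2).mul_left _))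

lemma part3 (F : Frob u w A Am B Bm) {n : ℕ} (hn : n % 5 = 1 ∨ n % 5 = 3)
    {φ κ ψ h u2 q L1 L3 : ℤ_[5]} (hφ : IsUnit φ) (h2 : (5 : ℤ_[5]) ∣ φ ^ 2 + 1)
    (R : Rel A Am B Bm n φ κ ψ h u2 q L1 L3) : (5 : ℤ_[5]) ∣ L1 ∨ (5 : ℤ_[5]) ∣ L3 := by
  have c1 := cc_unit isUnit_one (n : ℤ_[5])
  have c2 := cc_unit two_unit (n : ℤ_[5])
  have c3 := cc_unit three_unit (n : ℤ_[5])
  -- `ψ φ = 1`
  obtain ⟨a1, ha1⟩ := F.A1 n
  obtain ⟨a2, ha2⟩ := F.Am1 n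
  obtain ⟨a3, ha3⟩ := h2
  have hψφ : (5 : ℤ_[5]) ∣ ψ * φ - 1 := by
    refine ⟨a2 - 625 * (n : ℤ_[5]) ^ 6 * Bm n * φ - ψ * φ * a1 - ψ * B n, ?_⟩
    have e1 := R.eψ
    rw [R.eκ] at e1
    linear_combination e1 + ha2 - ψ * φ * ha1
  have hψ2 : (5 : ℤ_[5]) ∣ ψ ^ 2 + 1 := by
    obtain ⟨a4, ha4⟩ := hψφ
    refine dvd_of_mul_unit (hφ.pow 2) ⟨(ψ * φ + 1) * a4 + a3, ?_⟩
    linear_combination (ψ * φ + 1) * ha4 + ha3
  have hx : (5 : ℤ_[5]) ∣ (n : ℤ_[5]) - 1 ∨ (5 : ℤ_[5]) ∣ (n : ℤ_[5]) - 3 := by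
    rcases hn with h | h
    · left
      obtain ⟨k, hk⟩ : ∃ k, n = 5 * k + 1 := ⟨n / 5, by omega⟩
      exact ⟨k, by rw [hk]; push_cast; ring⟩
    · right
      obtain ⟨k, hk⟩ : ∃ k, n = 5 * k + 3 := ⟨n / 5, by omega⟩
      exact ⟨k, by rw [hk]; push_cast; ring⟩
  have hg2 : (5 : ℤ_[5]) ∣ (1 + 2 * (n : ℤ_[5])) ^ 2 + 1 := by
    rcases hx with ⟨k, hk⟩ | ⟨k, hk⟩
    · have : (n : ℤ_[5]) = 5 * k + 1 := by linear_combination hk
      exact ⟨20 * k ^ 2 + 12 * k + 2, by rw [this]; ring⟩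
    · have : (n : ℤ_[5]) = 5 * k + 3 := by linear_combination hk
      exact ⟨20 * k ^ 2 + 28 * k + 10, by rw [this]; ring⟩
  have hprod : (5 : ℤ_[5]) ∣ (gg n - ψ) * (gg n + ψ) := by
    obtain ⟨a5, ha5⟩ := hψ2
    obtain ⟨a6, ha6⟩ := hg2
    refine ⟨a6 - a5 + (5 * (n : ℤ_[5]) + 51 * (n : ℤ_[5]) ^ 2 + 170 * (n : ℤ_[5]) ^ 3) *
      (gg n + (1 + 2 * (n : ℤ_[5]))), ?_⟩
    rw [gg]
    linear_combination ha6 - ha5
  rcases prime5.dvd_or_dvd hprod with hd | hd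
  · left
    refine dvd_of_mul_unit (c1.pow 2) ?_
    rw [R.e1, R.eh]
    exact hd
  · right
    refine dvd_of_mul_unit ((c3.pow 2).mul R.hu) ?_
    rw [R.e3]
    -- multiply by `c1^2 c2`
    refine dvd_of_mul_unit (c1.mul (c1.mul c2)) ?_
    obtain ⟨a7, ha7⟩ := hd
    have e1 := R.eu
    have e2 := R.eq
    have e3 := R.eh
    have e4 : (p2 n * u2 - q) * (cc 1 n * (cc 1 n * cc 2 n)) =
        p2 n * cc 1 n * (5 * PP (5 * n + 1) * h - cc 1 n ^ 2) - cc 1 n * cc 2 n * (cc 2 n * h) := by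
      linear_combination p2 (n : ℤ_[5]) * cc 1 n * e1 - cc 1 (n : ℤ_[5]) * cc 2 n * e2
    rw [e4]
    obtain ⟨b1, hb1⟩ : (5 : ℤ_[5]) ∣ cc 1 n - 1 :=
      ⟨25 * (n : ℤ_[5]) ^ 3 + 15 * (n : ℤ_[5]) ^ 2 + 3 * n, by rw [cc]; ring⟩
    obtain ⟨b2, hb2⟩ : (5 : ℤ_[5]) ∣ cc 2 n - 3 :=
      ⟨25 * (n : ℤ_[5]) ^ 3 + 30 * (n : ℤ_[5]) ^ 2 + 12 * n + 1, by rw [cc]; ring⟩
    obtain ⟨b3, hb3⟩ : (5 : ℤ_[5]) ∣ p2 n - 2 * gg n :=
      ⟨-170 * (n : ℤ_[5]) ^ 3 + 153 * (n : ℤ_[5]) ^ 2 + 117 * n + 21, by rw [p2, gg]; ring⟩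
    have e5 : cc 1 (n : ℤ_[5]) = 5 * b1 + 1 := by linear_combination hb1
    have e6 : cc 2 (n : ℤ_[5]) = 5 * b2 + 3 := by linear_combination hb2
    have e7 : p2 (n : ℤ_[5]) = 5 * b3 + 2 * gg n := by linear_combination hb3
    have e8 : ψ = 5 * a7 - gg n := by linear_combination ha7
    rw [e5, e6, e7, e3, e8]
    generalize gg (n : ℤ_[5]) = g
    generalize PP (5 * (n : ℤ_[5]) + 1) = P
    exact ⟨(5 * b3 + 2 * g) * (5 * b1 + 1) * P * (2 * g - 5 * a7) - b3 * (5 * b1 + 1) ^ 3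
      - 2 * g * (25 * b1 ^ 3 + 15 * b1 ^ 2 + 3 * b1) - 4 * g + 9 * a7
      - (b1 * (5 * b2 + 3) ^ 2 + (5 * b2 ^ 2 + 6 * b2)) * (2 * g - 5 * a7), by ring⟩

end helpers

theorem step {u w A Am B Bm : ℕ → ℤ_[5]} (F : Frob u w A Am B Bm) :
    ∃ Λ : ℕ → ℕ → ℤ_[5] → ℤ_[5],
      (∀ (r n : ℕ) (φ : ℤ_[5]), (r = 1 ∨ r = 3) → (n % 5 = 1 ∨ n % 5 = 3) → IsUnit φ →
        u n = 25 * φ * w n →
        u (5 * n + r) = 5 * Λ r n φ * w (5 * n + r) ∧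
          ∃ ω : ℤ_[5], IsUnit ω ∧ w (5 * n + r) = 25 * ω * w n) ∧
      (∀ (r n n' : ℕ) (φ φ' : ℤ_[5]) (a : ℕ), (r = 1 ∨ r = 3) → (n % 5 = 1 ∨ n % 5 = 3) →
        (n' % 5 = 1 ∨ n' % 5 = 3) → IsUnit φ → IsUnit φ' → 1 ≤ a → n ≡ n' [MOD 5 ^ a] →
        ∃ ε c : ℤ_[5], IsUnit ε ∧ Λ r n φ - Λ r n' φ' = ε * (φ - φ') + 5 ^ (a - 1) * c) ∧
      (∀ (n : ℕ) (φ : ℤ_[5]), (n % 5 = 1 ∨ n % 5 = 3) → IsUnit φ → (5 : ℤ_[5]) ∣ φ ^ 2 + 1 →
        (5 : ℤ_[5]) ∣ Λ 1 n φ ∨ (5 : ℤ_[5]) ∣ Λ 3 n φ) := by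
  refine ⟨fun r n φ => if r = 1 then LL1 A Am B Bm n φ else LL3 A Am B Bm n φ, ?_, ?_, ?_⟩
  · intro r n φ hr _ hφ hu
    have R := rel F n hφ
    obtain ⟨⟨p1, p2'⟩, p3, p4⟩ := part1 F R hu
    rcases hr with rfl | rfl
    · exact ⟨p1, _, (cc_unit isUnit_one _).mul R.hκ, p2'⟩
    · exact ⟨p3, _, ((cc_unit three_unit _).mul R.hκ).mul R.hu, p4⟩
  · intro r n n' φ φ' a hr _ _ hφ hφ' ha hnn
    have R := rel F n hφ
    have R' := rel F n' hφ'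
    obtain ⟨p1, p2'⟩ := part2 F ha hnn R R'
    rcases hr with rfl | rfl
    · simp only [if_pos]
      exact p1
    · simp only [show ¬ ((3 : ℕ) = 1) by norm_num, if_false]
      exact p2'
  · intro n φ hn hφ h2
    have := part3 F hn hφ h2 (rel F n hφ)
    simpa using this


end J11

end Pool.Agent.Helper468.Apery
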