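import Pool.Agent.Helper468.Apery.Base

set_option autoImplicit false

namespace Pool.Agent.Helper468.Apery

namespace J13

open Finset


theorem unit_iff_toZMod (x : ℤ_[5]) : IsUnit x ↔ (PadicInt.toZMod : ℤ_[5] →+* ZMod 5) x ≠ 0 := by
  rw [Ne, ← RingHom.mem_ker, PadicInt.ker_toZMod, IsLocalRing.mem_maximalIdeal, mem_nonunits_iff,
    not_not]

theorem Rstep {u w A Am B Bm : ℕ → ℤ_[5]} (F : Frob u w A Am B Bm) (n r : ℕ) (hn : n % 5 ≠ 2)
    (hr : r = 1 ∨ r = 3) (h : IsR u w n) :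
    IsR u w (5 * n + r) ∧ ∃ ω : ℤ_[5], IsUnit ω ∧ u (5 * n + r) = 5 * ω * u n := by
  obtain ⟨c, hc⟩ := h
  obtain ⟨φ, hφ⟩ : ∃ φ : ℤ_[5] →+* ZMod 5, ∀ x, IsUnit x ↔ φ x ≠ 0 :=
    ⟨PadicInt.toZMod, unit_iff_toZMod⟩
  have h5 : φ 5 = 0 := by rw [map_ofNat]; rfl
  have hfive : (5 : ℤ_[5]) ≠ 0 := by norm_num
  have hNφ : φ (n : ℤ_[5]) = (n : ZMod 5) := map_natCast φ n
  have hnz : (1 + 2 * (n : ZMod 5)) ≠ 0 := by
    have h1 : (n : ZMod 5) = ((n % 5 : ℕ) : ZMod 5) := (ZMod.natCast_mod n 5).symm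
    rw [h1]
    have h2 : n % 5 < 5 := Nat.mod_lt _ (by norm_num)
    have h3 : n % 5 = 0 ∨ n % 5 = 1 ∨ n % 5 = 3 ∨ n % 5 = 4 := by omega
    rcases h3 with h | h | h | h <;> rw [h] <;> decide
  obtain ⟨a, ha⟩ := F.A1 n
  -- the unit kappa
  have hκ : IsUnit (A n + 25 * B n * c) := by
    rw [hφ]
    have e : A n + 25 * B n * c = 1 + 5 * (a + 5 * B n * c) := by linear_combination ha
    rw [e, map_add, map_mul, h5, zero_mul, add_zero, map_one]
    exact one_ne_zero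
  obtain ⟨κi, hκi⟩ := hκ.exists_right_inv
  have e1 : u (5 * n) = (A n + 25 * B n * c) * u n := by
    linear_combination F.F1 n + 25 * B n * hc
  have e1' : u n = κi * u (5 * n) := by
    rw [e1]; linear_combination (- u n) * hκi
  have e2 : w (5 * n) = 25 * (Am n * c - 625 * (n : ℤ_[5]) ^ 6 * Bm n) * u n := by
    apply mul_left_cancel₀ hfive
    linear_combination 5 * F.F2 n + 125 * Am n * hc
  have e2' : w (5 * n) = 25 * ((Am n * c - 625 * (n : ℤ_[5]) ^ 6 * Bm n) * κi) * u (5 * n) := by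
    rw [e2]; linear_combination 25 * (Am n * c - 625 * (n : ℤ_[5]) ^ 6 * Bm n) * e1'
  obtain ⟨s, hs⟩ : ∃ s, s = (Am n * c - 625 * (n : ℤ_[5]) ^ 6 * Bm n) * κi := ⟨_, rfl⟩
  rw [← hs] at e2'
  clear hs e2
  have q0 := F.hrec (5 * n)
  have q1 := F.hrec (5 * n + 1)
  have q2 := F.hrec (5 * n + 2)
  have w1 := F.wsucc (5 * n)
  have w2 := F.wsucc (5 * n + 1)
  have w3 := F.wsucc (5 * n + 2)
  push_cast at q0 q1 q2 w1 w2 w3
  have a2 : 5 * n + 1 + 1 = 5 * n + 2 := rfl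
  have a3 : 5 * n + 2 + 1 = 5 * n + 3 := rfl
  rw [a2] at q1 w2
  rw [a3] at q2 w3
  obtain ⟨N, hN⟩ : ∃ N : ℤ_[5], N = (n : ℤ_[5]) := ⟨_, rfl⟩
  rw [← hN] at q0 q1 q2 w1 w2 w3 hNφ
  obtain ⟨G, hG⟩ : ∃ G : ℤ_[5], G = (1 + 27 * N + 255 * N ^ 2 + 850 * N ^ 3) - 5 * s := ⟨_, rfl⟩
  have r1 : (5 * N + 1) ^ 3 * u (5 * n + 1) = 5 * G * u (5 * n) := by
    rw [hG]
    linear_combination q0 - e2'
  have two5 : (10 : ZMod 5) = 0 := rfl
  -- units
  have hφG : φ G = 1 + 2 * (n : ZMod 5) := by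
    have e : G = 1 + 2 * N + 5 * (5 * N + 51 * N ^ 2 + 170 * N ^ 3 - s) := by rw [hG]; ring
    rw [e, map_add, map_mul φ 5, h5, zero_mul, add_zero, map_add, map_mul, map_one, hNφ, map_ofNat]
  have hGu : IsUnit G := by rw [hφ, hφG]; exact hnz
  have hφc1 : φ ((5 * N + 1) ^ 3) = 1 := by
    rw [map_pow, map_add, map_mul, h5, zero_mul, zero_add, map_one, one_pow]
  have hc1u : IsUnit ((5 * N + 1) ^ 3) := by rw [hφ, hφc1]; exact one_ne_zero
  obtain ⟨Gi, hGi⟩ := hGu.exists_right_inv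
  obtain ⟨i1, hi1⟩ := hc1u.exists_right_inv
  have hi1u : IsUnit i1 := IsUnit.of_mul_eq_one ((5 * N + 1) ^ 3) (by rw [mul_comm]; exact hi1)
  have hφi1 : φ i1 = 1 := by
    have := congrArg φ hi1
    rw [map_mul, hφc1, one_mul, map_one] at this
    exact this
  rcases hr with rfl | rfl
  · refine ⟨⟨((5 * N + 1) ^ 3) ^ 2 * Gi, ?_⟩, i1 * G * (A n + 25 * B n * c), ?_, ?_⟩
    · rw [w1]
      linear_combination (-(5 * N + 1) ^ 3 * Gi) * r1 - 5 * (5 * N + 1) ^ 3 * u (5 * n) * hGi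
    · exact (hi1u.mul hGu).mul hκ
    · rw [e1] at r1
      linear_combination i1 * r1 - u (5 * n + 1) * hi1
  · have hφc2 : φ ((5 * N + 2) ^ 3) = 3 := by
      rw [map_pow, map_add, map_mul, h5, zero_mul, zero_add, map_ofNat]
      rfl
    have hc2u : IsUnit ((5 * N + 2) ^ 3) := by rw [hφ, hφc2]; decide
    have hφc3 : φ ((5 * N + 3) ^ 3) = 2 := by
      rw [map_pow, map_add, map_mul, h5, zero_mul, zero_add, map_ofNat]
      rfl
    have hc3u : IsUnit ((5 * N + 3) ^ 3) := by rw [hφ, hφc3]; decide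
    obtain ⟨i2, hi2⟩ := hc2u.exists_right_inv
    obtain ⟨i3, hi3⟩ := hc3u.exists_right_inv
    have hi3u : IsUnit i3 := IsUnit.of_mul_eq_one ((5 * N + 3) ^ 3) (by rw [mul_comm]; exact hi3)
    have hφi2 : φ i2 = 2 := by
      have := congrArg φ hi2
      rw [map_mul, hφc2, map_one] at this
      have h6 : ∀ x : ZMod 5, 3 * x = 1 → x = 2 := by decide
      exact h6 _ this
    -- u (5n+1)
    have r1' : u (5 * n + 1) = 5 * i1 * G * u (5 * n) := by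
      linear_combination i1 * r1 - u (5 * n + 1) * hi1
    obtain ⟨u2, hu2⟩ : ∃ u2 : ℤ_[5], u2 = (5 * ((2 * (5 * N + 1) + 1) *
      (17 * (5 * N + 1) ^ 2 + 17 * (5 * N + 1) + 5)) * i1 * G - (5 * N + 1) ^ 3) * i2 := ⟨_, rfl⟩
    have r2 : u (5 * n + 2) = u2 * u (5 * n) := by
      rw [hu2]
      have q1' : (5 * N + 2) ^ 3 * u (5 * n + 2) = (5 * ((2 * (5 * N + 1) + 1) *
          (17 * (5 * N + 1) ^ 2 + 17 * (5 * N + 1) + 5)) * i1 * G - (5 * N + 1) ^ 3) * u (5 * n) := by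
        linear_combination q1 + (2 * (5 * N + 1) + 1) *
          (17 * (5 * N + 1) ^ 2 + 17 * (5 * N + 1) + 5) * r1' - w1
      linear_combination i2 * q1' - u (5 * n + 2) * hi2
    have hφu2 : φ u2 = 3 := by
      rw [hu2, map_mul, map_sub, hφi2, hφc1, mul_assoc 5, mul_assoc 5, map_mul φ 5, h5, zero_mul]
      rfl
    have hu2u : IsUnit u2 := by rw [hφ, hφu2]; decide
    obtain ⟨W, hW⟩ : ∃ W : ℤ_[5], W = (2 * N + 1) * (425 * N ^ 2 + 425 * N + 107) * u2 -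
      (5 * N + 2) ^ 3 * i1 * G := ⟨_, rfl⟩
    have r3 : (5 * N + 3) ^ 3 * u (5 * n + 3) = 5 * W * u (5 * n) := by
      rw [hW]
      linear_combination q2 + (2 * (5 * N + 2) + 1) * (17 * (5 * N + 2) ^ 2 + 17 * (5 * N + 2) + 5) * r2
        - w2 - (5 * N + 2) ^ 3 * r1'
    have hφW : φ W = 3 * (1 + 2 * (n : ZMod 5)) := by
      have e : W = (2 * N + 1) * (2 + 5 * (85 * N ^ 2 + 85 * N + 21)) * u2 -
        (5 * N + 2) ^ 3 * i1 * G := by rw [hW]; ring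
      rw [e, map_sub, map_mul, map_mul, map_mul, map_mul, hφu2, hφc2, hφi1, hφG, map_add, map_add,
        map_mul, map_mul φ 5, h5, hNφ, map_one, map_ofNat, zero_mul, add_zero]
      generalize (n : ZMod 5) = x
      revert x
      decide
    have hWu : IsUnit W := by
      rw [hφ, hφW]
      intro h0
      apply hnz
      have h6 : ∀ x : ZMod 5, 3 * x = 0 → x = 0 := by decide
      exact h6 _ h0
    obtain ⟨Wi, hWi⟩ := hWu.exists_right_inv
    refine ⟨⟨((5 * N + 3) ^ 3) ^ 2 * u2 * Wi, ?_⟩, i3 * W * (A n + 25 * B n * c), ?_, ?_⟩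
    · rw [w3, r2]
      linear_combination (-(5 * N + 3) ^ 3 * u2 * Wi) * r3 - 5 * (5 * N + 3) ^ 3 * u2 * u (5 * n) * hWi
    · exact (hi3u.mul hWu).mul hκ
    · rw [e1] at r3
      linear_combination i3 * r3 - u (5 * n + 3) * hi3


end J13

end Pool.Agent.Helper468.Apery
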