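import Pool.Agent.Helper468.Apery.Base

set_option autoImplicit false

namespace Pool.Agent.Helper468.Apery

namespace J9

open Finset


theorem not_fg_of_family (b : ℕ → ℤ) (σ : ℕ → ℕ) (hσ : ∀ m, σ m < 5 ^ m) (t : ℕ → ℕ) (v : ℕ → ℤ)
    (h : ∀ m k : ℕ, 1 ≤ m → 1 ≤ k → b (5 ^ m * t k + σ m) = v k + (m : ℤ) + (min m k : ℕ)) :
    ¬ (Submodule.span ℤ {f : ℕ → ℤ | ∃ e r : ℕ, r < 5 ^ e ∧ f = fun n => b (5 ^ e * n + r)}).FG := by
  intro hfg
  set S := Submodule.span ℤ {f : ℕ → ℤ | ∃ e r : ℕ, r < 5 ^ e ∧ f = fun n => b (5 ^ e * n + r)} with hS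
  have hf : ∀ m : ℕ, (fun n => b (5 ^ m * n + σ m)) ∈ S := by
    intro m
    exact Submodule.subset_span ⟨m, σ m, hσ m, rfl⟩
  let f : ℕ → S := fun m => ⟨fun n => b (5 ^ m * n + σ m), hf m⟩
  let g : ℕ → S := fun m => f (m + 3) - (2 : ℤ) • f (m + 2) + f (m + 1)
  have hg : ∀ m k : ℕ, (g m : ℕ → ℤ) (t (k + 2)) = if k = m then -1 else 0 := by
    intro m k
    have e : (g m : ℕ → ℤ) (t (k + 2)) = b (5 ^ (m + 3) * t (k + 2) + σ (m + 3))
        - 2 * b (5 ^ (m + 2) * t (k + 2) + σ (m + 2)) + b (5 ^ (m + 1) * t (k + 2) + σ (m + 1)) := by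
      simp [g, f]
    rw [e, h _ _ (by omega) (by omega), h _ _ (by omega) (by omega), h _ _ (by omega) (by omega)]
    split_ifs with hk
    · subst hk
      have h1 : min (k + 3) (k + 2) = k + 2 := by omega
      have h2 : min (k + 2) (k + 2) = k + 2 := by omega
      have h3 : min (k + 1) (k + 2) = k + 1 := by omega
      rw [h1, h2, h3]
      push_cast
      ring
    · rcases lt_or_gt_of_ne hk with hlt | hgt
      · have h1 : min (m + 3) (k + 2) = k + 2 := by omega
        have h2 : min (m + 2) (k + 2) = k + 2 := by omega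
        have h3 : min (m + 1) (k + 2) = k + 2 := by omega
        rw [h1, h2, h3]
        push_cast
        ring
      · have h1 : min (m + 3) (k + 2) = m + 3 := by omega
        have h2 : min (m + 2) (k + 2) = m + 2 := by omega
        have h3 : min (m + 1) (k + 2) = m + 1 := by omega
        rw [h1, h2, h3]
        push_cast
        ring
  have hli : LinearIndependent ℤ g := by
    rw [linearIndependent_iff']
    intro s c hc i hi
    have h1 : ((∑ j ∈ s, c j • g j : S) : ℕ → ℤ) (t (i + 2)) = 0 := by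
      rw [hc]; rfl
    have h2 : ((∑ j ∈ s, c j • g j : S) : ℕ → ℤ) (t (i + 2)) = ∑ j ∈ s, c j * (g j : ℕ → ℤ) (t (i + 2)) := by
      rw [Submodule.coe_sum, Finset.sum_apply]
      rfl
    rw [h2] at h1
    rw [Finset.sum_eq_single i] at h1
    · rw [hg, if_pos rfl] at h1
      omega
    · intro j _ hji
      rw [hg, if_neg (Ne.symm hji), mul_zero]
    · intro hni
      exact absurd hi hni
  have : Module.Finite ℤ S := Module.Finite.iff_fg.mpr hfg
  have : IsNoetherian ℤ S := inferInstance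
  have hfin : Finite ℕ := hli.finite_of_isNoetherian
  exact not_finite ℕ


end J9

end Pool.Agent.Helper468.Apery
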