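import Pool.Agent.Helper468.Apery.Base
import Pool.Agent.Helper468.Apery.J9
import Pool.Agent.Helper468.Apery.J10
import Pool.Agent.Helper468.Apery.J11
import Pool.Agent.Helper468.Apery.J13

set_option autoImplicit false

namespace Pool.Agent.Helper468.Apery

namespace J12

open Finset
open J9 (not_fg_of_family)
open J10 (top)
open J11 (step)
open J13 (Rstep)

/-! ## assembly -/

/-- invariant at stage k -/
def Inv (u w : ℕ → ℤ_[5]) (k τ σ : ℕ) : Prop :=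
  τ < 5 ^ k ∧ Tgood τ ∧ σ < 5 ^ k ∧ (σ % 5 = 1 ∨ σ % 5 = 3) ∧
  ∃ φ : ℕ → ℤ_[5],
    (∀ t, Tgood t → t ≡ τ [MOD 5 ^ k] →
      u (5 ^ k * t + σ) = 25 * φ t * w (5 ^ k * t + σ) ∧
      ∃ ω : ℤ_[5], IsUnit ω ∧ w (5 ^ k * t + σ) = 5 ^ (2 * (k - 1)) * ω * u t) ∧
    (∀ t t', Tgood t → Tgood t' → t ≡ τ [MOD 5 ^ k] → t' ≡ τ [MOD 5 ^ k] → ∀ e, k ≤ e →
      t ≡ t' [MOD 5 ^ e] →
      ∃ ε c : ℤ_[5], IsUnit ε ∧
        5 ^ k * (φ t - φ t') = ε * ((t : ℤ_[5]) - (t' : ℤ_[5])) + 5 ^ (e + 1) * c)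

theorem Tgood_two : Tgood 2 := by
  refine ⟨rfl, fun i hi => ?_⟩
  have : 2 / 5 ^ i = 0 := Nat.div_eq_of_lt (lt_of_lt_of_le (by norm_num : 2 < 5 ^ 1)
    (Nat.pow_le_pow_right (by norm_num) hi))
  rw [this]; norm_num

theorem inv_one {u w A Am B Bm : ℕ → ℤ_[5]} (F : Frob u w A Am B Bm) : Inv u w 1 2 1 := by
  obtain ⟨φ, ω, h1, h2⟩ := top F
  refine ⟨by norm_num, Tgood_two, by norm_num, Or.inl rfl, φ, ?_, ?_⟩
  · intro t ht _
    obtain ⟨a, b, c⟩ := h1 t ht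
    refine ⟨by simpa using a, ω t, b, ?_⟩
    simpa using c
  · intro t t' ht ht' _ _ e he hh
    simpa using h2 t t' ht ht' e he hh

theorem isUnit_iff5 (x : ℤ_[5]) : IsUnit x ↔ ¬ (5 : ℤ_[5]) ∣ x := by
  have h1 := PadicInt.isUnit_iff (p := 5) (z := x)
  rw [h1]
  have h2 := PadicInt.norm_lt_one_iff_dvd (p := 5) x
  have h3 : ‖x‖ ≤ 1 := PadicInt.norm_le_one x
  have h4 : ((5 : ℕ) : ℤ_[5]) = 5 := by norm_num
  rw [h4] at h2
  rw [← h2]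
  constructor
  · intro h; rw [h]; norm_num
  · intro h; exact le_antisymm h3 (not_lt.mp h)

theorem five_ne : (5 : ℤ_[5]) ≠ 0 := by norm_num

theorem dvd_iff_toZMod (x : ℤ_[5]) : (5 : ℤ_[5]) ∣ x ↔ PadicInt.toZMod x = 0 := by
  have h := PadicInt.ker_toZMod (p := 5)
  rw [PadicInt.maximalIdeal_eq_span_p] at h
  have : x ∈ RingHom.ker (PadicInt.toZMod (p := 5)) ↔ x ∈ Ideal.span {((5:ℕ) : ℤ_[5])} := by rw [h]
  rw [RingHom.mem_ker, Ideal.mem_span_singleton] at this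
  rw [this]; norm_num

theorem dist4 : ∀ a b c d : ZMod 5, a ≠ b → a ≠ c → a ≠ d → b ≠ c → b ≠ d → c ≠ d →
    (a ^ 2 + 1 = 0 ∨ b ^ 2 + 1 = 0 ∨ c ^ 2 + 1 = 0 ∨ d ^ 2 + 1 = 0) := by decide

theorem dist4' : ∀ a b c d g : ZMod 5, a ≠ b → a ≠ c → a ≠ d → b ≠ c → b ≠ d → c ≠ d →
    ((a ≠ 0 ∧ a ≠ g) ∨ (b ≠ 0 ∧ b ≠ g) ∨ (c ≠ 0 ∧ c ≠ g) ∨ (d ≠ 0 ∧ d ≠ g)) := by decide

theorem digit_good {k τ d : ℕ} (hk : 1 ≤ k) (hτ : τ < 5 ^ k) (hg : Tgood τ) (hd : d < 5) (hd2 : d ≠ 2) :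
    Tgood (τ + 5 ^ k * d) := by
  obtain ⟨h1, h2⟩ := hg
  refine ⟨?_, ?_⟩
  · obtain ⟨j, rfl⟩ := Nat.exists_eq_add_of_le hk
    have : 5 ^ (1 + j) * d = 5 * (5 ^ j * d) := by ring
    rw [this]; omega
  · intro i hi
    rcases lt_trichotomy i k with h | h | h
    · obtain ⟨j, rfl⟩ := Nat.exists_eq_add_of_lt h
      have : 5 ^ (i + j + 1) * d = 5 ^ i * (5 * (5 ^ j * d)) := by ring
      rw [this, Nat.add_mul_div_left _ _ (by positivity)]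
      have := h2 i hi
      omega
    · subst h
      rw [Nat.add_mul_div_left _ _ (by positivity), Nat.div_eq_of_lt hτ]
      omega
    · have : (τ + 5 ^ k * d) / 5 ^ i = 0 := by
        apply Nat.div_eq_of_lt
        calc τ + 5 ^ k * d < 5 ^ k + 5 ^ k * d := by omega
          _ = 5 ^ k * (d + 1) := by ring
          _ ≤ 5 ^ k * 5 := Nat.mul_le_mul_left _ (by omega)
          _ = 5 ^ (k + 1) := by ring
          _ ≤ 5 ^ i := Nat.pow_le_pow_right (by norm_num) h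
      rw [this]; norm_num

theorem modeq_cast_dvd {e m n : ℕ} (h : m ≡ n [MOD 5 ^ e]) :
    (5 : ℤ_[5]) ^ e ∣ (m : ℤ_[5]) - (n : ℤ_[5]) := by
  have h1 : ((5 ^ e : ℕ) : ℤ) ∣ (n : ℤ) - (m : ℤ) := Nat.modEq_iff_dvd.mp h
  obtain ⟨c, hc⟩ := h1
  refine ⟨-(c : ℤ_[5]), ?_⟩
  have : ((n : ℤ) : ℤ_[5]) - ((m : ℤ) : ℤ_[5]) = ((5 ^ e : ℕ) : ℤ) * (c : ℤ_[5]) := by
    rw [← Int.cast_sub, hc]; push_cast; ring
  push_cast at this
  linear_combination -this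


theorem pow_split (k : ℕ) (hk : 1 ≤ k) : (25 : ℤ_[5]) * 5 ^ (2 * (k - 1)) = 5 ^ (2 * k) := by
  obtain ⟨j, rfl⟩ := Nat.exists_eq_add_of_le hk
  have : 2 * (1 + j) = 2 * (1 + j - 1) + 2 := by omega
  rw [this, pow_add]; ring

theorem inv_step {u w A Am B Bm : ℕ → ℤ_[5]} (F : Frob u w A Am B Bm) {k τ σ : ℕ} (hk : 1 ≤ k)
    (h : Inv u w k τ σ) :
    ∃ τ' r T : ℕ, (r = 1 ∨ r = 3) ∧ τ' ≡ τ [MOD 5 ^ k] ∧ Inv u w (k + 1) τ' (5 * σ + r) ∧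
      (∀ t, Tgood t → t ≡ τ' [MOD 5 ^ (k + 1)] →
        ∃ ω : ℤ_[5], IsUnit ω ∧ u (5 ^ k * t + σ) = 5 ^ (2 * k) * ω * u t) ∧
      Tgood T ∧ T ≡ τ [MOD 5 ^ k] ∧
      (∃ ω : ℤ_[5], IsUnit ω ∧ u (5 ^ k * T + σ) = 5 ^ (2 * k) * ω * u T) ∧
      (∃ ω : ℤ_[5], IsUnit ω ∧ u (5 ^ (k + 1) * T + (5 * σ + r)) = 5 ^ (2 * k + 1) * ω * u T) ∧
      IsR u w (5 ^ (k + 1) * T + (5 * σ + r)) := by
  obtain ⟨hτ, hτg, hσ, hσ5, φ, hφ, hL⟩ := h
  obtain ⟨Λ, hΛ1, hΛ2, hΛ3⟩ := step F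
  -- the four candidate tops
  have hmod : ∀ d, τ + 5 ^ k * d ≡ τ [MOD 5 ^ k] := fun d => by
    unfold Nat.ModEq; simp
  have hgd : ∀ d, d < 5 → d ≠ 2 → Tgood (τ + 5 ^ k * d) := fun d h1 h2 => digit_good hk hτ hτg h1 h2
  have hn5 : ∀ t, (5 ^ k * t + σ) % 5 = 1 ∨ (5 ^ k * t + σ) % 5 = 3 := by
    intro t
    obtain ⟨j, rfl⟩ := Nat.exists_eq_add_of_le hk
    have : 5 ^ (1 + j) * t = 5 * (5 ^ j * t) := by ring
    rw [this]; omega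
  have h5k : (5 : ℤ_[5]) ^ k ≠ 0 := pow_ne_zero _ five_ne
  have hdist : ∀ d d', d < 5 → d ≠ 2 → d' < 5 → d' ≠ 2 → d ≠ d' →
      PadicInt.toZMod (φ (τ + 5 ^ k * d)) ≠ PadicInt.toZMod (φ (τ + 5 ^ k * d')) := by
    intro d d' h1 h2 h3 h4 hne heq
    obtain ⟨ε, c, hε, hc⟩ := hL _ _ (hgd d h1 h2) (hgd d' h3 h4) (hmod d) (hmod d') k le_rfl
      ((hmod d).trans (hmod d').symm)
    have e1 : φ (τ + 5 ^ k * d) - φ (τ + 5 ^ k * d') = ε * ((d : ℤ_[5]) - d') + 5 * c := by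
      apply mul_left_cancel₀ h5k
      rw [hc]; push_cast; ring
    have e2 : (5 : ℤ_[5]) ∣ φ (τ + 5 ^ k * d) - φ (τ + 5 ^ k * d') := by
      rw [dvd_iff_toZMod, map_sub, heq, sub_self]
    have e3 : (5 : ℤ_[5]) ∣ ε * ((d : ℤ_[5]) - d') := by
      have : ε * ((d : ℤ_[5]) - d') = (φ (τ + 5 ^ k * d) - φ (τ + 5 ^ k * d')) - 5 * c := by
        rw [e1]; ring
      rw [this]; exact dvd_sub e2 (dvd_mul_right _ _)
    have e4 : (5 : ℤ_[5]) ∣ (d : ℤ_[5]) - d' := (IsUnit.dvd_mul_left hε).mp e3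
    rw [dvd_iff_toZMod, map_sub, map_natCast, map_natCast, sub_eq_zero] at e4
    rw [ZMod.natCast_eq_natCast_iff'] at e4
    omega
  -- congruence of φ for t ≡ t' mod 5^(k+1)
  have hcong : ∀ t t', Tgood t → Tgood t' → t ≡ τ [MOD 5 ^ k] → t' ≡ τ [MOD 5 ^ k] →
      t ≡ t' [MOD 5 ^ (k + 1)] → (5 : ℤ_[5]) ∣ φ t - φ t' := by
    intro t t' h1 h2 h3 h4 h5
    obtain ⟨ε, c, hε, hc⟩ := hL t t' h1 h2 h3 h4 (k + 1) (by omega) h5
    obtain ⟨b, hb⟩ := modeq_cast_dvd h5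
    refine ⟨ε * b + 5 * c, ?_⟩
    apply mul_left_cancel₀ h5k
    rw [hc, hb]; ring
  -- choose the good digit
  obtain ⟨d, hd5, hd2, hd⟩ : ∃ d, d < 5 ∧ d ≠ 2 ∧ (5 : ℤ_[5]) ∣ φ (τ + 5 ^ k * d) ^ 2 + 1 := by
    have key := dist4 (PadicInt.toZMod (φ (τ + 5 ^ k * 0))) (PadicInt.toZMod (φ (τ + 5 ^ k * 1)))
      (PadicInt.toZMod (φ (τ + 5 ^ k * 3))) (PadicInt.toZMod (φ (τ + 5 ^ k * 4)))
      (hdist 0 1 (by norm_num) (by norm_num) (by norm_num) (by norm_num) (by norm_num))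
      (hdist 0 3 (by norm_num) (by norm_num) (by norm_num) (by norm_num) (by norm_num))
      (hdist 0 4 (by norm_num) (by norm_num) (by norm_num) (by norm_num) (by norm_num))
      (hdist 1 3 (by norm_num) (by norm_num) (by norm_num) (by norm_num) (by norm_num))
      (hdist 1 4 (by norm_num) (by norm_num) (by norm_num) (by norm_num) (by norm_num))
      (hdist 3 4 (by norm_num) (by norm_num) (by norm_num) (by norm_num) (by norm_num))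
    rcases key with h | h | h | h
    · exact ⟨0, by norm_num, by norm_num, by rw [dvd_iff_toZMod]; simpa using h⟩
    · exact ⟨1, by norm_num, by norm_num, by rw [dvd_iff_toZMod]; simpa using h⟩
    · exact ⟨3, by norm_num, by norm_num, by rw [dvd_iff_toZMod]; simpa using h⟩
    · exact ⟨4, by norm_num, by norm_num, by rw [dvd_iff_toZMod]; simpa using h⟩
  obtain ⟨d', hd5', hd2', hd0', hdd'⟩ : ∃ d', d' < 5 ∧ d' ≠ 2 ∧
      PadicInt.toZMod (φ (τ + 5 ^ k * d')) ≠ 0 ∧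
      PadicInt.toZMod (φ (τ + 5 ^ k * d')) ≠ PadicInt.toZMod (φ (τ + 5 ^ k * d)) := by
    have key := dist4' (PadicInt.toZMod (φ (τ + 5 ^ k * 0))) (PadicInt.toZMod (φ (τ + 5 ^ k * 1)))
      (PadicInt.toZMod (φ (τ + 5 ^ k * 3))) (PadicInt.toZMod (φ (τ + 5 ^ k * 4)))
      (PadicInt.toZMod (φ (τ + 5 ^ k * d)))
      (hdist 0 1 (by norm_num) (by norm_num) (by norm_num) (by norm_num) (by norm_num))
      (hdist 0 3 (by norm_num) (by norm_num) (by norm_num) (by norm_num) (by norm_num))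
      (hdist 0 4 (by norm_num) (by norm_num) (by norm_num) (by norm_num) (by norm_num))
      (hdist 1 3 (by norm_num) (by norm_num) (by norm_num) (by norm_num) (by norm_num))
      (hdist 1 4 (by norm_num) (by norm_num) (by norm_num) (by norm_num) (by norm_num))
      (hdist 3 4 (by norm_num) (by norm_num) (by norm_num) (by norm_num) (by norm_num))
    rcases key with h | h | h | h
    · exact ⟨0, by norm_num, by norm_num, h.1, h.2⟩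
    · exact ⟨1, by norm_num, by norm_num, h.1, h.2⟩
    · exact ⟨3, by norm_num, by norm_num, h.1, h.2⟩
    · exact ⟨4, by norm_num, by norm_num, h.1, h.2⟩
  set τ' := τ + 5 ^ k * d with hτ'
  set T := τ + 5 ^ k * d' with hT
  have hτ'g : Tgood τ' := hgd d hd5 hd2
  have hTg : Tgood T := hgd d' hd5' hd2'
  have hφτ' : IsUnit (φ τ') := by
    rw [isUnit_iff5]
    intro h
    have : (5 : ℤ_[5]) ∣ 1 := by
      have h2 : (5 : ℤ_[5]) ∣ φ τ' ^ 2 := dvd_pow h (by norm_num)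
      have := dvd_sub hd h2
      simpa using this
    exact (isUnit_iff5 (1 : ℤ_[5])).mp isUnit_one this
  obtain ⟨r, hr, hrΛ⟩ : ∃ r, (r = 1 ∨ r = 3) ∧ (5 : ℤ_[5]) ∣ Λ r (5 ^ k * τ' + σ) (φ τ') := by
    rcases hΛ3 (5 ^ k * τ' + σ) (φ τ') (hn5 τ') hφτ' hd with h | h
    · exact ⟨1, Or.inl rfl, h⟩
    · exact ⟨3, Or.inr rfl, h⟩
  -- all t ≡ τ' mod 5^(k+1) survive
  have hmodle : ∀ t, t ≡ τ' [MOD 5 ^ (k + 1)] → t ≡ τ [MOD 5 ^ k] := fun t ht =>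
    (ht.of_dvd (pow_dvd_pow 5 (by omega))).trans (hmod d)
  have hunit : ∀ t, Tgood t → t ≡ τ' [MOD 5 ^ (k + 1)] → IsUnit (φ t) := by
    intro t ht hh
    have h1 := hcong t τ' ht hτ'g (hmodle t hh) (hmod d) hh
    rw [isUnit_iff5] at hφτ' ⊢
    intro h2
    apply hφτ'
    have := dvd_sub h2 h1
    simpa using this
  have hnmod : ∀ t t' e, t ≡ t' [MOD 5 ^ e] → 5 ^ k * t + σ ≡ 5 ^ k * t' + σ [MOD 5 ^ (k + e)] := by
    intro t t' e hh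
    apply Nat.ModEq.add_right
    rw [pow_add]
    exact Nat.ModEq.mul_left' _ hh
  have hsurv : ∀ t, Tgood t → t ≡ τ' [MOD 5 ^ (k + 1)] →
      (5 : ℤ_[5]) ∣ Λ r (5 ^ k * t + σ) (φ t) := by
    intro t ht hh
    obtain ⟨ε, c, hε, hc⟩ := hΛ2 r _ _ (φ t) (φ τ') (k + (k + 1)) hr (hn5 t) (hn5 τ')
      (hunit t ht hh) hφτ' (by omega) (hnmod t τ' (k + 1) hh)
    have h1 := hcong t τ' ht hτ'g (hmodle t hh) (hmod d) hh
    have h2 : (5 : ℤ_[5]) ∣ 5 ^ (k + (k + 1) - 1) * c :=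
      Dvd.dvd.mul_right (dvd_pow_self _ (by omega)) _
    have h3 : Λ r (5 ^ k * t + σ) (φ t) =
        Λ r (5 ^ k * τ' + σ) (φ τ') + (ε * (φ t - φ τ') + 5 ^ (k + (k + 1) - 1) * c) := by
      rw [← hc]; ring
    rw [h3]
    exact dvd_add hrΛ (dvd_add (Dvd.dvd.mul_left h1 _) h2)
  classical
  let φ' : ℕ → ℤ_[5] := fun t =>
    if hh : (5 : ℤ_[5]) ∣ Λ r (5 ^ k * t + σ) (φ t) then hh.choose else 0
  have hφ' : ∀ t, Tgood t → t ≡ τ' [MOD 5 ^ (k + 1)] → Λ r (5 ^ k * t + σ) (φ t) = 5 * φ' t := by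
    intro t ht hh
    have h1 := hsurv t ht hh
    have : φ' t = h1.choose := dif_pos h1
    rw [this]; exact h1.choose_spec
  have hnext : ∀ t, 5 ^ (k + 1) * t + (5 * σ + r) = 5 * (5 ^ k * t + σ) + r := fun t => by ring
  refine ⟨τ', r, T, hr, hmod d, ⟨?_, hτ'g, ?_, ?_, φ', ?_, ?_⟩, ?_, hTg, hmod d', ?_, ?_, ?_⟩
  · calc τ + 5 ^ k * d < 5 ^ k + 5 ^ k * d := by omega
      _ = 5 ^ k * (d + 1) := by ring
      _ ≤ 5 ^ k * 5 := Nat.mul_le_mul_left _ (by omega)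
      _ = 5 ^ (k + 1) := by ring
  · have : 5 ^ (k + 1) = 5 * 5 ^ k := by ring
    omega
  · omega
  · intro t ht hh
    obtain ⟨h1, ω, hω, h2⟩ := hφ t ht (hmodle t hh)
    obtain ⟨h3, ω', hω', h4⟩ := hΛ1 r _ (φ t) hr (hn5 t) (hunit t ht hh) h1
    rw [hnext]
    refine ⟨?_, ω' * ω, hω'.mul hω, ?_⟩
    · rw [h3, hφ' t ht hh]; ring
    · rw [h4, h2, Nat.add_sub_cancel, ← pow_split k hk]; ring
  · intro t t' ht ht' hh hh' e he hee
    obtain ⟨ε, c, hε, hc⟩ := hL t t' ht ht' (hmodle t hh) (hmodle t' hh') e (by omega) hee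
    obtain ⟨ε', c', hε', hc'⟩ := hΛ2 r _ _ (φ t) (φ t') (k + e) hr (hn5 t) (hn5 t')
      (hunit t ht hh) (hunit t' ht' hh') (by omega) (hnmod t t' e hee)
    rw [hφ' t ht hh, hφ' t' ht' hh'] at hc'
    obtain ⟨j, hj⟩ : ∃ j, k + (k + e - 1) = (e + 1) + j := ⟨k + (k + e - 1) - (e + 1), by omega⟩
    refine ⟨ε' * ε, ε' * c + 5 ^ j * c', hε'.mul hε, ?_⟩
    have h6 : (5 : ℤ_[5]) ^ k * 5 ^ (k + e - 1) = 5 ^ (e + 1) * 5 ^ j := by
      rw [← pow_add, hj, pow_add]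
    calc (5 : ℤ_[5]) ^ (k + 1) * (φ' t - φ' t') = 5 ^ k * (5 * φ' t - 5 * φ' t') := by ring
      _ = 5 ^ k * (ε' * (φ t - φ t') + 5 ^ (k + e - 1) * c') := by rw [hc']
      _ = ε' * (5 ^ k * (φ t - φ t')) + (5 ^ k * 5 ^ (k + e - 1)) * c' := by ring
      _ = _ := by rw [hc, h6]; ring
  · intro t ht hh
    obtain ⟨h1, ω, hω, h2⟩ := hφ t ht (hmodle t hh)
    refine ⟨φ t * ω, (hunit t ht hh).mul hω, ?_⟩
    rw [h1, h2, ← pow_split k hk]; ring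
  · obtain ⟨h1, ω, hω, h2⟩ := hφ T hTg (hmod d')
    have hTu : IsUnit (φ T) := by rw [isUnit_iff5, dvd_iff_toZMod]; exact hd0'
    refine ⟨φ T * ω, hTu.mul hω, ?_⟩
    rw [h1, h2, ← pow_split k hk]; ring
  all_goals
    have hTu : IsUnit (φ T) := by rw [isUnit_iff5, dvd_iff_toZMod]; exact hd0'
    obtain ⟨h1, ω, hω, h2⟩ := hφ T hTg (hmod d')
    obtain ⟨h3, ω', hω', h4⟩ := hΛ1 r _ (φ T) hr (hn5 T) hTu h1
    have hΛT : IsUnit (Λ r (5 ^ k * T + σ) (φ T)) := by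
      rw [isUnit_iff5]
      intro h5
      obtain ⟨ε, c, hε, hc⟩ := hΛ2 r _ _ (φ T) (φ τ') (k + k) hr (hn5 T) (hn5 τ') hTu hφτ'
        (by omega) (hnmod T τ' k ((hmod d').trans (hmod d).symm))
      have h6 : (5 : ℤ_[5]) ∣ 5 ^ (k + k - 1) * c :=
        Dvd.dvd.mul_right (dvd_pow_self _ (by omega)) _
      have h7 : (5 : ℤ_[5]) ∣ ε * (φ T - φ τ') := by
        have : ε * (φ T - φ τ') = Λ r (5 ^ k * T + σ) (φ T) - Λ r (5 ^ k * τ' + σ) (φ τ')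
            - 5 ^ (k + k - 1) * c := by rw [hc]; ring
        rw [this]; exact dvd_sub (dvd_sub h5 hrΛ) h6
      have h8 : (5 : ℤ_[5]) ∣ φ T - φ τ' := (IsUnit.dvd_mul_left hε).mp h7
      rw [dvd_iff_toZMod, map_sub, sub_eq_zero] at h8
      exact hdd' h8
  · refine ⟨Λ r (5 ^ k * T + σ) (φ T) * ω' * ω, (hΛT.mul hω').mul hω, ?_⟩
    rw [hnext, h3, h4, h2, pow_succ, ← pow_split k hk]; ring
  · obtain ⟨v, hv⟩ := hΛT
    refine ⟨((v⁻¹ : ℤ_[5]ˣ) : ℤ_[5]), ?_⟩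
    rw [hnext, h3, ← hv]
    have : ((v⁻¹ : ℤ_[5]ˣ) : ℤ_[5]) * v = 1 := by simp
    linear_combination (-5 * w (5 * (5 ^ k * T + σ) + r)) * this


theorem val_of_eq {a b j : ℕ} {ω : ℤ_[5]} (hω : IsUnit ω) (ha : a ≠ 0) (hb : b ≠ 0)
    (h : (a : ℤ_[5]) = 5 ^ j * ω * b) : padicValNat 5 a = j + padicValNat 5 b := by
  have key : ∀ n : ℕ, 5 ^ n ∣ a ↔ 5 ^ n ∣ 5 ^ j * b := by
    intro n
    have h1 : (5 ^ n ∣ a) ↔ ((5 : ℕ) : ℤ_[5]) ^ n ∣ ((a : ℤ) : ℤ_[5]) := by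
      rw [PadicInt.pow_p_dvd_int_iff]
      exact_mod_cast Iff.rfl
    have h2 : (5 ^ n ∣ 5 ^ j * b) ↔ ((5 : ℕ) : ℤ_[5]) ^ n ∣ (((5 ^ j * b : ℕ) : ℤ) : ℤ_[5]) := by
      rw [PadicInt.pow_p_dvd_int_iff]
      exact_mod_cast Iff.rfl
    rw [h1, h2]
    have h3 : ((a : ℤ) : ℤ_[5]) = ω * (((5 ^ j * b : ℕ) : ℤ) : ℤ_[5]) := by
      push_cast; rw [h]; ring
    rw [h3, IsUnit.dvd_mul_left hω]
  have hc : 5 ^ j * b ≠ 0 := mul_ne_zero (pow_ne_zero _ (by norm_num)) hb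
  have h5 : padicValNat 5 a = padicValNat 5 (5 ^ j * b) := by
    apply le_antisymm
    · exact (padicValNat_dvd_iff_le hc).mp ((key _).mp pow_padicValNat_dvd)
    · exact (padicValNat_dvd_iff_le ha).mp ((key _).mpr pow_padicValNat_dvd)
  rw [h5, padicValNat.mul (pow_ne_zero _ (by norm_num)) hb, padicValNat.prime_pow]

theorem chain_final {u w A Am B Bm : ℕ → ℤ_[5]} (F : Frob u w A Am B Bm) (ap : ℕ → ℕ)
    (hu : ∀ n, u n = (ap n : ℤ_[5])) :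
    ∃ (σ t : ℕ → ℕ) (v : ℕ → ℤ), (∀ m, σ m < 5 ^ m) ∧
      ∀ m k : ℕ, 1 ≤ m → 1 ≤ k →
        ((padicValNat 5 (ap (5 ^ m * t k + σ m)) : ℕ) : ℤ) = v k + (m : ℤ) + (min m k : ℕ) := by
  classical
  have hstep : ∀ (i : ℕ) (p : {p : ℕ × ℕ // Inv u w (i + 1) p.1 p.2}),
      ∃ (q : {q : ℕ × ℕ // Inv u w (i + 1 + 1) q.1 q.2}) (T : ℕ),
        q.1.1 ≡ p.1.1 [MOD 5 ^ (i + 1)] ∧ (∃ r, (r = 1 ∨ r = 3) ∧ q.1.2 = 5 * p.1.2 + r) ∧
        (∀ t, Tgood t → t ≡ q.1.1 [MOD 5 ^ (i + 1 + 1)] →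
          ∃ ω : ℤ_[5], IsUnit ω ∧ u (5 ^ (i + 1) * t + p.1.2) = 5 ^ (2 * (i + 1)) * ω * u t) ∧
        Tgood T ∧ T ≡ p.1.1 [MOD 5 ^ (i + 1)] ∧
        (∃ ω : ℤ_[5], IsUnit ω ∧ u (5 ^ (i + 1) * T + p.1.2) = 5 ^ (2 * (i + 1)) * ω * u T) ∧
        (∃ ω : ℤ_[5], IsUnit ω ∧
          u (5 ^ (i + 1 + 1) * T + q.1.2) = 5 ^ (2 * (i + 1) + 1) * ω * u T) ∧
        IsR u w (5 ^ (i + 1 + 1) * T + q.1.2) := by
    rintro i ⟨⟨τ, σ⟩, hp⟩
    obtain ⟨τ', r, T, hr, h1, h2, h3, h4, h5, h6, h7, h8⟩ := inv_step F (by omega) hp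
    exact ⟨⟨(τ', 5 * σ + r), h2⟩, T, h1, ⟨r, hr, rfl⟩, h3, h4, h5, h6, h7, h8⟩
  choose next T h1 h2 h3 h4 h5 h6 h7 h8 using hstep
  let S : (i : ℕ) → {p : ℕ × ℕ // Inv u w (i + 1) p.1 p.2} := fun i =>
    Nat.rec ⟨(2, 1), inv_one F⟩ (fun i p => next i p) i
  have hS : ∀ i, S (i + 1) = next i (S i) := fun i => rfl
  -- compatibility of the tau
  have hτ : ∀ i j, j ≤ i → (S i).1.1 ≡ (S j).1.1 [MOD 5 ^ (j + 1)] := by
    intro i j hij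
    induction i, hij using Nat.le_induction with
    | base => exact Nat.ModEq.refl _
    | succ i hij ih =>
      rw [hS]
      exact ((h1 i (S i)).of_dvd (pow_dvd_pow 5 (by omega))).trans ih
  have hσ5 : ∀ i, (S i).1.2 % 5 = 1 ∨ (S i).1.2 % 5 = 3 := fun i => (S i).2.2.2.2.1
  have main : ∀ i j : ℕ, ∃ ω : ℤ_[5], IsUnit ω ∧
      u (5 ^ (j + 1) * T i (S i) + (S j).1.2) = 5 ^ ((j + 1) + min (j + 1) (i + 1)) * ω *
        u (T i (S i)) := by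
    intro i j
    rcases lt_trichotomy j i with hji | hji | hji
    · have hm : T i (S i) ≡ (S (j + 1)).1.1 [MOD 5 ^ (j + 1 + 1)] :=
        ((h5 i (S i)).of_dvd (pow_dvd_pow 5 (by omega))).trans (hτ i (j + 1) (by omega))
      rw [hS] at hm
      obtain ⟨ω, hω, he⟩ := h3 j (S j) _ (h4 i (S i)) hm
      refine ⟨ω, hω, ?_⟩
      rw [he, min_eq_left (by omega), two_mul]
    · subst hji
      obtain ⟨ω, hω, he⟩ := h6 j (S j)
      refine ⟨ω, hω, ?_⟩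
      rw [he, min_self, two_mul]
    · have hind : ∀ j, i + 1 ≤ j → IsR u w (5 ^ (j + 1) * T i (S i) + (S j).1.2) ∧
          ∃ ω : ℤ_[5], IsUnit ω ∧
          u (5 ^ (j + 1) * T i (S i) + (S j).1.2) = 5 ^ ((j + 1) + (i + 1)) * ω *
            u (T i (S i)) := by
        intro j hj
        induction j, hj using Nat.le_induction with
        | base =>
          rw [hS]
          refine ⟨h8 i (S i), ?_⟩
          obtain ⟨ω, hω, he⟩ := h7 i (S i)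
          refine ⟨ω, hω, ?_⟩
          rw [he]
          have e9 : 2 * (i + 1) + 1 = i + 1 + 1 + (i + 1) := by ring
          rw [e9]
        | succ j hj ih =>
          obtain ⟨ihR, ω, hω, he⟩ := ih
          obtain ⟨r, hr, hr'⟩ := h2 j (S j)
          rw [hS, hr']
          have e1 : 5 ^ (j + 1 + 1) * T i (S i) + (5 * (S j).1.2 + r) =
              5 * (5 ^ (j + 1) * T i (S i) + (S j).1.2) + r := by ring
          have e2 : (5 ^ (j + 1) * T i (S i) + (S j).1.2) % 5 ≠ 2 := by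
            have e3 : 5 ^ (j + 1) * T i (S i) = 5 * (5 ^ j * T i (S i)) := by ring
            rw [e3]
            have := hσ5 j
            omega
          obtain ⟨hR, ω', hω', he'⟩ := Rstep F _ r e2 hr ihR
          rw [e1]
          refine ⟨hR, ω' * ω, hω'.mul hω, ?_⟩
          rw [he', he]
          have e4 : (5 : ℤ_[5]) ^ (j + 1 + 1 + (i + 1)) = 5 * 5 ^ (j + 1 + (i + 1)) := by
            rw [show j + 1 + 1 + (i + 1) = (j + 1 + (i + 1)) + 1 by ring, pow_succ]; ring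
          rw [e4]; ring
      obtain ⟨-, ω, hω, he⟩ := hind j (by omega)
      refine ⟨ω, hω, ?_⟩
      rw [he, min_eq_right (by omega)]
  have hap : ∀ n, ap n ≠ 0 := by
    intro n h0
    apply F.une n
    rw [hu, h0]; simp
  refine ⟨fun m => if m = 0 then 0 else (S (m - 1)).1.2, fun k => T (k - 1) (S (k - 1)),
    fun k => (padicValNat 5 (ap (T (k - 1) (S (k - 1)))) : ℕ), ?_, ?_⟩
  · intro m
    by_cases hm : m = 0
    · subst hm; simp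
    · obtain ⟨j, rfl⟩ := Nat.exists_eq_succ_of_ne_zero hm
      have := (S j).2.2.2.1
      simpa using this
  · intro m k hm hk
    obtain ⟨j, rfl⟩ := Nat.exists_eq_add_of_le hm
    obtain ⟨i, rfl⟩ := Nat.exists_eq_add_of_le hk
    obtain ⟨ω, hω, he⟩ := main i j
    rw [hu, hu] at he
    have e5 := val_of_eq hω (hap _) (hap _) he
    have e6' : ∀ l, l = j → (S l).1.2 = (S j).1.2 := by rintro l rfl; rfl
    have e6 : (if 1 + j = 0 then 0 else (S (1 + j - 1)).1.2) = (S j).1.2 := by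
      rw [if_neg (by omega)]
      exact e6' _ (by omega)
    have e7 : T (1 + i - 1) (S (1 + i - 1)) = T i (S i) := by
      have : 1 + i - 1 = i := by omega
      rw [this]
    beta_reduce
    rw [e6, e7, show 1 + j = j + 1 by ring, e5, show 1 + i = i + 1 by ring]
    push_cast
    ring

theorem final_of_frob {u w A Am B Bm : ℕ → ℤ_[5]} (F : Frob u w A Am B Bm) (ap : ℕ → ℕ)
    (hu : ∀ n, u n = (ap n : ℤ_[5])) (b : ℕ → ℤ) (hb : ∀ n, b n = ((padicValNat 5 (ap n) : ℕ) : ℤ)) :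
    ¬ (Submodule.span ℤ {f : ℕ → ℤ | ∃ e r : ℕ, r < 5 ^ e ∧ f = fun n => b (5 ^ e * n + r)}).FG := by
  obtain ⟨σ, t, v, h1, h2⟩ := chain_final F ap hu
  apply not_fg_of_family b σ h1 t v
  intro m k hm hk
  rw [hb]
  exact h2 m k hm hk


end J12

end Pool.Agent.Helper468.Apery
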