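import Pool.Agent.Helper468.Apery.Base

set_option autoImplicit false

namespace Pool.Agent.Helper468.Apery

namespace J2

open Finset


theorem idx_mul (x : ℤ) (j : ℕ) :
    ((x : ℚ) - j) * ((x : ℚ) + j + 1) = ((idx x : ℕ) - (j : ℚ)) * ((idx x : ℕ) + j + 1) := by
  unfold idx
  split_ifs with h
  · have h1 : ((x.toNat : ℕ) : ℚ) = (x : ℚ) := by
      have : ((x.toNat : ℕ) : ℤ) = x := Int.toNat_of_nonneg h
      exact_mod_cast congrArg (Int.cast : ℤ → ℚ) this
    rw [h1]
  · have h1 : (((-1 - x).toNat : ℕ) : ℚ) = -1 - (x : ℚ) := by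
      have : (((-1 - x).toNat : ℕ) : ℤ) = -1 - x := Int.toNat_of_nonneg (by omega)
      have h2 := congrArg (Int.cast : ℤ → ℚ) this
      push_cast at h2
      exact_mod_cast h2
    rw [h1]
    ring

theorem choose_step1 (n j : ℕ) :
    ((n.choose (j + 1) : ℕ) : ℚ) * (j + 1) = (n.choose j : ℕ) * ((n : ℚ) - j) := by
  have h := Nat.choose_succ_right_eq n j
  rcases le_or_gt j n with hj | hj
  · have h2 : ((n - j : ℕ) : ℚ) = (n : ℚ) - j := by push_cast [hj]; ring
    rw [← h2]
    exact_mod_cast h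
  · rw [Nat.choose_eq_zero_of_lt hj, Nat.choose_eq_zero_of_lt (by omega)]
    simp

theorem choose_step2 (n j : ℕ) :
    (((n + (j + 1)).choose (j + 1) : ℕ) : ℚ) * (j + 1) =
      ((n + j).choose j : ℕ) * ((n : ℚ) + j + 1) := by
  have h := Nat.add_one_mul_choose_eq (n + j) j
  have h2 : (((n + j).choose j : ℕ) : ℚ) * ((n : ℚ) + j + 1) =
      ((n + j + 1 : ℕ) : ℚ) * ((n + j).choose j : ℕ) := by push_cast; ring
  rw [h2]
  have h3 : ((n + j + 1) * (n + j).choose j) = (n + (j + 1)).choose (j + 1) * (j + 1) := h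
  exact_mod_cast h3.symm

theorem T_fst (x : ℤ) (j : ℕ) :
    (T x j).fst = (((idx x).choose j * (idx x + j).choose j : ℕ) : ℚ) ^ 2 := by
  induction j with
  | zero => simp [T]
  | succ j ih =>
    have h0 : (j : ℚ) + 1 ≠ 0 := by positivity
    have e1 : (T x (j + 1)).fst =
        (T x j).fst * (((x : ℚ) - j) * ((x : ℚ) + j + 1)) ^ 2 * (1 / ((j : ℚ) + 1)) ^ 4 := by
      simp [T, jh, ji]
    rw [e1, ih, idx_mul]
    have h1 := choose_step1 (idx x) j
    have h2 := choose_step2 (idx x) j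
    have h3 : (((idx x).choose (j + 1) : ℕ) : ℚ) =
        ((idx x).choose j : ℕ) * (((idx x : ℕ) : ℚ) - j) / (j + 1) := by
      rw [eq_div_iff h0, h1]
    have h4 : (((idx x + (j + 1)).choose (j + 1) : ℕ) : ℚ) =
        ((idx x + j).choose j : ℕ) * (((idx x : ℕ) : ℚ) + j + 1) / (j + 1) := by
      rw [eq_div_iff h0, h2]
    push_cast
    rw [h3, h4]
    field_simp

theorem L_one_fst (N : ℕ) (x : ℤ) (hN : x.natAbs < N) :
    (L N x (fun _ => 1)).fst = (uz x : ℚ) := by
  have hi : idx x + 1 ≤ N := by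
    unfold idx
    split_ifs with h <;> omega
  have h1 : (L N x (fun _ => 1)).fst = ∑ j ∈ range N, (T x j).fst := by
    unfold L
    simp only [mul_one]
    exact map_sum (TrivSqZeroExt.fstHom ℚ ℚ ℚ) (T x) (range N)
  rw [h1]
  have h2 : ∑ j ∈ range (idx x + 1), (T x j).fst = ∑ j ∈ range N, (T x j).fst := by
    refine Finset.sum_subset (Finset.range_subset_range.2 hi) ?_
    intro j _ hj
    rw [Finset.mem_range, not_lt] at hj
    rw [T_fst, Nat.choose_eq_zero_of_lt (by omega)]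
    simp
  rw [← h2]
  unfold uz aper
  push_cast
  refine Finset.sum_congr rfl fun j _ => ?_
  rw [T_fst]
  push_cast
  ring


end J2

end Pool.Agent.Helper468.Apery
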