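import Pool.Agent.Helper468.Apery.Base
import Pool.Agent.Helper468.Apery.J1
import Pool.Agent.Helper468.Apery.J2

set_option autoImplicit false

namespace Pool.Agent.Helper468.Apery

namespace J3

open Finset
open J1 J2


theorem j3_jh_succ (j : ℕ) : jh (j + 1) = jh j + 1 := by
  unfold jh; push_cast; ring

theorem j3_eps_sq : (DualNumber.eps : K) * DualNumber.eps = 0 := DualNumber.eps_mul_eps

theorem j3_jh_zero : jh 0 = (DualNumber.eps : K) := by
  unfold jh; simp

theorem j3_eps_T (x : ℤ) : (DualNumber.eps : K) * T x 0 = DualNumber.eps := by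
  have : T x 0 = 1 + TrivSqZeroExt.inr (4 * Hz x) := rfl
  rw [this]
  ext
  · simp
  · simp

theorem j3_contig0 (x : ℤ) :
    ((x : K) + DualNumber.eps) ^ 2 * T (x - 1) 0 = ((x : K) - DualNumber.eps) ^ 2 * T x 0 := by
  have h := T_contig (x - 1) 0
  rw [sub_add_cancel, j3_jh_zero] at h
  push_cast at h
  rw [sub_add_cancel] at h
  exact h

/-- the common factor -/
noncomputable def j3_tau (x : ℤ) (i : ℕ) : K :=
  ((x : K) + 1 - (jh i + 1)) ^ 2 * T x i * ji i ^ 4

theorem j3_T1 (x : ℤ) (i : ℕ) : T x (i + 1) = ((x : K) + (jh i + 1)) ^ 2 * j3_tau x i := by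
  rw [T, j3_tau]; ring

theorem j3_T2 (x : ℤ) (i : ℕ) :
    (jh i + 1) ^ 4 * j3_tau x i = ((x : K) + 1 - (jh i + 1)) ^ 2 * T x i := by
  have h := ji_mul i
  have h2 : (jh i + 1) ^ 4 * ji i ^ 4 = 1 := by rw [← mul_pow, h, one_pow]
  rw [j3_tau]
  linear_combination (((x : K) + 1 - (jh i + 1)) ^ 2 * T x i) * h2

theorem j3_T3 (x : ℤ) (i : ℕ) :
    T (x - 1) (i + 1) = ((x : K) - (jh i + 1)) ^ 2 * j3_tau x i := by
  have h := T_contig (x - 1) i
  rw [sub_add_cancel] at h
  push_cast at h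
  rw [T, j3_tau]
  push_cast
  linear_combination (((x : K) - (jh i + 1)) ^ 2 * ji i ^ 4) * h

/-- relation A, one term -/
noncomputable def j3_D (x : ℤ) (j : ℕ) : K :=
  (x : K) ^ 3 * T (x - 1) j - (12 * (x : K) ^ 2 + 17 * (x : K) ^ 3
    - 24 * ((x : K) * ((x : K) + 1)) * jh j + 12 * jh j ^ 2) * T x j

noncomputable def j3_F (x : ℤ) (j : ℕ) : K :=
  (-16 * (x : K) - 12 * (jh j + 1)) * ((x : K) - jh j) ^ 2 * T x j

theorem j3_D0 (x : ℤ) : j3_D x 0 = j3_F x 0 := by
  rw [j3_D, j3_F, j3_jh_zero]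
  have h := j3_contig0 x
  have he := j3_eps_sq
  have h1 := j3_eps_T x
  have h2 := j3_eps_T (x - 1)
  generalize T (x - 1) 0 = A at *
  generalize T x 0 = B at *
  generalize (DualNumber.eps : K) = e at *
  generalize (x : K) = y at *
  linear_combination (y - 2 * e) * h + (A * (3 * y + 2 * e) + B * (-3 * y + 10 * e)) * he

theorem j3_Dsucc (x : ℤ) (j : ℕ) : j3_D x (j + 1) = j3_F x (j + 1) - j3_F x j := by
  rw [j3_D, j3_F, j3_F, j3_jh_succ, j3_T3, j3_T1]
  have h := j3_T2 x j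
  generalize j3_tau x j = t at *
  generalize T x j = B at *
  generalize jh j = J at *
  generalize (x : K) = y at *
  linear_combination (-(-16 * y - 12 * (J + 1))) * h

theorem j3_sumD (x : ℤ) (M : ℕ) : ∑ j ∈ range (M + 1), j3_D x j = j3_F x M := by
  induction M with
  | zero => simp [j3_D0]
  | succ M ih => rw [Finset.sum_range_succ, ih, j3_Dsucc]; ring

theorem j3_relA (N : ℕ) (x : ℤ) (hN : x.natAbs < N) (hN' : (x - 1).natAbs < N) :
    (x : K) ^ 3 * L N (x - 1) (fun _ => 1) = (12 * (x : K) ^ 2 + 17 * (x : K) ^ 3) *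
      L N x (fun _ => 1) - 24 * ((x : K) * ((x : K) + 1)) * L N x jh
      + 12 * L N x (fun j => jh j ^ 2) := by
  have key : ∀ M : ℕ, x.natAbs < M → (x - 1).natAbs < M →
      (x : K) ^ 3 * L (M + 1) (x - 1) (fun _ => 1) = (12 * (x : K) ^ 2 + 17 * (x : K) ^ 3) *
      L (M + 1) x (fun _ => 1) - 24 * ((x : K) * ((x : K) + 1)) * L (M + 1) x jh
      + 12 * L (M + 1) x (fun j => jh j ^ 2) := by
    intro M hM hM'
    have h0 : j3_F x M = 0 := by rw [j3_F, T_eq_zero x M hM, mul_zero]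
    have h1 := j3_sumD x M
    rw [h0] at h1
    have h2 : (x : K) ^ 3 * L (M + 1) (x - 1) (fun _ => 1) - ((12 * (x : K) ^ 2 + 17 * (x : K) ^ 3) *
      L (M + 1) x (fun _ => 1) - 24 * ((x : K) * ((x : K) + 1)) * L (M + 1) x jh
      + 12 * L (M + 1) x (fun j => jh j ^ 2)) = ∑ j ∈ range (M + 1), j3_D x j := by
      simp only [L, Finset.mul_sum, ← Finset.sum_sub_distrib, ← Finset.sum_add_distrib]
      refine Finset.sum_congr rfl fun j _ => ?_
      rw [j3_D]; ring
    rw [h1] at h2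
    exact sub_eq_zero.1 h2
  have h := key N hN hN'
  rw [L_ext (N + 1) N (x - 1) (by omega) (by omega), L_ext (N + 1) N x (by omega) (by omega),
    L_ext (N + 1) N x (by omega) (by omega), L_ext (N + 1) N x (by omega) (by omega)] at h
  exact h

theorem j3_L_symm (N : ℕ) (x : ℤ) (f : ℕ → K) : L N (-1 - x) f = L N x f := by
  unfold L
  refine Finset.sum_congr rfl fun j _ => ?_
  rw [T_symm]

theorem j3_rec (N : ℕ) (x : ℤ) (hN : x.natAbs + 2 < N) :
    ((x : K) + 1) ^ 3 * L N (x + 1) (fun _ => 1) =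
      (2 * (x : K) + 1) * (17 * (x : K) ^ 2 + 17 * (x : K) + 5) * L N x (fun _ => 1) -
      (x : K) ^ 3 * L N (x - 1) (fun _ => 1) := by
  have h1 := j3_relA N x (by omega) (by omega)
  have h2 := j3_relA N (-1 - x) (by omega) (by omega)
  rw [show (-1 - x - 1 : ℤ) = -1 - (x + 1) by ring] at h2
  simp only [j3_L_symm] at h2
  push_cast at h2
  linear_combination h1 - h2

theorem j3_L_zero (N : ℕ) (hN : 0 < N) (f : ℕ → K) : L N 0 f = f 0 := by
  unfold L
  rw [Finset.sum_eq_single 0]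
  · have : T 0 0 = 1 := by
      show 1 + TrivSqZeroExt.inr (4 * Hz 0) = (1 : K)
      have : Hz 0 = 0 := by simp [Hz, idx]
      rw [this]; simp
    rw [this, one_mul]
  · intro j _ hj
    rw [T_eq_zero 0 j (by simpa using Nat.pos_of_ne_zero hj), zero_mul]
  · intro h
    exact absurd (Finset.mem_range.2 hN) h

theorem j3_Z_nat (N : ℕ) : ∀ n : ℕ, n < N → (L N (n : ℤ) (fun _ => 1)).snd = 0 := by
  have key : ∀ (M n : ℕ), n + 1 < M → (L M ((n : ℤ)) (fun _ => 1)).snd = 0 ∧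
      (L M ((n : ℤ) - 1) (fun _ => 1)).snd = 0 := by
    intro M n
    induction n with
    | zero =>
      intro hM
      have h0 : (L M 0 (fun _ => 1)).snd = 0 := by rw [j3_L_zero M (by omega)]; simp
      refine ⟨by simpa using h0, ?_⟩
      have := j3_L_symm M 0 (fun _ => 1)
      simp only [sub_zero] at this
      simpa [this] using h0
    | succ n ih =>
      intro hM
      obtain ⟨h1, h2⟩ := ih (by omega)
      refine ⟨?_, ?_⟩
      · have h3 := j3_rec M (n : ℤ) (by simp; omega)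
        have h4 := congrArg TrivSqZeroExt.snd h3
        have e1 : ∀ (c : ℤ) (z : K), ((c : K) * z).snd = (c : ℚ) * z.snd := by
          intro c z
          simp
        have e2 : (((n : ℤ) : K) + 1) ^ 3 = ((((n : ℤ) + 1) ^ 3 : ℤ) : K) := by push_cast; ring
        have e3 : (2 * ((n : ℤ) : K) + 1) * (17 * ((n : ℤ) : K) ^ 2 + 17 * ((n : ℤ) : K) + 5) =
          (((2 * (n : ℤ) + 1) * (17 * (n : ℤ) ^ 2 + 17 * (n : ℤ) + 5) : ℤ) : K) := by
          push_cast; ring
        have e4 : ((n : ℤ) : K) ^ 3 = ((((n : ℤ)) ^ 3 : ℤ) : K) := by push_cast; ring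
        rw [e2, e3, e4, TrivSqZeroExt.snd_sub, e1, e1, e1, h1, h2, mul_zero, mul_zero,
          sub_zero] at h4
        have h5 : ((((n : ℤ) + 1) ^ 3 : ℤ) : ℚ) ≠ 0 := by
          have : (0 : ℤ) < ((n : ℤ) + 1) ^ 3 := by positivity
          exact_mod_cast this.ne'
        have h6 := (mul_eq_zero.1 h4).resolve_left h5
        push_cast
        exact h6
      · push_cast
        rw [add_sub_cancel_right]
        exact h1
  intro n hn
  have h := (key (N + 1) n (by omega)).1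
  rw [L_ext (N + 1) N (n : ℤ) (by simp; omega) (by simpa using hn)] at h
  exact h

theorem j3_Z (N : ℕ) (x : ℤ) (hN : x.natAbs < N) : (L N x (fun _ => 1)).snd = 0 := by
  rcases le_or_gt 0 x with hx | hx
  · obtain ⟨n, rfl⟩ := Int.eq_ofNat_of_zero_le hx
    exact j3_Z_nat N n (by simpa using hN)
  · obtain ⟨n, hn⟩ := Int.eq_ofNat_of_zero_le (show 0 ≤ -1 - x by omega)
    have h := j3_Z_nat N n (by omega)
    rw [← hn, j3_L_symm] at h
    exact h

theorem L_one (N : ℕ) (x : ℤ) (hN : x.natAbs < N) :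
    L N x (fun _ => 1) = ((uz x : ℤ) : K) := by
  ext
  · rw [L_one_fst N x hN]; simp
  · rw [j3_Z N x hN]; simp

/-- relation B, one term -/
noncomputable def j3_E (x : ℤ) (j : ℕ) : K :=
  3 * (x : K) * (jh j * T x j - jh j * T (x - 1) j) - 2 * (x : K) ^ 2 * (T x j + T (x - 1) j)

noncomputable def j3_G (x : ℤ) (j : ℕ) : K := -4 * ((x : K) - jh j) ^ 2 * T x j

theorem j3_E0 (x : ℤ) : j3_E x 0 = j3_G x 0 := by
  rw [j3_E, j3_G, j3_jh_zero]
  have h := j3_contig0 x
  have he := j3_eps_sq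
  have h1 := j3_eps_T x
  have h2 := j3_eps_T (x - 1)
  generalize T (x - 1) 0 = A at *
  generalize T x 0 = B at *
  generalize (DualNumber.eps : K) = e at *
  generalize (x : K) = y at *
  linear_combination (-2 : K) * h + (-y) * h1 + y * h2 + (2 * (A + B)) * he

theorem j3_Esucc (x : ℤ) (j : ℕ) : j3_E x (j + 1) = j3_G x (j + 1) - j3_G x j := by
  rw [j3_E, j3_G, j3_G, j3_jh_succ, j3_T3, j3_T1]
  have h := j3_T2 x j
  generalize j3_tau x j = t at *
  generalize T x j = B at *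
  generalize jh j = J at *
  generalize (x : K) = y at *
  linear_combination (4 : K) * h

theorem j3_sumE (x : ℤ) (M : ℕ) : ∑ j ∈ range (M + 1), j3_E x j = j3_G x M := by
  induction M with
  | zero => simp [j3_E0]
  | succ M ih => rw [Finset.sum_range_succ, ih, j3_Esucc]; ring

theorem j3_relB (N : ℕ) (x : ℤ) (hN : x.natAbs < N) (hN' : (x - 1).natAbs < N) :
    3 * (x : K) * (L N x jh - L N (x - 1) jh) =
      2 * (x : K) ^ 2 * (L N x (fun _ => 1) + L N (x - 1) (fun _ => 1)) := by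
  have h0 : j3_G x N = 0 := by rw [j3_G, T_eq_zero x N hN, mul_zero]
  have h1 := j3_sumE x N
  rw [h0] at h1
  have h2 : 3 * (x : K) * (L (N + 1) x jh - L (N + 1) (x - 1) jh) -
      2 * (x : K) ^ 2 * (L (N + 1) x (fun _ => 1) + L (N + 1) (x - 1) (fun _ => 1)) =
      ∑ j ∈ range (N + 1), j3_E x j := by
    simp only [L, Finset.mul_sum, ← Finset.sum_sub_distrib, ← Finset.sum_add_distrib]
    refine Finset.sum_congr rfl fun j _ => ?_
    rw [j3_E]; ring
  rw [h1] at h2
  have h3 := sub_eq_zero.1 h2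
  rw [L_ext (N + 1) N x (by omega) (by omega), L_ext (N + 1) N (x - 1) (by omega) (by omega),
    L_ext (N + 1) N x (by omega) (by omega), L_ext (N + 1) N (x - 1) (by omega) (by omega)] at h3
  exact h3

theorem j3_s_nat (N : ℕ) : ∀ n : ℕ, n < N → (L N (n : ℤ) jh).snd = 1 := by
  intro n
  induction n with
  | zero =>
    intro hN
    have h := j3_L_zero N (by omega) jh
    rw [Nat.cast_zero, h, j3_jh_zero]
    simp
  | succ n ih =>
    intro hN
    have ih' := ih (by omega)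
    have h := j3_relB N ((n + 1 : ℕ) : ℤ) (by omega) (by omega)
    rw [L_one N _ (by omega), L_one N _ (by omega)] at h
    have h4 := congrArg TrivSqZeroExt.snd h
    have e1 : ∀ (c : ℤ) (z : K), ((c : K) * z).snd = (c : ℚ) * z.snd := by
      intro c z
      simp
    have e2 : 3 * ((((n + 1 : ℕ) : ℤ)) : K) = (((3 * ((n + 1 : ℕ) : ℤ) : ℤ)) : K) := by push_cast; ring
    have e3 : 2 * ((((n + 1 : ℕ) : ℤ)) : K) ^ 2 * (((uz ((n + 1 : ℕ) : ℤ) : ℤ) : K) +
        ((uz (((n + 1 : ℕ) : ℤ) - 1) : ℤ) : K)) =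
        ((2 * ((n + 1 : ℕ) : ℤ) ^ 2 * (uz ((n + 1 : ℕ) : ℤ) + uz (((n + 1 : ℕ) : ℤ) - 1)) : ℤ) : K) := by
      push_cast; ring
    rw [e2, e3, e1, TrivSqZeroExt.snd_intCast, TrivSqZeroExt.snd_sub] at h4
    have h5 : ((((3 * ((n + 1 : ℕ) : ℤ)) : ℤ)) : ℚ) ≠ 0 := by
      have : (0 : ℤ) < 3 * ((n + 1 : ℕ) : ℤ) := by positivity
      exact_mod_cast this.ne'
    have h6 := (mul_eq_zero.1 h4).resolve_left h5
    have h7 : (((n + 1 : ℕ) : ℤ) - 1) = (n : ℤ) := by push_cast; ring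
    rw [h7, ih'] at h6
    linarith

theorem L_jh_snd (N : ℕ) (x : ℤ) (hN : x.natAbs < N) : (L N x jh).snd = 1 := by
  rcases le_or_gt 0 x with hx | hx
  · obtain ⟨n, rfl⟩ := Int.eq_ofNat_of_zero_le hx
    exact j3_s_nat N n (by simpa using hN)
  · obtain ⟨n, hn⟩ := Int.eq_ofNat_of_zero_le (show 0 ≤ -1 - x by omega)
    have h := j3_s_nat N n (by omega)
    rw [← hn, j3_L_symm] at h
    exact h

theorem L_rel (N : ℕ) (x : ℤ) (hN : x.natAbs < N) :
    (x : K) ^ 3 * ((uz (x - 1) : ℤ) : K) = (12 * (x : K) ^ 2 + 17 * (x : K) ^ 3) * ((uz x : ℤ) : K)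
      - 24 * ((x : K) * ((x : K) + 1)) * L N x jh + 12 * L N x (fun j => jh j ^ 2) := by
  have h := j3_relA (N + 1) x (by omega) (by omega)
  rw [L_one (N + 1) (x - 1) (by omega), L_one (N + 1) x (by omega),
    L_ext (N + 1) N x (by omega) (by omega), L_ext (N + 1) N x (by omega) (by omega)] at h
  exact h

theorem uz_rec (x : ℤ) :
    (x + 1) ^ 3 * uz (x + 1) = (2 * x + 1) * (17 * x ^ 2 + 17 * x + 5) * uz x - x ^ 3 * uz (x - 1) := by
  have h := j3_rec (x.natAbs + 3) x (by omega)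
  rw [L_one _ (x + 1) (by omega), L_one _ x (by omega), L_one _ (x - 1) (by omega)] at h
  have h2 : (((x + 1) ^ 3 * uz (x + 1) : ℤ) : K) =
      (((2 * x + 1) * (17 * x ^ 2 + 17 * x + 5) * uz x - x ^ 3 * uz (x - 1) : ℤ) : K) := by
    push_cast
    exact h
  have h3 := congrArg TrivSqZeroExt.fst h2
  rw [TrivSqZeroExt.fst_intCast, TrivSqZeroExt.fst_intCast] at h3
  exact_mod_cast h3


end J3

end Pool.Agent.Helper468.Apery
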