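import Pool.Agent.Helper468.Apery.Base
import Pool.Agent.Helper468.Apery.J1

set_option autoImplicit false

namespace Pool.Agent.Helper468.Apery

namespace J4

open Finset
open J1



@[simp] theorem fst_two : TrivSqZeroExt.fst (2 : K) = 2 := rfl
@[simp] theorem fst_three : TrivSqZeroExt.fst (3 : K) = 3 := rfl
@[simp] theorem fst_four : TrivSqZeroExt.fst (4 : K) = 4 := rfl
@[simp] theorem fst_five : TrivSqZeroExt.fst (5 : K) = 5 := rfl
@[simp] theorem snd_two : TrivSqZeroExt.snd (2 : K) = 0 := rfl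
@[simp] theorem snd_three : TrivSqZeroExt.snd (3 : K) = 0 := rfl
@[simp] theorem snd_four : TrivSqZeroExt.snd (4 : K) = 0 := rfl
@[simp] theorem snd_five : TrivSqZeroExt.snd (5 : K) = 0 := rfl

theorem isUnit_of_fst (a : K) (h : a.fst ≠ 0) : IsUnit a :=
  TrivSqZeroExt.isUnit_iff_isUnit_fst.mpr (isUnit_iff_ne_zero.mpr h)

theorem q_neg {R : Type*} [CommRing R] (w : R) : q (-5 - w) = q w := by
  unfold q; ring

theorem nn_shift {R : Type*} [CommRing R] (m : ℕ) (z : R) :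
    nn m (z + 5) * q z = nn m z * q (z + 5 * (m : R)) := by
  induction m with
  | zero => simp [nn]
  | succ m ih =>
    unfold nn at ih ⊢
    rw [prod_range_succ, prod_range_succ]
    have h1 : (5 * (m : R) + (z + 5)) = z + 5 * ((m + 1 : ℕ) : R) := by push_cast; ring
    have h2 : (5 * (m : R) + z) = z + 5 * (m : R) := by ring
    rw [h1, h2]
    linear_combination q (z + 5 * ((m + 1 : ℕ) : R)) * ih

theorem dd_shift {R : Type*} [CommRing R] (m : ℕ) (z : R) :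
    dd m (z + 5) * q (z - 5 * (m : R)) = dd m z * q z := by
  induction m with
  | zero => simp [dd]
  | succ m ih =>
    unfold dd at ih ⊢
    rw [prod_range_succ, prod_range_succ]
    have h1 : q (5 * (m : R) - (z + 5)) = q (z - 5 * (m : R)) := by unfold q; ring
    have h2 : q (z - 5 * ((m + 1 : ℕ) : R)) = q (5 * (m : R) - z) := by unfold q; push_cast; ring
    rw [h1, h2]
    linear_combination q (5 * (m : R) - z) * ih

theorem sum_five {R : Type*} [CommRing R] (z s A0 A1 A2 A3 A4 : R)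
    (h1 : (z + 1) ^ 4 * A1 = ((s - z) * (s + z + 1)) ^ 2 * A0)
    (h2 : (z + 2) ^ 4 * A2 = ((s - z - 1) * (s + z + 2)) ^ 2 * A1)
    (h3 : (z + 3) ^ 4 * A3 = ((s - z - 2) * (s + z + 3)) ^ 2 * A2)
    (h4 : (z + 4) ^ 4 * A4 = ((s - z - 3) * (s + z + 4)) ^ 2 * A3) :
    q z ^ 4 * (A0 + A1 + A2 + A3 + A4) = Gnum z s * A0 := by
  have e1 : q z ^ 4 * A1 = (s - z) ^ 2 * ((s + z + 1) ^ 2 * ((z + 2) * (z + 3) * (z + 4)) ^ 4) * A0 := by
    have : q z ^ 4 * A1 = ((z + 2) * (z + 3) * (z + 4)) ^ 4 * ((z + 1) ^ 4 * A1) := by unfold q; ring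
    rw [this, h1]; ring
  have e2 : q z ^ 4 * A2 = (s - z) ^ 2 * ((s + z + 2) ^ 2 * (s ^ 2 - (z + 1) ^ 2) ^ 2
      * ((z + 3) * (z + 4)) ^ 4) * A0 := by
    have h21 : ((z + 1) * (z + 2)) ^ 4 * A2 = (s - z) ^ 2 * (s + z + 2) ^ 2
        * (s ^ 2 - (z + 1) ^ 2) ^ 2 * A0 := by
      have : ((z + 1) * (z + 2)) ^ 4 * A2 = (z + 1) ^ 4 * ((z + 2) ^ 4 * A2) := by ring
      rw [this, h2]
      have : (z + 1) ^ 4 * (((s - z - 1) * (s + z + 2)) ^ 2 * A1)
        = ((s - z - 1) * (s + z + 2)) ^ 2 * ((z + 1) ^ 4 * A1) := by ring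
      rw [this, h1]; ring
    have : q z ^ 4 * A2 = ((z + 3) * (z + 4)) ^ 4 * (((z + 1) * (z + 2)) ^ 4 * A2) := by
      unfold q; ring
    rw [this, h21]; ring
  have h21 : ((z + 1) * (z + 2)) ^ 4 * A2 = (s - z) ^ 2 * (s + z + 2) ^ 2
      * (s ^ 2 - (z + 1) ^ 2) ^ 2 * A0 := by
    have : ((z + 1) * (z + 2)) ^ 4 * A2 = (z + 1) ^ 4 * ((z + 2) ^ 4 * A2) := by ring
    rw [this, h2]
    have : (z + 1) ^ 4 * (((s - z - 1) * (s + z + 2)) ^ 2 * A1)
      = ((s - z - 1) * (s + z + 2)) ^ 2 * ((z + 1) ^ 4 * A1) := by ring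
    rw [this, h1]; ring
  have h31 : ((z + 1) * (z + 2) * (z + 3)) ^ 4 * A3 = (s - z) ^ 2 * (s + z + 3) ^ 2
      * (s ^ 2 - (z + 1) ^ 2) ^ 2 * (s ^ 2 - (z + 2) ^ 2) ^ 2 * A0 := by
    have : ((z + 1) * (z + 2) * (z + 3)) ^ 4 * A3
      = ((z + 1) * (z + 2)) ^ 4 * ((z + 3) ^ 4 * A3) := by ring
    rw [this, h3]
    have : ((z + 1) * (z + 2)) ^ 4 * (((s - z - 2) * (s + z + 3)) ^ 2 * A2)
      = ((s - z - 2) * (s + z + 3)) ^ 2 * (((z + 1) * (z + 2)) ^ 4 * A2) := by ring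
    rw [this, h21]
    have e : ((s - z - 2) * (s + z + 3)) ^ 2 * ((s - z) ^ 2 * (s + z + 2) ^ 2
      * (s ^ 2 - (z + 1) ^ 2) ^ 2 * A0) = (s - z) ^ 2 * (s + z + 3) ^ 2
      * (s ^ 2 - (z + 1) ^ 2) ^ 2 * ((s - z - 2) * (s + z + 2)) ^ 2 * A0 := by ring
    rw [e]
    have : (s - z - 2) * (s + z + 2) = s ^ 2 - (z + 2) ^ 2 := by ring
    rw [this]
  have h41 : ((z + 1) * (z + 2) * (z + 3) * (z + 4)) ^ 4 * A4 = (s - z) ^ 2 * (s + z + 4) ^ 2
      * (s ^ 2 - (z + 1) ^ 2) ^ 2 * (s ^ 2 - (z + 2) ^ 2) ^ 2 * (s ^ 2 - (z + 3) ^ 2) ^ 2 * A0 := by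
    have : ((z + 1) * (z + 2) * (z + 3) * (z + 4)) ^ 4 * A4
      = ((z + 1) * (z + 2) * (z + 3)) ^ 4 * ((z + 4) ^ 4 * A4) := by ring
    rw [this, h4]
    have : ((z + 1) * (z + 2) * (z + 3)) ^ 4 * (((s - z - 3) * (s + z + 4)) ^ 2 * A3)
      = ((s - z - 3) * (s + z + 4)) ^ 2 * (((z + 1) * (z + 2) * (z + 3)) ^ 4 * A3) := by ring
    rw [this, h31]
    have e : ((s - z - 3) * (s + z + 4)) ^ 2 * ((s - z) ^ 2 * (s + z + 3) ^ 2
      * (s ^ 2 - (z + 1) ^ 2) ^ 2 * (s ^ 2 - (z + 2) ^ 2) ^ 2 * A0) = (s - z) ^ 2 * (s + z + 4) ^ 2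
      * (s ^ 2 - (z + 1) ^ 2) ^ 2 * (s ^ 2 - (z + 2) ^ 2) ^ 2 * ((s - z - 3) * (s + z + 3)) ^ 2 * A0 := by
      ring
    rw [e]
    have : (s - z - 3) * (s + z + 3) = s ^ 2 - (z + 3) ^ 2 := by ring
    rw [this]
  have e3 : q z ^ 4 * A3 = (s - z) ^ 2 * ((s + z + 3) ^ 2 * (s ^ 2 - (z + 1) ^ 2) ^ 2
      * (s ^ 2 - (z + 2) ^ 2) ^ 2 * (z + 4) ^ 4) * A0 := by
    have : q z ^ 4 * A3 = (z + 4) ^ 4 * (((z + 1) * (z + 2) * (z + 3)) ^ 4 * A3) := by
      unfold q; ring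
    rw [this, h31]; ring
  have e4 : q z ^ 4 * A4 = (s - z) ^ 2 * ((s + z + 4) ^ 2 * (s ^ 2 - (z + 1) ^ 2) ^ 2
      * (s ^ 2 - (z + 2) ^ 2) ^ 2 * (s ^ 2 - (z + 3) ^ 2) ^ 2) * A0 := by
    have : q z ^ 4 * A4 = ((z + 1) * (z + 2) * (z + 3) * (z + 4)) ^ 4 * A4 := by
      unfold q; ring
    rw [this, h41]; ring
  have e0 : q z ^ 4 * A0 = ((z + 1) * (z + 2) * (z + 3) * (z + 4)) ^ 4 * A0 := by unfold q; ring
  rw [mul_add, mul_add, mul_add, mul_add, e0, e1, e2, e3, e4]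
  unfold Gnum
  have key : ∀ X W a b c d A : R, X * A + W * a * A + W * b * A + W * c * A + W * d * A
      = (X + W * (a + b + c + d)) * A := by intros; ring
  exact key _ _ _ _ _ _ _

theorem five_step {R : Type*} [CommRing R] (z s A0 A1 A2 A3 A4 A5 : R)
    (h1 : (z + 1) ^ 4 * A1 = ((s - z) * (s + z + 1)) ^ 2 * A0)
    (h2 : (z + 2) ^ 4 * A2 = ((s - z - 1) * (s + z + 2)) ^ 2 * A1)
    (h3 : (z + 3) ^ 4 * A3 = ((s - z - 2) * (s + z + 3)) ^ 2 * A2)
    (h4 : (z + 4) ^ 4 * A4 = ((s - z - 3) * (s + z + 4)) ^ 2 * A3)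
    (h5 : (z + 5) ^ 4 * A5 = ((s - z - 4) * (s + z + 5)) ^ 2 * A4) :
    (z + 5) ^ 4 * q z ^ 4 * A5 = ((s - z) * (s + z + 5)) ^ 2 * (q (z - s) * q (z + s)) ^ 2 * A0 := by
  have g2 : ((z + 1) * (z + 2)) ^ 4 * A2
      = ((s - z) * (s + z + 1) * ((s - z - 1) * (s + z + 2))) ^ 2 * A0 := by
    calc ((z + 1) * (z + 2)) ^ 4 * A2 = (z + 1) ^ 4 * ((z + 2) ^ 4 * A2) := by ring
      _ = ((s - z - 1) * (s + z + 2)) ^ 2 * ((z + 1) ^ 4 * A1) := by rw [h2]; ring
      _ = _ := by rw [h1]; ring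
  have g3 : ((z + 1) * (z + 2) * (z + 3)) ^ 4 * A3
      = ((s - z) * (s + z + 1) * ((s - z - 1) * (s + z + 2)) * ((s - z - 2) * (s + z + 3))) ^ 2
        * A0 := by
    calc ((z + 1) * (z + 2) * (z + 3)) ^ 4 * A3
        = ((z + 1) * (z + 2)) ^ 4 * ((z + 3) ^ 4 * A3) := by rw [mul_pow _ (z + 3), mul_assoc]
      _ = ((s - z - 2) * (s + z + 3)) ^ 2 * (((z + 1) * (z + 2)) ^ 4 * A2) := by
          rw [h3, mul_left_comm]
      _ = _ := by rw [g2, ← mul_assoc, ← mul_pow]; congr 2; ring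
  have g4 : ((z + 1) * (z + 2) * (z + 3) * (z + 4)) ^ 4 * A4
      = ((s - z) * (s + z + 1) * ((s - z - 1) * (s + z + 2)) * ((s - z - 2) * (s + z + 3))
        * ((s - z - 3) * (s + z + 4))) ^ 2 * A0 := by
    calc ((z + 1) * (z + 2) * (z + 3) * (z + 4)) ^ 4 * A4
        = ((z + 1) * (z + 2) * (z + 3)) ^ 4 * ((z + 4) ^ 4 * A4) := by rw [mul_pow _ (z + 4), mul_assoc]
      _ = ((s - z - 3) * (s + z + 4)) ^ 2 * (((z + 1) * (z + 2) * (z + 3)) ^ 4 * A3) := by
          rw [h4, mul_left_comm]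
      _ = _ := by rw [g3, ← mul_assoc, ← mul_pow]; congr 2; ring
  have hq : ((z + 1) * (z + 2) * (z + 3) * (z + 4)) = q z := rfl
  rw [hq] at g4
  calc (z + 5) ^ 4 * q z ^ 4 * A5 = q z ^ 4 * ((z + 5) ^ 4 * A5) := by ring
    _ = ((s - z - 4) * (s + z + 5)) ^ 2 * (q z ^ 4 * A4) := by rw [h5, mul_left_comm]
    _ = _ := by
      rw [g4, ← mul_assoc, ← mul_pow, ← mul_pow]
      congr 2
      unfold q
      ring

noncomputable def EE (t : ℚ) : K := 1 + TrivSqZeroExt.inr t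

theorem EE_mul (s t : ℚ) : EE s * EE t = EE (s + t) := by
  unfold EE
  ext
  · simp
  · simp; ring

theorem EE_zero : EE 0 = 1 := by unfold EE; simp

def Sa (a : ℕ) : ℚ := 1 / (5 * a + 1) + 1 / (5 * a + 2) + 1 / (5 * a + 3) + 1 / (5 * a + 4)

theorem q_eps (a : ℕ) : q (5 * (a : K) + 5 * DualNumber.eps)
    = TrivSqZeroExt.inl (q (5 * (a : ℚ))) * EE (5 * Sa a) := by
  have h1 : (5 * (a : ℚ) + 1) ≠ 0 := by positivity
  have h2 : (5 * (a : ℚ) + 2) ≠ 0 := by positivity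
  have h3 : (5 * (a : ℚ) + 3) ≠ 0 := by positivity
  have h4 : (5 * (a : ℚ) + 4) ≠ 0 := by positivity
  unfold q EE Sa
  ext
  · simp
  · simp
    field_simp
    ring

theorem q_eps' (a : ℕ) : q (5 * (a : K) - 5 * DualNumber.eps)
    = TrivSqZeroExt.inl (q (5 * (a : ℚ))) * EE (-(5 * Sa a)) := by
  have h1 : (5 * (a : ℚ) + 1) ≠ 0 := by positivity
  have h2 : (5 * (a : ℚ) + 2) ≠ 0 := by positivity
  have h3 : (5 * (a : ℚ) + 3) ≠ 0 := by positivity
  have h4 : (5 * (a : ℚ) + 4) ≠ 0 := by positivity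
  unfold q EE Sa
  ext
  · simp
  · simp
    field_simp
    ring

theorem nn_eps (m : ℕ) : nn m (5 * DualNumber.eps : K)
    = TrivSqZeroExt.inl (∏ a ∈ range m, q (5 * (a : ℚ))) * EE (5 * ∑ a ∈ range m, Sa a) := by
  induction m with
  | zero => simp [nn, EE_zero]
  | succ m ih =>
    unfold nn at ih ⊢
    rw [prod_range_succ, ih, q_eps, prod_range_succ, sum_range_succ, TrivSqZeroExt.inl_mul, mul_add,
      ← EE_mul]
    ring

theorem dd_eps (m : ℕ) : dd m (5 * DualNumber.eps : K)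
    = TrivSqZeroExt.inl (∏ a ∈ range m, q (5 * (a : ℚ))) * EE (-(5 * ∑ a ∈ range m, Sa a)) := by
  induction m with
  | zero => simp [dd, EE_zero]
  | succ m ih =>
    unfold dd at ih ⊢
    rw [prod_range_succ, ih, q_eps', prod_range_succ, sum_range_succ, TrivSqZeroExt.inl_mul, mul_add,
      neg_add, ← EE_mul]
    ring

theorem harm_block (m : ℕ) : harmonic (5 * m) = (harmonic m) / 5 + ∑ a ∈ range m, Sa a := by
  induction m with
  | zero => simp
  | succ m ih =>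
    have e : 5 * (m + 1) = 5 * m + 1 + 1 + 1 + 1 + 1 := by ring
    rw [e, harmonic_succ, harmonic_succ, harmonic_succ, harmonic_succ, harmonic_succ, harmonic_succ,
      ih, sum_range_succ]
    unfold Sa
    push_cast
    have h1 : (5 * (m : ℚ) + 1) ≠ 0 := by positivity
    have h2 : (5 * (m : ℚ) + 2) ≠ 0 := by positivity
    have h3 : (5 * (m : ℚ) + 3) ≠ 0 := by positivity
    have h4 : (5 * (m : ℚ) + 4) ≠ 0 := by positivity
    have h5 : ((m : ℚ) + 1) ≠ 0 := by positivity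
    have i2 : (5 * (m : ℚ) + 1 + 1) = 5 * m + 2 := by ring
    have i3 : (5 * (m : ℚ) + 2 + 1) = 5 * m + 3 := by ring
    have i4 : (5 * (m : ℚ) + 3 + 1) = 5 * m + 4 := by ring
    have i5 : (5 * (m : ℚ) + 4 + 1) = 5 * (m + 1) := by ring
    rw [i5, i4, i3, i2]
    rw [mul_inv]
    ring

theorem harm_block' (m : ℕ) (hm : 0 < m) :
    harmonic (5 * m - 1) = (harmonic (m - 1)) / 5 + ∑ a ∈ range m, Sa a := by
  obtain ⟨k, rfl⟩ : ∃ k, m = k + 1 := ⟨m - 1, by omega⟩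
  have h := harm_block (k + 1)
  have e : 5 * (k + 1) = 5 * k + 4 + 1 := by ring
  rw [e, harmonic_succ (5 * k + 4), harmonic_succ k] at h
  have e' : 5 * (k + 1) - 1 = 5 * k + 4 := by omega
  rw [e', Nat.add_sub_cancel]
  have h5 : ((k : ℚ) + 1) ≠ 0 := by positivity
  have i5 : (((5 * k + 4 + 1 : ℕ) : ℚ))⁻¹ = ((k + 1 : ℕ) : ℚ)⁻¹ / 5 := by
    push_cast
    rw [show (5 * (k : ℚ) + 4 + 1) = 5 * (k + 1) by ring, mul_inv]; ring
  rw [i5] at h
  linarith

theorem Hz_five (x : ℤ) : Hz (5 * x) = Hz x / 5 + ∑ a ∈ range x.natAbs, Sa a := by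
  unfold Hz
  rcases lt_or_ge x 0 with hx | hx
  · have e1 : idx (5 * x) = 5 * x.natAbs - 1 := by
      unfold idx; rw [if_neg (by omega)]; omega
    have e2 : idx x = x.natAbs - 1 := by
      unfold idx; rw [if_neg (by omega)]; omega
    rw [e1, e2]
    exact harm_block' _ (by omega)
  · have e1 : idx (5 * x) = 5 * x.natAbs := by
      unfold idx; rw [if_pos (by omega)]; omega
    have e2 : idx x = x.natAbs := by
      unfold idx; rw [if_pos (by omega)]; omega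
    rw [e1, e2]
    exact harm_block _

theorem sig_jh (j r : ℕ) : sig (jh (5 * j + r)) = 5 * jh j + r := by
  unfold sig jh
  ext
  · simp
  · simp

theorem sig_T_succ (x : ℤ) (j r : ℕ) :
    (5 * jh j + r + 1) ^ 4 * sig (T (5 * x) (5 * j + (r + 1)))
      = ((5 * (x : K) - 5 * jh j - r) * (5 * (x : K) + 5 * jh j + r + 1)) ^ 2
        * sig (T (5 * x) (5 * j + r)) := by
  have h := congrArg sig (T_succ (5 * x) (5 * j + r))
  simp only [map_mul, map_pow, map_add, map_sub, map_one, sig_jh, map_intCast] at h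
  rw [← add_assoc]
  push_cast at h
  rw [h]
  ring

theorem claimP (x : ℤ) (j : ℕ) :
    dd x.natAbs (5 * jh j) ^ 2 * sig (T (5 * x) (5 * j)) = nn x.natAbs (5 * jh j) ^ 2 * T x j := by
  induction j with
  | zero =>
    have e : 5 * jh 0 = (5 * DualNumber.eps : K) := by unfold jh; simp
    rw [e, dd_eps, nn_eps]
    have t1 : sig (T (5 * x) (5 * 0)) = EE (20 * Hz (5 * x)) := by
      simp only [mul_zero, T]
      unfold sig EE
      ext
      · simp
      · simp; ring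
    have t2 : T x 0 = EE (4 * Hz x) := rfl
    rw [t1, t2, Hz_five, mul_pow, mul_pow, sq (EE _), sq (EE _), EE_mul, EE_mul, mul_assoc, mul_assoc,
      EE_mul, EE_mul]
    congr 2
    ring
  | succ j ih =>
    set m := x.natAbs with hm
    have e : 5 * jh (j + 1) = 5 * jh j + 5 := by unfold jh; push_cast; ring
    have r0 := sig_T_succ x j 0
    have r1 := sig_T_succ x j 1
    have r2 := sig_T_succ x j 2
    have r3 := sig_T_succ x j 3
    have r4 := sig_T_succ x j 4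
    have h5 := five_step (5 * jh j) (5 * (x : K)) (sig (T (5 * x) (5 * j)))
      (sig (T (5 * x) (5 * j + 1))) (sig (T (5 * x) (5 * j + 2))) (sig (T (5 * x) (5 * j + 3)))
      (sig (T (5 * x) (5 * j + 4))) (sig (T (5 * x) (5 * j + 5)))
      (by simpa using r0)
      (by push_cast at r1; convert r1 using 2 <;> ring)
      (by push_cast at r2; convert r2 using 2 <;> ring)
      (by push_cast at r3; convert r3 using 2 <;> ring)
      (by push_cast at r4; convert r4 using 2 <;> ring)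
    have e5 : 5 * (j + 1) = 5 * j + 5 := by ring
    rw [e, e5]
    set A0 := sig (T (5 * x) (5 * j)) with hA0
    set A5 := sig (T (5 * x) (5 * j + 5)) with hA5
    have hT := T_succ x j
    have hn := nn_shift m (5 * jh j)
    have hd := dd_shift m (5 * jh j)
    have hq : q (5 * jh j + 5 * (m : K)) * q (5 * jh j - 5 * (m : K))
        = q (5 * jh j - 5 * (x : K)) * q (5 * jh j + 5 * (x : K)) := by
      rcases Int.natAbs_eq x with hx | hx
      · have : (x : K) = (m : K) := by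
          rw [hx, ← hm]; simp
        rw [this, mul_comm]
      · have : (x : K) = -(m : K) := by
          rw [hx, ← hm]; simp
        rw [this]
        congr 2 <;> ring
    have u1 : IsUnit (jh j + 1) := by
      apply isUnit_of_fst
      unfold jh
      simp
      positivity
    have u2 : IsUnit (q (5 * jh j)) := by
      apply isUnit_of_fst
      unfold q jh
      simp
      refine ⟨⟨⟨?_, ?_⟩, ?_⟩, ?_⟩ <;> positivity
    have u3 : IsUnit (q (5 * jh j - 5 * (m : K))) := by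
      apply isUnit_of_fst
      have e1 : (q (5 * jh j - 5 * (m : K))).fst
          = ((q (5 * (j : ℤ) - 5 * (m : ℤ)) : ℤ) : ℚ) := by
        unfold q jh
        simp
      rw [e1]
      have : q (5 * (j : ℤ) - 5 * (m : ℤ)) ≠ 0 := by
        unfold q
        refine mul_ne_zero (mul_ne_zero (mul_ne_zero ?_ ?_) ?_) ?_ <;> omega
      exact_mod_cast this
    have U : IsUnit ((jh j + 1) ^ 4 * q (5 * jh j) ^ 4 * q (5 * jh j - 5 * (m : K)) ^ 2 * 625) := by
      refine ((((u1.pow 4).mul (u2.pow 4)).mul (u3.pow 2))).mul ?_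
      apply isUnit_of_fst
      have : ((625 : K)).fst = 625 := rfl
      rw [this]; norm_num
    refine U.mul_left_cancel ?_
    have s1 : 625 * (jh j + 1) ^ 4 = (5 * jh j + 5) ^ 4 := by ring
    calc (jh j + 1) ^ 4 * q (5 * jh j) ^ 4 * q (5 * jh j - 5 * (m : K)) ^ 2 * 625
          * (dd m (5 * jh j + 5) ^ 2 * A5)
        = (dd m (5 * jh j + 5) * q (5 * jh j - 5 * (m : K))) ^ 2
          * (((5 * jh j + 5) ^ 4) * q (5 * jh j) ^ 4 * A5) := by rw [← s1]; ring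
      _ = (dd m (5 * jh j) * q (5 * jh j)) ^ 2 * (((5 * (x : K) - 5 * jh j)
          * (5 * (x : K) + 5 * jh j + 5)) ^ 2 * (q (5 * jh j - 5 * (x : K))
          * q (5 * jh j + 5 * (x : K))) ^ 2 * A0) := by rw [hd, h5]
      _ = q (5 * jh j) ^ 2 * ((5 * (x : K) - 5 * jh j)
          * (5 * (x : K) + 5 * jh j + 5)) ^ 2 * (q (5 * jh j - 5 * (x : K))
          * q (5 * jh j + 5 * (x : K))) ^ 2 * (dd m (5 * jh j) ^ 2 * A0) := by ring
      _ = q (5 * jh j) ^ 2 * ((5 * (x : K) - 5 * jh j)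
          * (5 * (x : K) + 5 * jh j + 5)) ^ 2 * (q (5 * jh j - 5 * (x : K))
          * q (5 * jh j + 5 * (x : K))) ^ 2 * (nn m (5 * jh j) ^ 2 * T x j) := by rw [ih]
      _ = q (5 * jh j) ^ 2 * (nn m (5 * jh j) * q (5 * jh j + 5 * (m : K))) ^ 2
          * q (5 * jh j - 5 * (m : K)) ^ 2 * 625
          * ((((x : K) - jh j) * ((x : K) + jh j + 1)) ^ 2 * T x j) := by
          rw [← hq]; ring
      _ = _ := by rw [← hn, ← hT]; ring

theorem dec (x : ℤ) (j : ℕ) :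
    dd x.natAbs (5 * jh j) ^ 2 * q (5 * jh j) ^ 4 * (∑ r ∈ range 5, sig (T (5 * x) (5 * j + r)))
      = nn x.natAbs (5 * jh j) ^ 2 * Gnum (5 * jh j) (5 * (x : K)) * T x j := by
  have r0 := sig_T_succ x j 0
  have r1 := sig_T_succ x j 1
  have r2 := sig_T_succ x j 2
  have r3 := sig_T_succ x j 3
  have h5 := sum_five (5 * jh j) (5 * (x : K)) (sig (T (5 * x) (5 * j)))
    (sig (T (5 * x) (5 * j + 1))) (sig (T (5 * x) (5 * j + 2))) (sig (T (5 * x) (5 * j + 3)))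
    (sig (T (5 * x) (5 * j + 4)))
    (by simpa using r0)
    (by push_cast at r1; convert r1 using 2 <;> ring)
    (by push_cast at r2; convert r2 using 2 <;> ring)
    (by push_cast at r3; convert r3 using 2 <;> ring)
  have hs : ∑ r ∈ range 5, sig (T (5 * x) (5 * j + r)) = sig (T (5 * x) (5 * j))
      + sig (T (5 * x) (5 * j + 1)) + sig (T (5 * x) (5 * j + 2)) + sig (T (5 * x) (5 * j + 3))
      + sig (T (5 * x) (5 * j + 4)) := by
    simp only [sum_range_succ, sum_range_zero, zero_add, add_zero]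
  rw [hs, mul_assoc, h5]
  have hP := claimP x j
  linear_combination Gnum (5 * jh j) (5 * (x : K)) * hP


end J4

end Pool.Agent.Helper468.Apery
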