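import Pool.Agent.Helper468.Apery.Base

set_option autoImplicit false

namespace Pool.Agent.Helper468.Apery

namespace J5

open Finset


open Polynomial in
theorem red_coeff {A : Type} [CommRing A] (a : A) (m : ℕ) :
    (∀ i, m + 4 ≤ i → ((C a - X ^ 2 - X) ^ 2 * (X + 1) ^ m - X ^ (m + 4) : A[X]).coeff i = 0) ∧
    ((C a - X ^ 2 - X) ^ 2 * (X + 1) ^ m - X ^ (m + 4) : A[X]).coeff (m + 3) = (m : A) + 2 := by
  induction m with
  | zero =>
    have h : ((C a - X ^ 2 - X) ^ 2 * (X + 1) ^ 0 - X ^ (0 + 4) : A[X])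
        = C 2 * X ^ 3 + C (1 - 2 * a) * X ^ 2 + C (-(2 * a)) * X ^ 1 + C (a ^ 2) * X ^ 0 := by
      have h2 : (C 2 : A[X]) = 2 := rfl
      simp only [map_sub, map_mul, map_neg, map_pow, map_one, h2]
      ring
    rw [h]
    constructor
    · intro i hi
      simp only [coeff_add, coeff_C_mul_X_pow]
      rw [if_neg (by omega), if_neg (by omega), if_neg (by omega), if_neg (by omega)]
      simp
    · simp only [coeff_add, coeff_C_mul_X_pow]
      simp
  | succ m ih =>
    obtain ⟨ih1, ih2⟩ := ih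
    set P : A[X] := (C a - X ^ 2 - X) ^ 2 * (X + 1) ^ m - X ^ (m + 4) with hP
    have h : ((C a - X ^ 2 - X) ^ 2 * (X + 1) ^ (m + 1) - X ^ (m + 1 + 4) : A[X])
        = P * X + P + X ^ (m + 4) := by
      rw [hP]; ring
    rw [h]
    constructor
    · intro i hi
      obtain ⟨j, rfl⟩ : ∃ j, i = j + 1 := ⟨i - 1, by omega⟩
      rw [coeff_add, coeff_add, coeff_mul_X, ih1 j (by omega), ih1 (j + 1) (by omega),
        coeff_X_pow, if_neg (by omega)]
      simp
    · rw [show m + 1 + 3 = (m + 3) + 1 by ring, coeff_add, coeff_add, coeff_mul_X, ih2,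
        ih1 (m + 3 + 1) (by omega), coeff_X_pow, if_pos (by omega)]
      push_cast
      ring

open Polynomial in
theorem red : ∃ c : ℕ → Fin 3 → Polynomial ℤ,
    c 0 = ![1, 0, 0] ∧ c 1 = ![0, 1, 0] ∧ c 2 = ![0, 0, 1] ∧
    ∀ (X' : ℤ) (Λ : Polynomial ℚ →ₗ[ℚ] DualNumber ℚ),
      (∀ m : ℕ, Λ ((C (X' : ℚ) - X ^ 2 - X) ^ 2 * (X + 1) ^ m - X ^ (m + 4)) = 0) →
      ∀ k : ℕ, (((k - 1).factorial : ℕ) : ℚ) • Λ (X ^ k)
        = ∑ i : Fin 3, (((c k i).eval X' : ℤ) : ℚ) • Λ (X ^ (i : ℕ)) := by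
  have key : ∀ k : ℕ, ∃ ck : Fin 3 → Polynomial ℤ,
      (k = 0 → ck = ![1, 0, 0]) ∧ (k = 1 → ck = ![0, 1, 0]) ∧ (k = 2 → ck = ![0, 0, 1]) ∧
      ∀ (X' : ℤ) (Λ : Polynomial ℚ →ₗ[ℚ] DualNumber ℚ),
      (∀ m : ℕ, Λ ((C (X' : ℚ) - X ^ 2 - X) ^ 2 * (X + 1) ^ m - X ^ (m + 4)) = 0) →
      (((k - 1).factorial : ℕ) : ℚ) • Λ (X ^ k)
        = ∑ i : Fin 3, (((ck i).eval X' : ℤ) : ℚ) • Λ (X ^ (i : ℕ)) := by
    intro k
    induction k using Nat.strong_induction_on with
    | _ k ih =>
      rcases (by omega : k = 0 ∨ k = 1 ∨ k = 2 ∨ 3 ≤ k) with rfl | rfl | rfl | hk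
      · refine ⟨![1, 0, 0], fun _ => rfl, by omega, by omega, ?_⟩
        intro X' Λ _
        simp [Fin.sum_univ_three]
      · refine ⟨![0, 1, 0], by omega, fun _ => rfl, by omega, ?_⟩
        intro X' Λ _
        simp [Fin.sum_univ_three]
      · refine ⟨![0, 0, 1], by omega, by omega, fun _ => rfl, ?_⟩
        intro X' Λ _
        simp [Fin.sum_univ_three]
      · obtain ⟨m, rfl⟩ : ∃ m, k = m + 3 := ⟨k - 3, by omega⟩
        have ih' : ∀ i : ℕ, ∃ ci : Fin 3 → Polynomial ℤ, i < m + 3 →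
            ∀ (X' : ℤ) (Λ : Polynomial ℚ →ₗ[ℚ] DualNumber ℚ),
            (∀ m : ℕ, Λ ((C (X' : ℚ) - X ^ 2 - X) ^ 2 * (X + 1) ^ m - X ^ (m + 4)) = 0) →
            (((i - 1).factorial : ℕ) : ℚ) • Λ (X ^ i)
              = ∑ j : Fin 3, (((ci j).eval X' : ℤ) : ℚ) • Λ (X ^ (j : ℕ)) := by
          intro i
          by_cases hi : i < m + 3
          · obtain ⟨ci, _, _, _, h⟩ := ih i hi
            exact ⟨ci, fun _ => h⟩
          · exact ⟨0, fun h => (hi h).elim⟩
        choose c hc using ih'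
        set D : (Polynomial ℤ)[X] := (C (X : ℤ[X]) - X ^ 2 - X) ^ 2 * (X + 1) ^ m - X ^ (m + 4)
          with hD
        refine ⟨fun j => -∑ i ∈ range (m + 3),
          D.coeff i * C (((m + 1).factorial / (i - 1).factorial : ℕ) : ℤ) * c i j,
          by omega, by omega, by omega, ?_⟩
        intro X' Λ hΛ
        set φ : ℤ[X] →+* ℚ := (Int.castRingHom ℚ).comp (evalRingHom X') with hφ
        have hφv : ∀ p : ℤ[X], φ p = ((p.eval X' : ℤ) : ℚ) := fun p => rfl
        have hmap : D.map φ = (C (X' : ℚ) - X ^ 2 - X) ^ 2 * (X + 1) ^ m - X ^ (m + 4) := by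
          rw [hD]
          simp only [Polynomial.map_sub, Polynomial.map_mul, Polynomial.map_pow,
            Polynomial.map_add, Polynomial.map_X, Polynomial.map_one, Polynomial.map_C]
          rw [hφv, eval_X]
        obtain ⟨hc0, hc1⟩ := red_coeff (X' : ℚ) m
        rw [← hmap] at hc0 hc1
        have hnd : (D.map φ).natDegree ≤ m + 3 := by
          rw [natDegree_le_iff_coeff_eq_zero]
          intro N hN
          exact hc0 N (by omega)
        have hsum := (D.map φ).as_sum_range' (m + 4) (by omega)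
        have h0 := hΛ m
        rw [← hmap, hsum, map_sum, Finset.sum_range_succ] at h0
        have hmon : ∀ i, Λ (monomial i ((D.map φ).coeff i)) = φ (D.coeff i) • Λ (X ^ i) := by
          intro i
          rw [← smul_X_eq_monomial, map_smul, coeff_map]
        simp only [hmon] at h0
        rw [coeff_map] at hc1
        rw [hc1] at h0
        have h1 : ((m : ℚ) + 2) • Λ (X ^ (m + 3))
            = -∑ i ∈ range (m + 3), φ (D.coeff i) • Λ (X ^ i) :=
          eq_neg_of_add_eq_zero_right h0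
        have h2 : (((m + 3 - 1).factorial : ℕ) : ℚ) = ((m + 1).factorial : ℚ) * ((m : ℚ) + 2) := by
          rw [show m + 3 - 1 = (m + 1) + 1 by omega, Nat.factorial_succ]
          push_cast
          ring
        rw [h2, mul_smul, h1]
        have h3 : ∀ i ∈ range (m + 3), ((m + 1).factorial : ℚ) • (φ (D.coeff i) • Λ (X ^ i))
            = ∑ j : Fin 3, (φ (D.coeff i) * (((m + 1).factorial / (i - 1).factorial : ℕ) : ℚ)
                * φ (c i j)) • Λ (X ^ (j : ℕ)) := by
          intro i hi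
          rw [Finset.mem_range] at hi
          have hdvd : (i - 1).factorial ∣ (m + 1).factorial := Nat.factorial_dvd_factorial (by omega)
          have h4 : ((m + 1).factorial : ℚ)
              = (((m + 1).factorial / (i - 1).factorial : ℕ) : ℚ) * ((i - 1).factorial : ℚ) := by
            rw [← Nat.cast_mul, Nat.div_mul_cancel hdvd]
          rw [smul_smul, h4]
          have h5 : (((m + 1).factorial / (i - 1).factorial : ℕ) : ℚ) * ((i - 1).factorial : ℚ)
              * φ (D.coeff i)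
              = (φ (D.coeff i) * (((m + 1).factorial / (i - 1).factorial : ℕ) : ℚ))
                * ((i - 1).factorial : ℚ) := by ring
          rw [h5, mul_smul, hc i hi X' Λ hΛ, Finset.smul_sum]
          apply Finset.sum_congr rfl
          intro j _
          rw [smul_smul, hφv (c i j)]
        rw [smul_neg, Finset.smul_sum, Finset.sum_congr rfl h3, Finset.sum_comm,
          ← Finset.sum_neg_distrib]
        apply Finset.sum_congr rfl
        intro j _
        rw [← Finset.sum_smul, ← neg_smul, ← hφv, map_neg, map_sum]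
        congr 2
        apply Finset.sum_congr rfl
        intro i _
        rw [map_mul, map_mul]
        congr 2
        rw [hφv, eval_C]
        norm_cast
  choose c hc using key
  refine ⟨c, (hc 0).1 rfl, (hc 1).2.1 rfl, (hc 2).2.2.1 rfl, ?_⟩
  intro X' Λ hΛ k
  exact (hc k).2.2.2 X' Λ hΛ


end J5

end Pool.Agent.Helper468.Apery
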