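import Pool.Agent.Helper468.Apery.Base

set_option autoImplicit false

namespace Pool.Agent.Helper468.Apery

namespace J6

open Finset


theorem map_q {R S : Type*} [CommRing R] [CommRing S] (f : R →+* S) (z : R) : f (q z) = q (f z) := by
  simp [q, map_ofNat]

theorem map_nn {R S : Type*} [CommRing R] [CommRing S] (f : R →+* S) (m : ℕ) (z : R) :
    f (nn m z) = nn m (f z) := by
  simp only [nn, map_prod, map_q, map_add, map_mul, map_natCast, map_ofNat]

theorem map_dd {R S : Type*} [CommRing R] [CommRing S] (f : R →+* S) (m : ℕ) (z : R) :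
    f (dd m z) = dd m (f z) := by
  simp only [dd, map_prod, map_q, map_sub, map_mul, map_natCast, map_ofNat]

theorem map_Gnum {R S : Type*} [CommRing R] [CommRing S] (f : R →+* S) (z s : R) :
    f (Gnum z s) = Gnum (f z) (f s) := by
  simp [Gnum, map_ofNat]

/-! ### products over integer intervals -/

def F {A : Type*} [CommRing A] (f : ℤ → A) (s : ℤ) (n : ℕ) : A := ∏ i ∈ range n, f (s + i)

theorem F_add {A : Type*} [CommRing A] (f : ℤ → A) (s : ℤ) (n m : ℕ) :
    F f s (n + m) = F f s n * F f (s + n) m := by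
  unfold F
  rw [prod_range_add]
  congr 1
  apply prod_congr rfl
  intro i _
  congr 1
  push_cast
  ring

theorem F_period_succ {A : Type*} [CommRing A] (f : ℤ → A) (T : ℕ) (hT : 0 < T)
    (hf : ∀ a, f (a + T) = f a) (s : ℤ) : F f (s + 1) T = F f s T := by
  obtain ⟨T', rfl⟩ : ∃ T', T = T' + 1 := ⟨T - 1, by omega⟩
  unfold F
  rw [prod_range_succ, prod_range_succ']
  congr 1
  · apply prod_congr rfl
    intro i _
    congr 1
    push_cast
    ring
  · have := hf s
    push_cast at this ⊢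
    rw [add_zero, ← this]
    congr 1
    ring

theorem F_period {A : Type*} [CommRing A] (f : ℤ → A) (T : ℕ) (hT : 0 < T)
    (hf : ∀ a, f (a + T) = f a) (s : ℤ) : F f s T = F f 0 T := by
  induction s using Int.induction_on with
  | zero => rfl
  | succ i ih => rw [F_period_succ f T hT hf, ih]
  | pred i ih =>
    rw [← ih, ← F_period_succ f T hT hf]
    congr 1
    ring

theorem F_period_mul {A : Type*} [CommRing A] (f : ℤ → A) (T : ℕ) (hT : 0 < T)
    (hf : ∀ a, f (a + T) = f a) (k : ℕ) (s : ℤ) : F f s (T * k) = F f 0 T ^ k := by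
  induction k generalizing s with
  | zero => simp [F]
  | succ k ih =>
    rw [Nat.mul_succ, F_add, ih, F_period f T hT hf (s + _), pow_succ]

theorem nn_eq {A : Type*} [CommRing A] (m : ℕ) (z : A) :
    nn m z = F (fun a : ℤ => q (5 * (a : A) + z)) 0 m := by
  unfold nn F
  apply prod_congr rfl
  intro a _
  simp

theorem dd_eq {A : Type*} [CommRing A] (m : ℕ) (z : A) :
    dd m z = F (fun a : ℤ => q (5 * (a : A) + z)) (-m) m := by
  unfold dd F
  rw [← prod_range_reflect]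
  apply prod_congr rfl
  intro a ha
  rw [mem_range] at ha
  have e : ((m - 1 - a : ℕ) : A) = (m : A) - 1 - a := by
    have : m = (m - 1 - a) + a + 1 := by omega
    have h2 : (m : A) = ((m - 1 - a : ℕ) : A) + a + 1 := by
      conv_lhs => rw [this]
      push_cast
      ring
    rw [h2]
    ring
  rw [e]
  simp only [q]
  push_cast
  ring

theorem cross {A : Type*} [CommRing A] (e : ℕ) (h5 : (5 : A) ^ (e + 1) = 0) (z : A) (m m' : ℕ)
    (h : ((5 : ℤ) ^ e ∣ (m : ℤ) - m') ∨ ((5 : ℤ) ^ e ∣ (m : ℤ) + m')) :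
    nn m z * dd m' z = nn m' z * dd m z := by
  set f : ℤ → A := fun a : ℤ => q (5 * (a : A) + z) with hf
  have hper : ∀ a, f (a + (5 ^ e : ℕ)) = f a := by
    intro a
    simp only [hf]
    congr 1
    push_cast
    have : (5 : A) * 5 ^ e = 0 := by rw [← pow_succ']; exact h5
    linear_combination this
  have hT : 0 < 5 ^ e := by positivity
  have hmain : ∀ m m' : ℕ, m ≤ m' → ((5 : ℤ) ^ e ∣ (m : ℤ) - m') →
      nn m z * dd m' z = nn m' z * dd m z := by
    intro m m' hmm hd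
    have hd' : 5 ^ e ∣ m' - m := by
      have h1 : ((5 ^ e : ℕ) : ℤ) ∣ ((m' - m : ℕ) : ℤ) := by
        push_cast [Nat.cast_sub hmm]
        rw [← neg_sub]
        exact (dvd_neg).2 hd
      exact_mod_cast h1
    obtain ⟨k, hk⟩ := hd'
    have e1 : m' = m + (m' - m) := by omega
    have e2 : m' = (m' - m) + m := by omega
    have h1 : nn m' z = nn m z * F f 0 (5 ^ e) ^ k := by
      rw [nn_eq, nn_eq]
      conv_lhs => rw [e1]
      rw [F_add, hk, F_period_mul f _ hT hper]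
    have h2 : dd m' z = F f 0 (5 ^ e) ^ k * dd m z := by
      rw [dd_eq, dd_eq]
      have e3 : (-(m' : ℤ)) + ((m' - m : ℕ) : ℤ) = -(m : ℤ) := by
        push_cast [Nat.cast_sub hmm]
        ring
      have e4 : F (fun a : ℤ => q (5 * (a : A) + z)) (-(m' : ℤ)) m' =
          F (fun a : ℤ => q (5 * (a : A) + z)) (-(m' : ℤ)) ((m' - m) + m) := by
        rw [← e2]
      rw [e4, F_add, e3, hk, F_period_mul f _ hT hper]
    rw [h1, h2]
    ring
  rcases h with h | h
  · rcases le_total m m' with hmm | hmm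
    · exact hmain m m' hmm h
    · exact (hmain m' m hmm (by rw [← neg_sub]; exact (dvd_neg).2 h)).symm
  · have hd' : 5 ^ e ∣ m + m' := by
      have h1 : ((5 ^ e : ℕ) : ℤ) ∣ ((m + m' : ℕ) : ℤ) := by
        push_cast
        exact h
      exact_mod_cast h1
    obtain ⟨k, hk⟩ := hd'
    have h1 : ∀ m m' : ℕ, m + m' = 5 ^ e * k → nn m z * dd m' z = F f 0 (5 ^ e) ^ k := by
      intro m m' hk
      rw [nn_eq, dd_eq, mul_comm]
      have := F_add f (-(m' : ℤ)) m' m
      rw [neg_add_cancel] at this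
      rw [← this, add_comm, hk, F_period_mul f _ hT hper]
    rw [h1 m m' hk, h1 m' m (by rw [add_comm]; exact hk)]

theorem cross_int {A : Type*} [CommRing A] (e : ℕ) (h5 : (5 : A) ^ (e + 1) = 0) (z : A) (x y : ℤ)
    (h : (5 : ℤ) ^ e ∣ x - y) :
    nn x.natAbs z * dd y.natAbs z = nn y.natAbs z * dd x.natAbs z := by
  apply cross e h5
  rcases le_total 0 x with hx | hx <;> rcases le_total 0 y with hy | hy
  · left
    rw [Int.natAbs_of_nonneg hx, Int.natAbs_of_nonneg hy]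
    exact h
  · right
    rw [Int.natAbs_of_nonneg hx, Int.ofNat_natAbs_of_nonpos hy]
    exact h
  · right
    rw [Int.natAbs_of_nonneg hy, Int.ofNat_natAbs_of_nonpos hx]
    have := (dvd_neg).2 h
    have e : -x + y = -(x - y) := by ring
    rw [e]
    exact this
  · left
    rw [Int.ofNat_natAbs_of_nonpos hy, Int.ofNat_natAbs_of_nonpos hx]
    have := (dvd_neg).2 h
    have e : -x - -y = -(x - y) := by ring
    rw [e]
    exact this

theorem ND_cross {A : Type*} [CommRing A] (e : ℕ) (h5 : (5 : A) ^ (e + 1) = 0) (z : A) (x y : ℤ)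
    (h : (5 : ℤ) ^ e ∣ x - y) :
    (nn x.natAbs z ^ 2 * Gnum z (5 * (x : A))) * (dd y.natAbs z ^ 2 * q z ^ 4) =
    (nn y.natAbs z ^ 2 * Gnum z (5 * (y : A))) * (dd x.natAbs z ^ 2 * q z ^ 4) := by
  have hxy : (5 : A) * x = 5 * y := by
    obtain ⟨k, hk⟩ := h
    have hx : x = y + 5 ^ e * k := by linarith
    rw [hx]
    push_cast
    linear_combination (k : A) * h5
  have hc := cross_int e h5 z x y h
  rw [hxy]
  calc (nn x.natAbs z ^ 2 * Gnum z (5 * (y : A))) * (dd y.natAbs z ^ 2 * q z ^ 4)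
      = (nn x.natAbs z * dd y.natAbs z) ^ 2 * (Gnum z (5 * (y : A)) * q z ^ 4) := by ring
    _ = (nn y.natAbs z * dd x.natAbs z) ^ 2 * (Gnum z (5 * (y : A)) * q z ^ 4) := by rw [hc]
    _ = _ := by ring

/-! ### the case `5 = 0` -/

theorem nn_five {A : Type*} [CommRing A] (h5 : (5 : A) = 0) (m : ℕ) (z : A) :
    nn m z = q z ^ m := by
  unfold nn
  rw [prod_congr rfl (fun a _ => by rw [h5, zero_mul, zero_add])]
  simp

theorem q_neg_five {A : Type*} [CommRing A] (h5 : (5 : A) = 0) (z : A) : q (-z) = q z := by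
  simp only [q]
  linear_combination (-4 * z ^ 3 - 20 * z) * h5

theorem dd_five {A : Type*} [CommRing A] (h5 : (5 : A) = 0) (m : ℕ) (z : A) :
    dd m z = q z ^ m := by
  unfold dd
  rw [prod_congr rfl (fun a _ => by rw [h5, zero_mul, zero_sub, q_neg_five h5])]
  simp

open Polynomial in
theorem coe_Dx_isUnit (x : ℤ) : IsUnit ((Dx x : Polynomial ℤ_[5]) : PowerSeries ℤ_[5]) := by
  rw [PowerSeries.isUnit_iff_constantCoeff, constantCoeff_coe, coeff_zero_eq_eval_zero]
  rw [← IsLocalRing.notMem_maximalIdeal, ← PadicInt.ker_toZMod, RingHom.mem_ker]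
  have h1 : eval 0 (Dx x) = dd x.natAbs (0 : ℤ_[5]) ^ 2 * q (0 : ℤ_[5]) ^ 4 := by
    unfold Dx
    rw [← Polynomial.coe_evalRingHom, map_mul, map_pow, map_pow, map_dd, map_q]
    simp
  rw [h1, map_mul, map_pow, map_pow, map_dd, map_q, map_zero]
  have h5 : (5 : ZMod 5) = 0 := by decide
  rw [dd_five h5, ← pow_mul, ← pow_add]
  apply pow_ne_zero
  unfold q
  decide

noncomputable def Phi (n : ℕ) : Polynomial ℤ_[5] →+* PowerSeries (ZMod (5 ^ n)) :=
  (PowerSeries.map (PadicInt.toZModPow n)).comp Polynomial.coeToPowerSeries.ringHom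

open Polynomial in
theorem Phi_X (n : ℕ) : Phi n X = PowerSeries.X := by
  simp [Phi]

open Polynomial in
theorem Phi_C5 (n : ℕ) (x : ℤ) : Phi n (C (5 * (x : ℤ_[5]))) = 5 * (x : PowerSeries (ZMod (5 ^ n))) := by
  have : (C (5 * (x : ℤ_[5])) : Polynomial ℤ_[5]) = 5 * (x : Polynomial ℤ_[5]) := by
    rw [map_mul, map_ofNat, map_intCast]
  rw [this, map_mul, map_intCast, map_ofNat]

theorem Phi_Nx (n : ℕ) (x : ℤ) : Phi n (Nx x) =
    nn x.natAbs (PowerSeries.X) ^ 2 * Gnum PowerSeries.X (5 * (x : PowerSeries (ZMod (5 ^ n)))) := by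
  unfold Nx
  rw [map_mul, map_pow, map_nn, map_Gnum, Phi_X, Phi_C5]

theorem Phi_Dx (n : ℕ) (x : ℤ) : Phi n (Dx x) =
    dd x.natAbs (PowerSeries.X) ^ 2 * q (PowerSeries.X : PowerSeries (ZMod (5 ^ n))) ^ 4 := by
  unfold Dx
  rw [map_mul, map_pow, map_pow, map_dd, map_q, Phi_X]

theorem five_pow_zero (n : ℕ) : (5 : PowerSeries (ZMod (5 ^ n))) ^ n = 0 := by
  have h1 : ((5 ^ n : ℕ) : ZMod (5 ^ n)) = 0 := ZMod.natCast_self _
  have h2 : ((5 ^ n : ℕ) : PowerSeries (ZMod (5 ^ n))) = 0 := by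
    rw [← map_natCast (PowerSeries.C (R := ZMod (5 ^ n))), h1, map_zero]
  push_cast at h2
  exact h2

theorem dvd_iff_toZModPow (n : ℕ) (a : ℤ_[5]) :
    (5 : ℤ_[5]) ^ n ∣ a ↔ PadicInt.toZModPow n a = 0 := by
  rw [← RingHom.mem_ker, PadicInt.ker_toZModPow, Ideal.mem_span_singleton]
  simp

open Polynomial in
theorem ps : ∃ c : ℤ → ℕ → ℤ_[5],
    (∀ (x : ℤ) (M : ℕ), ∃ R : Polynomial ℤ_[5],
      Dx x * (∑ k ∈ range M, C (c x k) * X ^ k) = Nx x + X ^ M * R) ∧
    (∀ (e : ℕ) (x y : ℤ), (5 : ℤ) ^ e ∣ x - y → ∀ k, (5 : ℤ_[5]) ^ (e + 1) ∣ c x k - c y k) ∧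
    (∀ x, (5 : ℤ_[5]) ∣ c x 0 - 1) ∧ (∀ x, (5 : ℤ_[5]) ∣ c x 2) := by
  have hex : ∀ x : ℤ, ∃ H : PowerSeries ℤ_[5], (Dx x : PowerSeries ℤ_[5]) * H = Nx x := by
    intro x
    obtain ⟨u, hu⟩ := coe_Dx_isUnit x
    refine ⟨(↑(u⁻¹) : PowerSeries ℤ_[5]) * (Nx x : PowerSeries ℤ_[5]), ?_⟩
    rw [← hu, ← mul_assoc, Units.mul_inv, one_mul]
  choose H hH using hex
  have hPhi : ∀ (n : ℕ) (x : ℤ), Phi n (Dx x) * PowerSeries.map (PadicInt.toZModPow n) (H x) =
      Phi n (Nx x) := by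
    intro n x
    have := congrArg (PowerSeries.map (PadicInt.toZModPow n)) (hH x)
    rw [map_mul] at this
    exact this
  have hUnit : ∀ (n : ℕ) (x : ℤ), IsUnit (Phi n (Dx x)) := by
    intro n x
    exact (coe_Dx_isUnit x).map (PowerSeries.map (PadicInt.toZModPow n))
  have h3 : ∀ x : ℤ, ∃ W : PowerSeries (ZMod (5 ^ 1)),
      PowerSeries.map (PadicInt.toZModPow 1) (H x) = 1 + PowerSeries.X ^ 3 * W := by
    intro x
    have h5 : (5 : PowerSeries (ZMod (5 ^ 1))) = 0 :=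
      (pow_one (5 : PowerSeries (ZMod (5 ^ 1)))).symm.trans (five_pow_zero 1)
    have e1 := hPhi 1 x
    have hu := hUnit 1 x
    -- the polynomial identity
    have hE : ∃ W : Polynomial (ZMod (5 ^ 1)), Gnum (X : Polynomial (ZMod (5 ^ 1))) 0 =
        q (X : Polynomial (ZMod (5 ^ 1))) ^ 4 + X ^ 3 * W := by
      have hE1 : (X : Polynomial (ZMod (5 ^ 1))) ∣
          ((X + 1) ^ 2 * ((X + 2) * (X + 3) * (X + 4)) ^ 4
          + (X + 2) ^ 2 * ((X + 1) ^ 2) ^ 2 * ((X + 3) * (X + 4)) ^ 4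
          + (X + 3) ^ 2 * ((X + 1) ^ 2) ^ 2 * ((X + 2) ^ 2) ^ 2 * (X + 4) ^ 4
          + (X + 4) ^ 2 * ((X + 1) ^ 2) ^ 2 * ((X + 2) ^ 2) ^ 2 * ((X + 3) ^ 2) ^ 2) := by
        rw [X_dvd_iff, coeff_zero_eq_eval_zero]
        simp only [eval_add, eval_mul, eval_pow, eval_X, eval_one, eval_ofNat]
        decide
      obtain ⟨W, hW⟩ := hE1
      refine ⟨W, ?_⟩
      have : Gnum (X : Polynomial (ZMod (5 ^ 1))) 0 = q (X : Polynomial (ZMod (5 ^ 1))) ^ 4 + X ^ 2 *
          ((X + 1) ^ 2 * ((X + 2) * (X + 3) * (X + 4)) ^ 4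
          + (X + 2) ^ 2 * ((X + 1) ^ 2) ^ 2 * ((X + 3) * (X + 4)) ^ 4
          + (X + 3) ^ 2 * ((X + 1) ^ 2) ^ 2 * ((X + 2) ^ 2) ^ 2 * (X + 4) ^ 4
          + (X + 4) ^ 2 * ((X + 1) ^ 2) ^ 2 * ((X + 2) ^ 2) ^ 2 * ((X + 3) ^ 2) ^ 2) := by
        simp only [Gnum, q]
        ring
      rw [this, hW]
      ring
    obtain ⟨W, hW⟩ := hE
    have hW' : Gnum (PowerSeries.X : PowerSeries (ZMod (5 ^ 1))) 0 =
        q (PowerSeries.X : PowerSeries (ZMod (5 ^ 1))) ^ 4 + PowerSeries.X ^ 3 * (W : PowerSeries _) := by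
      have := congrArg (Polynomial.coeToPowerSeries.ringHom) hW
      rw [map_Gnum, map_add, map_pow, map_q, map_mul, map_pow] at this
      simpa using this
    have hD : Phi 1 (Dx x) = nn x.natAbs (PowerSeries.X) ^ 2 *
        q (PowerSeries.X : PowerSeries (ZMod (5 ^ 1))) ^ 4 := by
      rw [Phi_Dx, dd_five h5, nn_five h5]
    have hN : Phi 1 (Nx x) = nn x.natAbs (PowerSeries.X) ^ 2 *
        (q (PowerSeries.X : PowerSeries (ZMod (5 ^ 1))) ^ 4 + PowerSeries.X ^ 3 * (W : PowerSeries _)) := by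
      rw [Phi_Nx, h5, zero_mul, hW']
    obtain ⟨u, hu'⟩ := hu
    have hq : IsUnit (q (PowerSeries.X : PowerSeries (ZMod (5 ^ 1))) ^ 4) := by
      apply isUnit_of_mul_isUnit_right (x := nn x.natAbs (PowerSeries.X) ^ 2)
      rw [← hD]
      exact ⟨u, hu'⟩
    obtain ⟨v, hv⟩ := hq
    refine ⟨(↑(v⁻¹) : PowerSeries (ZMod (5 ^ 1))) * (W : PowerSeries _), ?_⟩
    apply (hUnit 1 x).mul_left_cancel
    rw [e1, hN, hD, ← hv]
    have hvv : (v : PowerSeries (ZMod (5 ^ 1))) * (↑(v⁻¹) : PowerSeries (ZMod (5 ^ 1))) = 1 :=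
      Units.mul_inv v
    linear_combination (- nn x.natAbs (PowerSeries.X) ^ 2 * PowerSeries.X ^ 3 *
      (W : PowerSeries (ZMod (5 ^ 1)))) * hvv
  refine ⟨fun x k => PowerSeries.coeff k (H x), ?_, ?_, ?_, ?_⟩
  · intro x M
    have hdvd : (X : Polynomial ℤ_[5]) ^ M ∣
        Dx x * (∑ k ∈ range M, C (PowerSeries.coeff k (H x)) * X ^ k) - Nx x := by
      rw [X_pow_dvd_iff]
      intro d hd
      rw [coeff_sub, coeff_mul, sub_eq_zero, ← Polynomial.coeff_coe (Nx x), ← hH x,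
        PowerSeries.coeff_mul]
      apply sum_congr rfl
      rintro ⟨i, j⟩ hij
      rw [HasAntidiagonal.mem_antidiagonal] at hij
      simp only at hij
      rw [Polynomial.coeff_coe]
      congr 1
      rw [finsetSum_coeff]
      simp only [coeff_C_mul, coeff_X_pow]
      simp only [mul_ite, mul_one, mul_zero]
      rw [Finset.sum_ite_eq]
      rw [if_pos (mem_range.2 (by omega))]
    obtain ⟨R, hR⟩ := hdvd
    exact ⟨R, by linear_combination hR⟩
  · intro e x y hxy k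
    have hc := ND_cross (A := PowerSeries (ZMod (5 ^ (e + 1)))) e (five_pow_zero (e + 1))
      PowerSeries.X x y hxy
    rw [← Phi_Nx, ← Phi_Dx, ← Phi_Nx, ← Phi_Dx] at hc
    have hx := hPhi (e + 1) x
    have hy := hPhi (e + 1) y
    have hmul : (Phi (e + 1) (Dx x) * Phi (e + 1) (Dx y)) *
        PowerSeries.map (PadicInt.toZModPow (e + 1)) (H x) =
        (Phi (e + 1) (Dx x) * Phi (e + 1) (Dx y)) *
        PowerSeries.map (PadicInt.toZModPow (e + 1)) (H y) := by
      linear_combination (Phi (e + 1) (Dx y)) * hx + hc - (Phi (e + 1) (Dx x)) * hy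
    have heq := ((hUnit (e + 1) x).mul (hUnit (e + 1) y)).mul_left_cancel hmul
    have hk := congrArg (PowerSeries.coeff k) heq
    rw [PowerSeries.coeff_map, PowerSeries.coeff_map] at hk
    rw [dvd_iff_toZModPow, map_sub, hk, sub_self]
  · intro x
    obtain ⟨W, hW⟩ := h3 x
    have hk := congrArg (PowerSeries.coeff 0) hW
    rw [PowerSeries.coeff_map, map_add, PowerSeries.coeff_X_pow_mul', if_neg (by norm_num),
      PowerSeries.coeff_one, if_pos rfl, add_zero] at hk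
    have := (dvd_iff_toZModPow 1 (PowerSeries.coeff 0 (H x) - 1)).2 (by
      rw [map_sub, map_one, hk, sub_self])
    rwa [pow_one] at this
  · intro x
    obtain ⟨W, hW⟩ := h3 x
    have hk := congrArg (PowerSeries.coeff 2) hW
    rw [PowerSeries.coeff_map, map_add, PowerSeries.coeff_X_pow_mul', if_neg (by norm_num),
      PowerSeries.coeff_one, if_neg (by norm_num), add_zero] at hk
    have := (dvd_iff_toZModPow 1 (PowerSeries.coeff 2 (H x))).2 hk
    rwa [pow_one] at this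


end J6

end Pool.Agent.Helper468.Apery
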