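import Pool.Agent.Helper468.Apery.Base

set_option autoImplicit false

namespace Pool.Agent.Helper468.Apery

namespace J7

open Finset

theorem kappa : ∃ κ : ℕ → ℤ_[5],
    (∀ k, (((k - 1).factorial : ℕ) : ℤ_[5]) * κ k = 5 ^ k) ∧
    (∀ k, (5 : ℤ_[5]) ^ ((k + 1) / 2) ∣ κ k) ∧ (∀ k, 3 ≤ k → (5 : ℤ_[5]) ^ 3 ∣ κ k) := by
  have key : ∀ k : ℕ, ∃ κ : ℤ_[5], (((k - 1).factorial : ℕ) : ℤ_[5]) * κ = 5 ^ k ∧
      (5 : ℤ_[5]) ^ ((k + 1) / 2) ∣ κ ∧ (3 ≤ k → (5 : ℤ_[5]) ^ 3 ∣ κ) := by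
    intro k
    have hv := sub_one_mul_padicValNat_factorial (p := 5) (k - 1)
    obtain ⟨v, hvd⟩ : ∃ v, v = padicValNat 5 (k - 1).factorial := ⟨_, rfl⟩
    rw [← hvd] at hv
    have h4 : 4 * v ≤ k - 1 := by
      have : (5 - 1) * v ≤ k - 1 := by rw [hv]; exact Nat.sub_le _ _
      simpa using this
    obtain ⟨m, hm⟩ : 5 ^ v ∣ (k - 1).factorial := by rw [hvd]; exact pow_padicValNat_dvd
    have hm5 : ¬ 5 ∣ m := by
      rintro ⟨m', rfl⟩
      have h1 : 5 ^ (v + 1) ∣ (k - 1).factorial := ⟨m', by rw [hm, pow_succ]; ring⟩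
      rw [hvd] at h1
      exact pow_succ_padicValNat_not_dvd (Nat.factorial_ne_zero _) h1
    have hu : IsUnit ((m : ℕ) : ℤ_[5]) := by
      rw [PadicInt.isUnit_iff]
      by_contra hne
      have hlt : ‖((m : ℤ) : ℤ_[5])‖ < 1 := by
        refine lt_of_le_of_ne (PadicInt.norm_le_one _) ?_
        rw [Int.cast_natCast]; exact hne
      rw [PadicInt.norm_int_lt_one_iff_dvd] at hlt
      exact hm5 (by exact_mod_cast hlt)
    obtain ⟨w, hw⟩ := hu.exists_right_inv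
    refine ⟨5 ^ (k - v) * w, ?_, ?_, ?_⟩
    · rw [hm]
      push_cast
      calc (5 : ℤ_[5]) ^ v * m * (5 ^ (k - v) * w) = 5 ^ v * 5 ^ (k - v) * (m * w) := by ring
        _ = 5 ^ k := by rw [hw, mul_one, ← pow_add]; congr 1; omega
    · exact Dvd.dvd.mul_right (pow_dvd_pow _ (by omega)) _
    · intro hk
      exact Dvd.dvd.mul_right (pow_dvd_pow _ (by omega)) _
  choose κ h1 h2 h3 using key
  exact ⟨κ, h1, h2, h3⟩


end J7

end Pool.Agent.Helper468.Apery
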