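import Pool.Agent.Helper468.Apery.Base
import Pool.Agent.Helper468.Apery.J1
import Pool.Agent.Helper468.Apery.J3
import Pool.Agent.Helper468.Apery.J4
import Pool.Agent.Helper468.Apery.J5
import Pool.Agent.Helper468.Apery.J6
import Pool.Agent.Helper468.Apery.J7

set_option autoImplicit false

namespace Pool.Agent.Helper468.Apery

namespace J8

open Finset
open J1 (L_telescope)
open J3 (L_one L_jh_snd L_rel)
open J4 (dec)
open J5 (red)
open J6 (ps)
open J7 (kappa)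

/-! ## limit assembly -/

abbrev K5 := DualNumber ℚ_[5]
abbrev O5 := DualNumber ℤ_[5]

noncomputable def io : K →+* K5 where
  toFun a := TrivSqZeroExt.inl ((a.fst : ℚ) : ℚ_[5]) + TrivSqZeroExt.inr ((a.snd : ℚ) : ℚ_[5])
  map_one' := by ext <;> simp
  map_zero' := by ext <;> simp
  map_add' a b := by ext <;> simp
  map_mul' a b := by ext <;> simp

noncomputable def io5 : O5 →+* K5 where
  toFun a := TrivSqZeroExt.inl ((a.fst : ℤ_[5]) : ℚ_[5]) + TrivSqZeroExt.inr ((a.snd : ℤ_[5]) : ℚ_[5])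
  map_one' := by ext <;> simp
  map_zero' := by ext <;> simp
  map_add' a b := by ext <;> simp
  map_mul' a b := by ext <;> simp

theorem io_fst (a : K) : (io a).fst = ((a.fst : ℚ) : ℚ_[5]) := by simp [io]
theorem io_snd (a : K) : (io a).snd = ((a.snd : ℚ) : ℚ_[5]) := by simp [io]
theorem io5_fst (a : O5) : (io5 a).fst = ((a.fst : ℤ_[5]) : ℚ_[5]) := by simp [io5]
theorem io5_snd (a : O5) : (io5 a).snd = ((a.snd : ℤ_[5]) : ℚ_[5]) := by simp [io5]

noncomputable def jO (j : ℕ) : O5 := (j : O5) + DualNumber.eps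

theorem io5_jO (j : ℕ) : io5 (jO j) = io (jh j) := by
  unfold jO jh
  ext
  · simp [io5, io]
  · simp [io5, io]

theorem map_q {R S : Type*} [CommRing R] [CommRing S] (f : R →+* S) (z : R) : f (q z) = q (f z) := by
  simp [q, map_ofNat]

theorem map_nn {R S : Type*} [CommRing R] [CommRing S] (f : R →+* S) (m : ℕ) (z : R) :
    f (nn m z) = nn m (f z) := by
  simp [nn, map_prod, map_q, map_ofNat]

theorem map_dd {R S : Type*} [CommRing R] [CommRing S] (f : R →+* S) (m : ℕ) (z : R) :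
    f (dd m z) = dd m (f z) := by
  simp [dd, map_prod, map_q, map_ofNat]

theorem map_Gnum {R S : Type*} [CommRing R] [CommRing S] (f : R →+* S) (z s : R) :
    f (Gnum z s) = Gnum (f z) (f s) := by
  simp [Gnum, map_ofNat]

noncomputable def evj (j : ℕ) : Polynomial ℤ_[5] →+* O5 :=
  Polynomial.eval₂RingHom (algebraMap ℤ_[5] O5) (5 * jO j)

theorem evj_X (j : ℕ) : evj j Polynomial.X = 5 * jO j := by simp [evj]
theorem evj_C (j : ℕ) (a : ℤ_[5]) : evj j (Polynomial.C a) = algebraMap ℤ_[5] O5 a := by simp [evj]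

theorem io5_evj_D (x : ℤ) (j : ℕ) : io5 (evj j (Dx x)) =
    io (dd x.natAbs (5 * jh j) ^ 2 * q (5 * jh j) ^ 4) := by
  unfold Dx
  simp only [map_mul, map_pow, map_dd, map_q, evj_X, io5_jO, map_ofNat]

theorem io5_evj_N (x : ℤ) (j : ℕ) : io5 (evj j (Nx x)) =
    io (nn x.natAbs (5 * jh j) ^ 2 * Gnum (5 * jh j) (5 * (x : K))) := by
  unfold Nx
  simp only [map_mul, map_pow, map_nn, map_Gnum, evj_X, io5_jO, map_ofNat, map_intCast]

theorem isUnit_iff5 (x : ℤ_[5]) : IsUnit x ↔ ¬ (5 : ℤ_[5]) ∣ x := by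
  have h1 := PadicInt.isUnit_iff (p := 5) (z := x)
  rw [h1]
  have h2 := PadicInt.norm_lt_one_iff_dvd (p := 5) x
  have h3 : ‖x‖ ≤ 1 := PadicInt.norm_le_one x
  have h4 : ((5 : ℕ) : ℤ_[5]) = 5 := by norm_num
  rw [h4] at h2
  rw [← h2]
  constructor
  · intro h; rw [h]; norm_num
  · intro h; exact le_antisymm h3 (not_lt.mp h)

theorem isUnit_one_add (c : ℤ_[5]) : IsUnit (1 + 5 * c) := by
  rw [isUnit_iff5]
  intro h
  have : (5 : ℤ_[5]) ∣ 1 := by
    have := dvd_sub h (dvd_mul_right 5 c)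
    simpa using this
  exact (isUnit_iff5 (1 : ℤ_[5])).mp isUnit_one this

theorem isUnit_q (z : ℤ_[5]) (hz : (5 : ℤ_[5]) ∣ z) : IsUnit (q z) := by
  obtain ⟨c, rfl⟩ := hz
  have h : q (5 * c) * (-1) = 1 + 5 * (-(125 * c ^ 4 + 250 * c ^ 3 + 175 * c ^ 2 + 50 * c + 5)) := by
    unfold q; ring
  exact isUnit_of_mul_isUnit_left (h ▸ isUnit_one_add _)

theorem isUnit_evj_D (x : ℤ) (j : ℕ) : IsUnit (evj j (Dx x)) := by
  rw [TrivSqZeroExt.isUnit_iff_isUnit_fst]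
  have hf : (evj j (Dx x)).fst = dd x.natAbs (5 * (j : ℤ_[5])) ^ 2 * q (5 * (j : ℤ_[5])) ^ 4 := by
    have e1 : (evj j (Dx x)).fst = (TrivSqZeroExt.fstHom ℤ_[5] ℤ_[5] ℤ_[5]).toRingHom (evj j (Dx x)) := rfl
    rw [e1]
    unfold Dx
    rw [map_mul, map_mul, map_pow, map_pow, map_pow, map_pow, map_dd, map_dd, map_q, map_q, evj_X]
    have e2 : (TrivSqZeroExt.fstHom ℤ_[5] ℤ_[5] ℤ_[5]).toRingHom (5 * jO j) = 5 * (j : ℤ_[5]) := by
      rw [map_mul]
      congr 1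
      · simp [jO]
    rw [e2]
  rw [hf]
  refine IsUnit.mul (IsUnit.pow _ ?_) (IsUnit.pow _ (isUnit_q _ (dvd_mul_right _ _)))
  unfold dd
  rw [IsUnit.prod_iff]
  intro a _
  apply isUnit_q
  exact dvd_sub (dvd_mul_right _ _) (dvd_mul_right _ _)

theorem approx (c : ℕ → ℤ_[5]) (x : ℤ) (M : ℕ)
    (hR : ∃ R : Polynomial ℤ_[5],
      Dx x * (∑ k ∈ range M, Polynomial.C (c k) * Polynomial.X ^ k) = Nx x + Polynomial.X ^ M * R)
    (j : ℕ) :
    ∃ ρ : O5, (∑ k ∈ range M, io5 (algebraMap ℤ_[5] O5 (c k)) * (5 * io (jh j)) ^ k) * io (T x j)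
      - io (∑ r ∈ range 5, sig (T (5 * x) (5 * j + r))) = 5 ^ M * io5 ρ * io (T x j) := by
  obtain ⟨R, hR⟩ := hR
  obtain ⟨D', hD'⟩ := (isUnit_evj_D x j).exists_right_inv
  have h1 := congrArg (fun p => io5 (evj j p)) hR
  simp only [map_mul, map_add, map_sum, map_pow, evj_X, evj_C, io5_jO, map_ofNat] at h1
  have h2 := congrArg io (dec x j)
  rw [map_mul io (dd x.natAbs (5 * jh j) ^ 2 * q (5 * jh j) ^ 4),
    map_mul io (nn x.natAbs (5 * jh j) ^ 2 * Gnum (5 * jh j) (5 * (x : K))), ← io5_evj_D,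
    ← io5_evj_N] at h2
  have h3 := congrArg io5 hD'
  rw [map_mul, map_one] at h3
  refine ⟨D' * jO j ^ M * evj j R, ?_⟩
  rw [map_mul, map_mul, map_pow, io5_jO]
  set S := io (∑ r ∈ range 5, sig (T (5 * x) (5 * j + r)))
  set E := ∑ k ∈ range M, io5 (algebraMap ℤ_[5] O5 (c k)) * (5 * io (jh j)) ^ k
  set t := io (T x j)
  rw [mul_pow] at h1
  linear_combination (-(E * t) + S) * h3 + io5 D' * t * h1 - io5 D' * h2


theorem summable_of_dvd (a : ℕ → ℤ_[5]) (h : ∀ k, (5 : ℤ_[5]) ^ ((k + 1) / 2) ∣ a k) : Summable a := by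
  refine Summable.of_norm_bounded (g := fun k => (1 / 2 : ℝ) ^ k) summable_geometric_two ?_
  intro k
  have h1 : ‖a k‖ ≤ ((5 : ℕ) : ℝ) ^ (-(((k + 1) / 2 : ℕ) : ℤ)) := by
    rw [PadicInt.norm_le_pow_iff_mem_span_pow, Ideal.mem_span_singleton]
    exact_mod_cast h k
  refine h1.trans ?_
  rw [zpow_neg, zpow_natCast, ← inv_pow]
  push_cast
  have h2 : ((5 : ℝ)⁻¹) ^ ((k + 1) / 2) ≤ ((1 / 4 : ℝ)) ^ ((k + 1) / 2) := by
    apply pow_le_pow_left₀ (by norm_num)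
    norm_num
  refine h2.trans ?_
  have h3 : (1 / 4 : ℝ) = (1 / 2) ^ 2 := by norm_num
  rw [h3, ← pow_mul]
  exact pow_le_pow_of_le_one (by norm_num) (by norm_num) (by omega)

theorem dvd_tsum_sub (f g : ℕ → ℤ_[5]) (hf : Summable f) (hg : Summable g) (n : ℕ)
    (h : ∀ k, (5 : ℤ_[5]) ^ n ∣ f k - g k) : (5 : ℤ_[5]) ^ n ∣ (∑' k, f k) - ∑' k, g k := by
  rw [← hf.tsum_sub hg]
  have h1 := (hf.sub hg).hasSum.tendsto_sum_nat
  have hcl : IsClosed {x : ℤ_[5] | ‖x‖ ≤ ((5 : ℕ) : ℝ) ^ (-(n : ℤ))} :=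
    isClosed_le continuous_norm continuous_const
  have h2 := hcl.mem_of_tendsto h1 (Filter.Eventually.of_forall (fun m => by
    change ‖_‖ ≤ _
    rw [PadicInt.norm_le_pow_iff_mem_span_pow, Ideal.mem_span_singleton]
    apply Finset.dvd_sum
    intro k _
    exact_mod_cast h k))
  have h3 : ‖∑' k, (f k - g k)‖ ≤ ((5 : ℕ) : ℝ) ^ (-(n : ℤ)) := h2
  rw [PadicInt.norm_le_pow_iff_mem_span_pow, Ideal.mem_span_singleton] at h3
  exact_mod_cast h3

theorem L_mom (x : ℤ) (N : ℕ) (hN : x.natAbs < N) (cc : ℕ → Fin 3 → Polynomial ℤ)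
    (hcc : ∀ (X' : ℤ) (Λ : Polynomial ℚ →ₗ[ℚ] DualNumber ℚ),
      (∀ m : ℕ, Λ ((Polynomial.C (X' : ℚ) - Polynomial.X ^ 2 - Polynomial.X) ^ 2 *
        (Polynomial.X + 1) ^ m - Polynomial.X ^ (m + 4)) = 0) →
      ∀ k : ℕ, (((k - 1).factorial : ℕ) : ℚ) • Λ (Polynomial.X ^ k)
        = ∑ i : Fin 3, (((cc k i).eval X' : ℤ) : ℚ) • Λ (Polynomial.X ^ (i : ℕ))) (k : ℕ) :
    (((k - 1).factorial : ℕ) : K) * L N x (fun j => jh j ^ k) =
      ∑ i : Fin 3, (((cc k i).eval (x * (x + 1)) : ℤ) : K) * L N x (fun j => jh j ^ (i : ℕ)) := by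
  let Λ : Polynomial ℚ →ₗ[ℚ] DualNumber ℚ :=
    { toFun := fun p => L N x (fun j => Polynomial.aeval (jh j) p)
      map_add' := by
        intro p r
        simp only [L, map_add, mul_add, Finset.sum_add_distrib]
      map_smul' := by
        intro a p
        simp only [L, map_smul, RingHom.id_apply, mul_smul_comm, Finset.smul_sum] }
  have hΛ : ∀ p, Λ p = L N x (fun j => Polynomial.aeval (jh j) p) := fun p => rfl
  have h1 : ∀ m : ℕ, Λ ((Polynomial.C ((x * (x + 1) : ℤ) : ℚ) - Polynomial.X ^ 2 - Polynomial.X) ^ 2 *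
        (Polynomial.X + 1) ^ m - Polynomial.X ^ (m + 4)) = 0 := by
    intro m
    rw [hΛ]
    have := L_telescope N x hN (fun j => jh j ^ m)
    rw [← this]
    unfold L
    apply Finset.sum_congr rfl
    intro j _
    congr 1
    have e1 : jh (j + 1) = jh j + 1 := by unfold jh; push_cast; ring
    simp only [map_sub, map_mul, map_pow, map_add, Polynomial.aeval_X, Polynomial.aeval_C, map_one, e1]
    push_cast
    simp only [map_intCast]
    ring
  have h2 := hcc (x * (x + 1)) Λ h1 k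
  simp only [hΛ, map_pow, Polynomial.aeval_X] at h2
  have e2 : ∀ (a : ℚ) (y : K), a • y = (algebraMap ℚ K a) * y := fun a y => Algebra.smul_def a y
  simp only [e2, map_natCast, map_intCast] at h2
  exact h2


theorem sum_blocks {M : Type*} [AddCommMonoid M] (f : ℕ → M) (J : ℕ) :
    ∑ j ∈ range J, ∑ r ∈ range 5, f (5 * j + r) = ∑ k ∈ range (5 * J), f k := by
  induction J with
  | zero => simp
  | succ J ih =>
    rw [Finset.sum_range_succ, ih, mul_add, mul_one, Finset.sum_range_add]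

theorem limit_id (x : ℤ) (c κ : ℕ → ℤ_[5]) (cc : ℕ → Fin 3 → Polynomial ℤ)
    (hc : ∀ M : ℕ, ∃ R : Polynomial ℤ_[5],
      Dx x * (∑ k ∈ range M, Polynomial.C (c k) * Polynomial.X ^ k) = Nx x + Polynomial.X ^ M * R)
    (hκ : ∀ k, (((k - 1).factorial : ℕ) : ℤ_[5]) * κ k = 5 ^ k)
    (hcc : ∀ k, (((k - 1).factorial : ℕ) : K) * L (x.natAbs + 1) x (fun j => jh j ^ k) =
      ∑ i : Fin 3, (((cc k i).eval (x * (x + 1)) : ℤ) : K) *
        L (x.natAbs + 1) x (fun j => jh j ^ (i : ℕ))) (M : ℕ) :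
    ∃ ρ : ℕ → O5, ∑ i : Fin 3, io5 (algebraMap ℤ_[5] O5 (∑ k ∈ range M,
        c k * κ k * (((cc k i).eval (x * (x + 1)) : ℤ) : ℤ_[5]))) *
          io (L (x.natAbs + 1) x (fun j => jh j ^ (i : ℕ))) - ((uz (5 * x) : ℤ) : K5)
      = 5 ^ M * ∑ j ∈ range (x.natAbs + 1), io5 (ρ j) * io (T x j) := by
  choose ρ hρ using fun j => approx c x M (hc M) j
  refine ⟨ρ, ?_⟩
  have h1 := Finset.sum_congr rfl (fun j (_ : j ∈ range (x.natAbs + 1)) => hρ j)
  rw [Finset.sum_sub_distrib] at h1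
  have h2 : ∑ j ∈ range (x.natAbs + 1), io (∑ r ∈ range 5, sig (T (5 * x) (5 * j + r)))
      = ((uz (5 * x) : ℤ) : K5) := by
    rw [← map_sum]
    have : ∑ j ∈ range (x.natAbs + 1), ∑ r ∈ range 5, sig (T (5 * x) (5 * j + r)) =
        sig (L (5 * (x.natAbs + 1)) (5 * x) (fun _ => 1)) := by
      rw [sum_blocks (fun k => sig (T (5 * x) k)), L, map_sum]
      simp
    rw [this, L_one _ _ (by rw [Int.natAbs_mul]; simp), map_intCast, map_intCast]
  rw [h2] at h1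
  have h3 : ∑ j ∈ range (x.natAbs + 1),
      (∑ k ∈ range M, io5 (algebraMap ℤ_[5] O5 (c k)) * (5 * io (jh j)) ^ k) * io (T x j)
      = ∑ i : Fin 3, io5 (algebraMap ℤ_[5] O5 (∑ k ∈ range M,
        c k * κ k * (((cc k i).eval (x * (x + 1)) : ℤ) : ℤ_[5]))) *
          io (L (x.natAbs + 1) x (fun j => jh j ^ (i : ℕ))) := by
    have e1 : ∀ k, (5 : K5) ^ k * io (L (x.natAbs + 1) x (fun j => jh j ^ k)) =
        io5 (algebraMap ℤ_[5] O5 (κ k)) * ∑ i : Fin 3,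
          (((cc k i).eval (x * (x + 1)) : ℤ) : K5) *
            io (L (x.natAbs + 1) x (fun j => jh j ^ (i : ℕ))) := by
      intro k
      have e2 := congrArg io (hcc k)
      rw [map_mul, map_natCast, map_sum] at e2
      simp only [map_mul, map_intCast] at e2
      rw [← e2]
      have e3 := congrArg (fun y => io5 (algebraMap ℤ_[5] O5 y)) (hκ k)
      simp only [map_mul, map_natCast, map_pow, map_ofNat] at e3
      rw [← e3]; ring
    calc ∑ j ∈ range (x.natAbs + 1),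
      (∑ k ∈ range M, io5 (algebraMap ℤ_[5] O5 (c k)) * (5 * io (jh j)) ^ k) * io (T x j)
        = ∑ k ∈ range M, ∑ j ∈ range (x.natAbs + 1),
          io5 (algebraMap ℤ_[5] O5 (c k)) * (5 * io (jh j)) ^ k * io (T x j) := by
          rw [Finset.sum_comm]
          exact Finset.sum_congr rfl (fun j _ => by rw [Finset.sum_mul])
      _ = ∑ k ∈ range M, io5 (algebraMap ℤ_[5] O5 (c k)) *
            ((5 : K5) ^ k * io (L (x.natAbs + 1) x (fun j => jh j ^ k))) := by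
          refine Finset.sum_congr rfl (fun k _ => ?_)
          rw [L, map_sum, Finset.mul_sum, Finset.mul_sum]
          refine Finset.sum_congr rfl (fun j _ => ?_)
          rw [map_mul, map_pow]; ring
      _ = ∑ k ∈ range M, ∑ i : Fin 3, io5 (algebraMap ℤ_[5] O5 (c k)) *
            (io5 (algebraMap ℤ_[5] O5 (κ k)) * ((((cc k i).eval (x * (x + 1)) : ℤ) : K5) *
            io (L (x.natAbs + 1) x (fun j => jh j ^ (i : ℕ))))) := by
          refine Finset.sum_congr rfl (fun k _ => ?_)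
          rw [e1 k, Finset.mul_sum, Finset.mul_sum]
      _ = _ := by
          rw [Finset.sum_comm]
          refine Finset.sum_congr rfl (fun i _ => ?_)
          rw [map_sum, map_sum, Finset.sum_mul]
          refine Finset.sum_congr rfl (fun k _ => ?_)
          simp only [map_mul, map_intCast]
          ring
  rw [h3] at h1
  rw [h1, Finset.mul_sum]
  exact Finset.sum_congr rfl (fun j _ => by ring)

theorem io5_alg (a : ℤ_[5]) : io5 (algebraMap ℤ_[5] O5 a) = TrivSqZeroExt.inl (a : ℚ_[5]) := by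
  rw [TrivSqZeroExt.algebraMap_eq_inl]
  ext
  · rw [io5_fst]; simp
  · rw [io5_snd]; simp

theorem five_inl : (5 : K5) = TrivSqZeroExt.inl (5 : ℚ_[5]) := by
  have h1 : (5 : K5) = ((5 : ℕ) : K5) := by norm_num
  rw [h1]
  ext
  · rw [TrivSqZeroExt.fst_natCast, TrivSqZeroExt.fst_inl]; norm_num
  · rw [TrivSqZeroExt.snd_natCast, TrivSqZeroExt.snd_inl]

theorem five_pow_inl (M : ℕ) : (5 : K5) ^ M = TrivSqZeroExt.inl ((5 : ℚ_[5]) ^ M) := by
  rw [five_inl, ← TrivSqZeroExt.inl_pow]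

theorem norm_five_pow (M : ℕ) : ‖(5 : ℚ_[5]) ^ M‖ = (1 / 5 : ℝ) ^ M := by
  rw [norm_pow]
  congr 1
  have := Padic.norm_p (p := 5)
  rw [show ((5 : ℕ) : ℚ_[5]) = 5 by norm_num] at this
  rw [this]; norm_num

theorem tendsto_small (C : ℝ) (f : ℕ → ℚ_[5]) (h : ∀ M, ‖f M‖ ≤ (1 / 5 : ℝ) ^ M * C) :
    Filter.Tendsto f Filter.atTop (nhds 0) := by
  apply squeeze_zero_norm h
  have := (tendsto_pow_atTop_nhds_zero_of_lt_one (r := (1 / 5 : ℝ)) (by norm_num) (by norm_num)).mul_const C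
  simpa using this

theorem limit_main (x : ℤ) (c κ : ℕ → ℤ_[5]) (cc : ℕ → Fin 3 → Polynomial ℤ)
    (hc : ∀ M : ℕ, ∃ R : Polynomial ℤ_[5],
      Dx x * (∑ k ∈ range M, Polynomial.C (c k) * Polynomial.X ^ k) = Nx x + Polynomial.X ^ M * R)
    (hκ : ∀ k, (((k - 1).factorial : ℕ) : ℤ_[5]) * κ k = 5 ^ k)
    (hκ2 : ∀ k, (5 : ℤ_[5]) ^ ((k + 1) / 2) ∣ κ k)
    (hcc : ∀ k, (((k - 1).factorial : ℕ) : K) * L (x.natAbs + 1) x (fun j => jh j ^ k) =
      ∑ i : Fin 3, (((cc k i).eval (x * (x + 1)) : ℤ) : K) *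
        L (x.natAbs + 1) x (fun j => jh j ^ (i : ℕ))) :
    ∑ i : Fin 3, (((∑' k, c k * κ k * (((cc k i).eval (x * (x + 1)) : ℤ) : ℤ_[5]) : ℤ_[5]) : ℚ_[5]) *
      (((L (x.natAbs + 1) x (fun j => jh j ^ (i : ℕ))).fst : ℚ) : ℚ_[5])) = ((uz (5 * x) : ℤ) : ℚ_[5])
    ∧ ∑ i : Fin 3, (((∑' k, c k * κ k * (((cc k i).eval (x * (x + 1)) : ℤ) : ℤ_[5]) : ℤ_[5]) : ℚ_[5]) *
      (((L (x.natAbs + 1) x (fun j => jh j ^ (i : ℕ))).snd : ℚ) : ℚ_[5])) = 0 := by
  have hsum : ∀ i : Fin 3, Summable (fun k => c k * κ k * (((cc k i).eval (x * (x + 1)) : ℤ) : ℤ_[5])) := by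
    intro i
    apply summable_of_dvd
    intro k
    exact Dvd.dvd.mul_right (Dvd.dvd.mul_left (hκ2 k) _) _
  have hten : ∀ (i : Fin 3) (l : ℚ_[5]), Filter.Tendsto (fun M => (((∑ k ∈ range M,
      c k * κ k * (((cc k i).eval (x * (x + 1)) : ℤ) : ℤ_[5]) : ℤ_[5]) : ℚ_[5]) * l))
      Filter.atTop (nhds ((((∑' k, c k * κ k * (((cc k i).eval (x * (x + 1)) : ℤ) : ℤ_[5]) : ℤ_[5])
        : ℚ_[5]) * l))) := by
    intro i l
    have h1 := (hsum i).hasSum.tendsto_sum_nat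
    have h2 : Continuous (fun y : ℤ_[5] => (y : ℚ_[5]) * l) :=
      (continuous_subtype_val).mul continuous_const
    exact (h2.tendsto _).comp h1
  choose ρ hρ using fun M => limit_id x c κ cc hc hκ hcc M
  have hO1 : ∀ (a : O5), ‖((a.fst : ℤ_[5]) : ℚ_[5])‖ ≤ 1 := fun a => PadicInt.norm_le_one _
  have hO2 : ∀ (a : O5), ‖((a.snd : ℤ_[5]) : ℚ_[5])‖ ≤ 1 := fun a => PadicInt.norm_le_one _
  constructor
  · have hA : Filter.Tendsto (fun M => (∑ i : Fin 3, (((∑ k ∈ range M,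
        c k * κ k * (((cc k i).eval (x * (x + 1)) : ℤ) : ℤ_[5]) : ℤ_[5]) : ℚ_[5]) *
        (((L (x.natAbs + 1) x (fun j => jh j ^ (i : ℕ))).fst : ℚ) : ℚ_[5]))) -
          ((uz (5 * x) : ℤ) : ℚ_[5])) Filter.atTop (nhds ((∑ i : Fin 3,
          (((∑' k, c k * κ k * (((cc k i).eval (x * (x + 1)) : ℤ) : ℤ_[5]) : ℤ_[5]) : ℚ_[5]) *
      (((L (x.natAbs + 1) x (fun j => jh j ^ (i : ℕ))).fst : ℚ) : ℚ_[5]))) -
          ((uz (5 * x) : ℤ) : ℚ_[5]))) := by
      apply Filter.Tendsto.sub_const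
      apply tendsto_finsetSum
      intro i _
      exact hten i _
    have hB := tendsto_small (∑ j ∈ range (x.natAbs + 1), ‖(((T x j).fst : ℚ) : ℚ_[5])‖)
      (fun M => (∑ i : Fin 3, (((∑ k ∈ range M,
        c k * κ k * (((cc k i).eval (x * (x + 1)) : ℤ) : ℤ_[5]) : ℤ_[5]) : ℚ_[5]) *
        (((L (x.natAbs + 1) x (fun j => jh j ^ (i : ℕ))).fst : ℚ) : ℚ_[5]))) -
          ((uz (5 * x) : ℤ) : ℚ_[5])) (by
        intro M
        have h1 := congrArg TrivSqZeroExt.fst (hρ M)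
        rw [five_pow_inl, TrivSqZeroExt.fst_sub, TrivSqZeroExt.fst_sum, TrivSqZeroExt.fst_mul,
          TrivSqZeroExt.fst_sum] at h1
        simp only [TrivSqZeroExt.fst_mul, io5_alg, TrivSqZeroExt.fst_inl, io_fst, io5_fst,
          TrivSqZeroExt.fst_intCast] at h1
        rw [h1, norm_mul, norm_five_pow]
        gcongr
        refine (norm_sum_le _ _).trans ?_
        gcongr with j _
        rw [norm_mul]
        exact mul_le_of_le_one_left (norm_nonneg _) (hO1 _))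
    have := tendsto_nhds_unique hA hB
    exact sub_eq_zero.mp this
  · have hA : Filter.Tendsto (fun M => (∑ i : Fin 3, (((∑ k ∈ range M,
        c k * κ k * (((cc k i).eval (x * (x + 1)) : ℤ) : ℤ_[5]) : ℤ_[5]) : ℚ_[5]) *
        (((L (x.natAbs + 1) x (fun j => jh j ^ (i : ℕ))).snd : ℚ) : ℚ_[5]))))
          Filter.atTop (nhds ((∑ i : Fin 3,
          (((∑' k, c k * κ k * (((cc k i).eval (x * (x + 1)) : ℤ) : ℤ_[5]) : ℤ_[5]) : ℚ_[5]) *
      (((L (x.natAbs + 1) x (fun j => jh j ^ (i : ℕ))).snd : ℚ) : ℚ_[5]))))) := by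
      apply tendsto_finsetSum
      intro i _
      exact hten i _
    have hB := tendsto_small (∑ j ∈ range (x.natAbs + 1),
        (‖(((T x j).snd : ℚ) : ℚ_[5])‖ + ‖(((T x j).fst : ℚ) : ℚ_[5])‖))
      (fun M => (∑ i : Fin 3, (((∑ k ∈ range M,
        c k * κ k * (((cc k i).eval (x * (x + 1)) : ℤ) : ℤ_[5]) : ℤ_[5]) : ℚ_[5]) *
        (((L (x.natAbs + 1) x (fun j => jh j ^ (i : ℕ))).snd : ℚ) : ℚ_[5])))) (by
        intro M
        have h1 := congrArg TrivSqZeroExt.snd (hρ M)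
        rw [five_pow_inl, TrivSqZeroExt.snd_sub, TrivSqZeroExt.snd_sum, TrivSqZeroExt.snd_mul,
          TrivSqZeroExt.snd_sum] at h1
        simp only [TrivSqZeroExt.snd_mul, io5_alg, TrivSqZeroExt.fst_inl, TrivSqZeroExt.snd_inl, io_fst,
          io5_fst, io_snd, io5_snd, TrivSqZeroExt.snd_intCast, smul_eq_mul, MulOpposite.smul_eq_mul_unop,
          MulOpposite.unop_op, sub_zero, zero_mul, add_zero] at h1
        rw [h1, norm_mul, norm_five_pow]
        gcongr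
        refine (norm_sum_le _ _).trans ?_
        gcongr with j _
        refine (norm_add_le _ _).trans ?_
        rw [norm_mul, norm_mul]
        gcongr
        · exact mul_le_of_le_one_left (norm_nonneg _) (hO1 _)
        · exact mul_le_of_le_one_left (norm_nonneg _) (hO2 _))
    exact tendsto_nhds_unique hA hB


theorem isUnit_twelve : IsUnit (12 : ℤ_[5]) := by
  have h : (12 : ℤ_[5]) * (-2) = 1 + 5 * (-5) := by norm_num
  exact isUnit_of_mul_isUnit_left (h ▸ isUnit_one_add _)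

theorem cast_dvd {e : ℕ} {a : ℤ} (h : (5 : ℤ) ^ e ∣ a) : (5 : ℤ_[5]) ^ e ∣ (a : ℤ_[5]) := by
  obtain ⟨c, rfl⟩ := h
  exact ⟨c, by push_cast; ring⟩

theorem frob : ∃ A B : ℤ → ℤ_[5],
    (∀ x : ℤ, ((uz (5 * x) : ℤ) : ℤ_[5]) = A x * ((uz x : ℤ) : ℤ_[5]) +
      125 * B x * ((x : ℤ_[5]) ^ 3 * ((uz (x - 1) : ℤ) : ℤ_[5]))) ∧
    (∀ x, (5 : ℤ_[5]) ∣ A x - 1) ∧
    (∀ (e : ℕ) (x y : ℤ), (5 : ℤ) ^ e ∣ x - y → (5 : ℤ_[5]) ^ (e + 1) ∣ A x - A y) ∧
    (∀ (e : ℕ) (x y : ℤ), (5 : ℤ) ^ e ∣ x - y → (5 : ℤ_[5]) ^ (e + 1) ∣ 125 * (B x - B y)) := by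
  obtain ⟨c, hc1, hc2, hc3, hc4⟩ := ps
  obtain ⟨κ, hκ1, hκ2, hκ3⟩ := kappa
  obtain ⟨cc, hcc0, hcc1, hcc2, hcc⟩ := red
  let a : ℤ → Fin 3 → ℕ → ℤ_[5] := fun x i k =>
    c x k * κ k * (((cc k i).eval (x * (x + 1)) : ℤ) : ℤ_[5])
  have hasum : ∀ x i, Summable (a x i) := fun x i =>
    summable_of_dvd _ (fun k => Dvd.dvd.mul_right (Dvd.dvd.mul_left (hκ2 k) _) _)
  let α : ℤ → Fin 3 → ℤ_[5] := fun x i => ∑' k, a x i k
  -- kappa values
  have hκ0 : κ 0 = 1 := by have := hκ1 0; simpa using this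
  have hκ2' : κ 2 = 25 := by have := hκ1 2; norm_num at this; exact this
  have haL : ∀ x i k, k < 3 → a x i k = c x k * κ k * (if (i : ℕ) = k then 1 else 0) := by
    intro x i k hk
    change c x k * κ k * (((cc k i).eval (x * (x + 1)) : ℤ) : ℤ_[5]) = _
    have : ((cc k i).eval (x * (x + 1))) = if (i : ℕ) = k then 1 else 0 := by
      interval_cases k
      · rw [hcc0]; fin_cases i <;> simp
      · rw [hcc1]; fin_cases i <;> simp
      · rw [hcc2]; fin_cases i <;> simp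
    rw [this]; push_cast; rfl
  have ha3 : ∀ x i k, 3 ≤ k → (5 : ℤ_[5]) ^ 3 ∣ a x i k := fun x i k hk =>
    Dvd.dvd.mul_right (Dvd.dvd.mul_left (hκ3 k hk) _) _
  -- alpha 0 is 1 mod 5
  have hα0 : ∀ x, (5 : ℤ_[5]) ∣ α x 0 - 1 := by
    intro x
    have hs : Summable (fun k : ℕ => if k = 0 then (1 : ℤ_[5]) else 0) :=
      summable_of_ne_finset_zero (s := {0}) (fun b hb => if_neg (by simpa using hb))
    have h1 := dvd_tsum_sub (a x 0) (fun k : ℕ => if k = 0 then (1 : ℤ_[5]) else 0) (hasum x 0) hs 1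
      (by
        intro k
        rw [pow_one]
        by_cases hk : k < 3
        · rw [haL x 0 k hk]
          interval_cases k
          · simpa [hκ0] using hc3 x
          · simp
          · simp
        · rw [if_neg (by omega), sub_zero]
          exact (dvd_pow_self (5 : ℤ_[5]) (by norm_num)).trans (ha3 x 0 k (by omega)))
    rw [tsum_ite_eq, pow_one] at h1
    exact h1
  have hα2 : ∀ x, (5 : ℤ_[5]) ^ 3 ∣ α x 2 := by
    intro x
    have hs : Summable (fun _ : ℕ => (0 : ℤ_[5])) := summable_zero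
    have h1 := dvd_tsum_sub (a x 2) (fun _ : ℕ => (0 : ℤ_[5])) (hasum x 2) hs 3
      (by
        intro k
        rw [sub_zero]
        by_cases hk : k < 3
        · rw [haL x 2 k hk]
          interval_cases k
          · simp
          · simp
          · obtain ⟨d, hd⟩ := hc4 x
            rw [hκ2', hd]
            exact ⟨d, by simp; ring⟩
        · exact ha3 x 2 k (by omega))
    rw [tsum_zero, sub_zero] at h1
    exact h1
  have hαlip : ∀ (i : Fin 3) (e : ℕ) (x y : ℤ), (5 : ℤ) ^ e ∣ x - y →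
      (5 : ℤ_[5]) ^ (e + 1) ∣ α x i - α y i := by
    intro i e x y hxy
    apply dvd_tsum_sub _ _ (hasum x i) (hasum y i)
    intro k
    by_cases hk : k < 3
    · rw [haL x i k hk, haL y i k hk]
      have : c x k * κ k * (if (i : ℕ) = k then 1 else 0) - c y k * κ k * (if (i : ℕ) = k then 1 else 0)
          = (c x k - c y k) * (κ k * (if (i : ℕ) = k then 1 else 0)) := by ring
      rw [this]
      exact Dvd.dvd.mul_right (hc2 e x y hxy k) _
    · have h1 := hc2 e x y hxy k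
      have h2 : (5 : ℤ_[5]) ^ e ∣ ((((cc k i).eval (x * (x + 1)) : ℤ) : ℤ_[5]) -
          (((cc k i).eval (y * (y + 1)) : ℤ) : ℤ_[5])) := by
        rw [← Int.cast_sub]
        apply cast_dvd
        refine dvd_trans ?_ (Polynomial.sub_dvd_eval_sub _ _ _)
        have : x * (x + 1) - y * (y + 1) = (x - y) * (x + y + 1) := by ring
        rw [this]
        exact Dvd.dvd.mul_right hxy _
      have h3 := hκ3 k (by omega)
      obtain ⟨d1, hd1⟩ := h1
      obtain ⟨d2, hd2⟩ := h2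
      obtain ⟨d3, hd3⟩ := h3
      refine ⟨d1 * κ k * (((cc k i).eval (x * (x + 1)) : ℤ) : ℤ_[5]) + 25 * c y k * d3 * d2, ?_⟩
      change c x k * κ k * (((cc k i).eval (x * (x + 1)) : ℤ) : ℤ_[5]) -
        c y k * κ k * (((cc k i).eval (y * (y + 1)) : ℤ) : ℤ_[5]) = _
      have e1 : (5 : ℤ_[5]) ^ (e + 1) = 5 * 5 ^ e := by ring
      rw [e1] at hd1 ⊢
      linear_combination (κ k * (((cc k i).eval (x * (x + 1)) : ℤ) : ℤ_[5])) * hd1 +
        (c y k * κ k) * hd2 + (c y k * 5 ^ e * d2) * hd3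
  -- the two limit identities
  have hlim : ∀ x : ℤ, (12 : ℤ_[5]) * ((uz (5 * x) : ℤ) : ℤ_[5]) =
      (12 * α x 0 - α x 2 * (12 * (x : ℤ_[5]) ^ 2 + 17 * (x : ℤ_[5]) ^ 3)) * ((uz x : ℤ) : ℤ_[5]) +
        α x 2 * ((x : ℤ_[5]) ^ 3 * ((uz (x - 1) : ℤ) : ℤ_[5])) := by
    intro x
    have hN : x.natAbs < x.natAbs + 1 := Nat.lt_succ_self _
    obtain ⟨h1, h2⟩ := limit_main x (c x) κ cc (hc1 x) hκ1 hκ2
      (fun k => L_mom x _ hN cc hcc k)
    rw [Fin.sum_univ_three] at h1 h2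
    have e0 : L (x.natAbs + 1) x (fun j => jh j ^ ((0 : Fin 3) : ℕ)) = ((uz x : ℤ) : K) := by
      rw [← L_one _ x hN]; simp
    have e1 : L (x.natAbs + 1) x (fun j => jh j ^ ((1 : Fin 3) : ℕ)) = L (x.natAbs + 1) x jh := by
      simp
    rw [e0, e1] at h1 h2
    have hrel := L_rel _ x hN
    have hs := L_jh_snd _ x hN
    set Q := L (x.natAbs + 1) x (fun j => jh j ^ 2) with hQ
    set S := L (x.natAbs + 1) x jh with hS
    have e2 : L (x.natAbs + 1) x (fun j => jh j ^ ((2 : Fin 3) : ℕ)) = Q := by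
      rw [hQ]; rfl
    rw [e2] at h1 h2
    have hrel' : ((x : ℚ) ^ 3 * (uz (x - 1) : ℤ)) • (1 : K) =
        ((12 * (x : ℚ) ^ 2 + 17 * (x : ℚ) ^ 3) * (uz x : ℤ)) • (1 : K)
          - (24 * ((x : ℚ) * ((x : ℚ) + 1))) • S + (12 : ℚ) • Q := by
      simp only [Algebra.smul_def, map_mul, map_pow, map_add, map_intCast, map_ofNat, map_one, mul_one]
      exact hrel
    have hr1 := congrArg TrivSqZeroExt.fst hrel'
    have hr2 := congrArg TrivSqZeroExt.snd hrel'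
    rw [TrivSqZeroExt.fst_add, TrivSqZeroExt.fst_sub, TrivSqZeroExt.fst_smul, TrivSqZeroExt.fst_smul,
      TrivSqZeroExt.fst_smul, TrivSqZeroExt.fst_smul, TrivSqZeroExt.fst_one] at hr1
    rw [TrivSqZeroExt.snd_add, TrivSqZeroExt.snd_sub, TrivSqZeroExt.snd_smul, TrivSqZeroExt.snd_smul,
      TrivSqZeroExt.snd_smul, TrivSqZeroExt.snd_smul, TrivSqZeroExt.snd_one, hs] at hr2
    rw [TrivSqZeroExt.fst_intCast] at h1
    rw [TrivSqZeroExt.snd_intCast, hs] at h2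
    simp only [smul_eq_mul, mul_one, mul_zero, zero_sub, Rat.cast_zero, Rat.cast_one, zero_add] at hr1 hr2 h2
    have hQ2 : Q.snd = 2 * ((x : ℚ) * ((x : ℚ) + 1)) := by linarith
    rw [hQ2] at h2
    have hr1' := congrArg (fun r : ℚ => (r : ℚ_[5])) hr1
    push_cast at hr1' h1 h2
    have h12 : ((12 : ℤ_[5]) : ℚ_[5]) = 12 := by
      have := PadicInt.coe_natCast (p := 5) 12
      simpa using this
    have h17 : ((17 : ℤ_[5]) : ℚ_[5]) = 17 := by
      have := PadicInt.coe_natCast (p := 5) 17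
      simpa using this
    have h3 : (((12 : ℤ_[5]) * ((uz (5 * x) : ℤ) : ℤ_[5]) : ℤ_[5]) : ℚ_[5]) =
      (((12 * α x 0 - α x 2 * (12 * (x : ℤ_[5]) ^ 2 + 17 * (x : ℤ_[5]) ^ 3)) * ((uz x : ℤ) : ℤ_[5]) +
        α x 2 * ((x : ℤ_[5]) ^ 3 * ((uz (x - 1) : ℤ) : ℤ_[5])) : ℤ_[5]) : ℚ_[5]) := by
      push_cast
      rw [h12, h17]
      change ((α x 0 : ℤ_[5]) : ℚ_[5]) * _ + ((α x 1 : ℤ_[5]) : ℚ_[5]) * _ + ((α x 2 : ℤ_[5]) : ℚ_[5]) * _ = _ at h1
      change ((α x 1 : ℤ_[5]) : ℚ_[5]) + ((α x 2 : ℤ_[5]) : ℚ_[5]) * _ = _ at h2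
      linear_combination (-12) * h1 + 12 * ((S.fst : ℚ) : ℚ_[5]) * h2 - ((α x 2 : ℤ_[5]) : ℚ_[5]) * hr1'
    exact Subtype.ext h3
  have hβ : ∀ x, ∃ β, α x 2 = 125 * β := fun x => by
    obtain ⟨d, hd⟩ := hα2 x
    exact ⟨d, by rw [hd]; norm_num⟩
  choose β hβ using hβ
  obtain ⟨t, ht⟩ := isUnit_twelve.exists_left_inv
  refine ⟨fun x => α x 0 - t * α x 2 * (12 * (x : ℤ_[5]) ^ 2 + 17 * (x : ℤ_[5]) ^ 3),
    fun x => t * β x, ?_, ?_, ?_, ?_⟩
  · intro x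
    have h1 := hlim x
    have h2 := hβ x
    beta_reduce
    linear_combination t * h1 - (((uz (5 * x) : ℤ) : ℤ_[5]) - α x 0 * ((uz x : ℤ) : ℤ_[5])) * ht
      + t * ((x : ℤ_[5]) ^ 3 * ((uz (x - 1) : ℤ) : ℤ_[5])) * h2
  · intro x
    beta_reduce
    have h1 := hα0 x
    obtain ⟨d, hd⟩ := hα2 x
    have : α x 0 - t * α x 2 * (12 * (x : ℤ_[5]) ^ 2 + 17 * (x : ℤ_[5]) ^ 3) - 1 =
        (α x 0 - 1) - 5 * (25 * t * d * (12 * (x : ℤ_[5]) ^ 2 + 17 * (x : ℤ_[5]) ^ 3)) := by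
      rw [hd]; ring
    rw [this]
    exact dvd_sub h1 (dvd_mul_right _ _)
  · intro e x y hxy
    beta_reduce
    obtain ⟨d0, hd0⟩ := hαlip 0 e x y hxy
    obtain ⟨d2, hd2⟩ := hαlip 2 e x y hxy
    obtain ⟨d, hd⟩ := hα2 y
    obtain ⟨g, hg⟩ := cast_dvd hxy
    rw [Int.cast_sub] at hg
    refine ⟨d0 - t * (12 * (x : ℤ_[5]) ^ 2 + 17 * (x : ℤ_[5]) ^ 3) * d2 -
      25 * t * d * g * (12 * ((x : ℤ_[5]) + y) + 17 * ((x : ℤ_[5]) ^ 2 + x * y + (y : ℤ_[5]) ^ 2)), ?_⟩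
    have e1 : (5 : ℤ_[5]) ^ (e + 1) = 5 * 5 ^ e := by ring
    rw [e1] at hd0 hd2 ⊢
    linear_combination hd0 - t * (12 * (x : ℤ_[5]) ^ 2 + 17 * (x : ℤ_[5]) ^ 3) * hd2
      - t * ((x : ℤ_[5]) - y) * (12 * ((x : ℤ_[5]) + y) + 17 * ((x : ℤ_[5]) ^ 2 + x * y + (y : ℤ_[5]) ^ 2)) * hd
      - 125 * t * d * (12 * ((x : ℤ_[5]) + y) + 17 * ((x : ℤ_[5]) ^ 2 + x * y + (y : ℤ_[5]) ^ 2)) * hg
  · intro e x y hxy
    beta_reduce
    obtain ⟨d2, hd2⟩ := hαlip 2 e x y hxy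
    have h1 := hβ x
    have h2 := hβ y
    refine ⟨t * d2, ?_⟩
    linear_combination t * hd2 - t * h1 + t * h2


end J8

end Pool.Agent.Helper468.Apery
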