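import Pool.Agent.Helper468.Apery.J8
import Pool.Agent.Helper468.Apery.J12

set_option autoImplicit false

namespace Pool.Agent.Helper468.Apery

open Finset
open J3 (uz_rec)
open J8 (frob)
open J12 (final_of_frob)

theorem idx_nat (n : ℕ) : idx (n : ℤ) = n := by
  unfold idx; rw [if_pos (by positivity)]; simp

theorem idx_neg (n : ℕ) (hn : 1 ≤ n) : idx (-(n : ℤ)) = n - 1 := by
  unfold idx; rw [if_neg (by omega)]; omega

theorem aper_ne (n : ℕ) : aper n ≠ 0 := by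
  unfold aper
  have h : 0 < ∑ k ∈ Finset.range (n + 1), (n.choose k) ^ 2 * ((n + k).choose k) ^ 2 := by
    apply Finset.sum_pos'
    · intro i _; positivity
    · exact ⟨0, by simp, by simp⟩
  omega

theorem exists_frob : ∃ A Am B Bm : ℕ → ℤ_[5],
    Frob (fun n => (aper n : ℤ_[5])) (fun n => (n : ℤ_[5]) ^ 3 * (aper (n - 1) : ℤ_[5])) A Am B Bm := by
  obtain ⟨A, B, h1, h2, h3, h4⟩ := frob
  have hmod : ∀ {e m n : ℕ}, m ≡ n [MOD 5 ^ e] → (5 : ℤ) ^ e ∣ (m : ℤ) - n := by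
    intro e m n h
    have := (Nat.modEq_iff_dvd.mp h.symm)
    exact_mod_cast this
  have hmod' : ∀ {e m n : ℕ}, m ≡ n [MOD 5 ^ e] → (5 : ℤ) ^ e ∣ (-(m : ℤ)) - (-(n : ℤ)) := by
    intro e m n h
    have := hmod h.symm
    have e1 : (-(m : ℤ)) - (-(n : ℤ)) = (n : ℤ) - m := by ring
    rw [e1]; exact this
  have hu : ∀ n : ℕ, ((uz (n : ℤ) : ℤ) : ℤ_[5]) = (aper n : ℤ_[5]) := by
    intro n; unfold uz; rw [idx_nat]; simp
  have hw : ∀ n : ℕ, (n : ℤ_[5]) ^ 3 * ((uz ((n : ℤ) - 1) : ℤ) : ℤ_[5]) =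
      (n : ℤ_[5]) ^ 3 * (aper (n - 1) : ℤ_[5]) := by
    intro n
    rcases Nat.eq_zero_or_pos n with h | h
    · subst h; simp
    · have e1 : (n : ℤ) - 1 = ((n - 1 : ℕ) : ℤ) := by omega
      rw [e1, hu]
  refine ⟨fun n => A n, fun n => A (-(n : ℤ)), fun n => B n, fun n => B (-(n : ℤ)), ?_⟩
  refine ⟨by simp, ?_, ?_, ?_, ?_, ?_, fun n => h2 _, fun n => h2 _, fun e m n h => h3 e _ _ (hmod h),
    fun e m n h => h3 e _ _ (hmod' h), fun e m n h => h4 e _ _ (hmod h),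
    fun e m n h => h4 e _ _ (hmod' h)⟩
  · intro n; simp
  · intro n
    have := congrArg (fun z : ℤ => (z : ℤ_[5])) (uz_rec (n : ℤ))
    push_cast at this
    have e1 : ((uz ((n : ℤ) + 1) : ℤ) : ℤ_[5]) = (aper (n + 1) : ℤ_[5]) := by
      have := hu (n + 1)
      push_cast at this
      exact this
    rw [e1, hu, hw] at this
    exact this
  · intro n
    have := aper_ne n
    exact_mod_cast this
  · intro n
    have := h1 (n : ℤ)
    rw [hu] at this
    have e1 : ((uz (5 * (n : ℤ)) : ℤ) : ℤ_[5]) = (aper (5 * n) : ℤ_[5]) := by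
      have := hu (5 * n)
      push_cast at this
      exact this
    push_cast at this
    rw [e1, hw] at this
    exact this
  · intro n
    rcases Nat.eq_zero_or_pos n with h | h
    · subst h; simp
    · have := h1 (-(n : ℤ))
      have e1 : ((uz (5 * (-(n : ℤ))) : ℤ) : ℤ_[5]) = (aper (5 * n - 1) : ℤ_[5]) := by
        have e2 : 5 * (-(n : ℤ)) = -((5 * n : ℕ) : ℤ) := by push_cast; ring
        rw [e2]; unfold uz; rw [idx_neg _ (by omega)]; simp
      have e3 : ((uz (-(n : ℤ)) : ℤ) : ℤ_[5]) = (aper (n - 1) : ℤ_[5]) := by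
        unfold uz; rw [idx_neg _ h]; simp
      have e4 : ((uz (-(n : ℤ) - 1) : ℤ) : ℤ_[5]) = (aper n : ℤ_[5]) := by
        have e5 : (-(n : ℤ) - 1) = -((n + 1 : ℕ) : ℤ) := by push_cast; ring
        rw [e5]; unfold uz; rw [idx_neg _ (by omega)]; simp
      rw [e1, e3, e4] at this
      push_cast at this ⊢
      linear_combination (125 * (n : ℤ_[5]) ^ 3) * this

theorem not_regular (b : ℕ → ℤ) (hb : ∀ n, b n = ((padicValNat 5 (aper n) : ℕ) : ℤ)) :
    ¬ (Submodule.span ℤ {f : ℕ → ℤ | ∃ e r : ℕ, r < 5 ^ e ∧ f = fun n => b (5 ^ e * n + r)}).FG := by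
  obtain ⟨A, Am, B, Bm, F⟩ := exists_frob
  exact final_of_frob F aper (fun n => rfl) b hb

end Pool.Agent.Helper468.Apery
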